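import Pool.Agent.Work.MP_791b9a_al.Split

namespace MP791b9a

open Subgroup Pointwise

variable {G : Type*} [Group G]

theorem oddEl_mk {g : G} {L : Subgroup G} [L.Normal] (h : OddEl g) :
    OddEl (QuotientGroup.mk' L g) := h.map _

/-- The case where `G/T` has a nontrivial normal `q`-subgroup acting nontrivially on `T`. -/
theorem case_two [Finite G] (P : Sylow 2 G) {k : ℕ} (hyp : Hyp G k) {T Q : Subgroup G} {q : ℕ}
    (hq : q.Prime) (hq2 : q ≠ 2) (hT : IsPGroup 2 T) [hTn : T.Normal] (hQ : IsPGroup q Q)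
    [hN : (T ⊔ Q).Normal] (hnc : ∃ x ∈ Q, ∃ t ∈ T, x * t ≠ t * x)
    (hord : ∀ y ∈ P, orderOf y < 2 ^ k) (hcard : 2 ^ k < Nat.card P) : False := by
  classical
  have hTP : T ≤ P := le_sylow_of_normal P hT
  -- `L` maximal such that `Q` acts nontrivially on `T / L`
  obtain ⟨L, ⟨hLn, hLT, x0, hx0, t0, ht0, hxt0⟩, hLmax⟩ := WellFounded.has_min
      (wellFounded_gt : WellFounded ((· > ·) : Subgroup G → Subgroup G → Prop))
      {L : Subgroup G | L.Normal ∧ L ≤ T ∧ ∃ x ∈ Q, ∃ t ∈ T, x * t * x⁻¹ * t⁻¹ ∉ L}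
      ⟨⊥, inferInstance, bot_le, by
        obtain ⟨x, hx, t, ht, hxt⟩ := hnc
        refine ⟨x, hx, t, ht, ?_⟩
        rw [Subgroup.mem_bot]
        intro h
        apply hxt
        have h4 := mul_inv_eq_one.1 h
        exact mul_inv_eq_iff_eq_mul.1 h4⟩
  have hLn' : L.Normal := hLn
  set π := QuotientGroup.mk' L with hπ
  have hπs : Function.Surjective π := QuotientGroup.mk'_surjective L
  have hker : π.ker = L := QuotientGroup.ker_mk' L
  have hTL : (T.map π).comap π = T := by
    rw [Subgroup.comap_map_eq, hker, sup_eq_left]; exact hLT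
  have hsp := split_lemma (G := G ⧸ L) (T := T.map π) (Q := Q.map π) hq hq2 (hT.map π)
    (hTn := hTn.map π hπs) (hQ.map π)
    (hN := by rw [← Subgroup.map_sup]; exact hN.map π hπs)
    (by
      refine ⟨π x0, ⟨x0, hx0, rfl⟩, π t0, ⟨t0, ht0, rfl⟩, ?_⟩
      intro h
      apply hxt0
      rw [← hker, MonoidHom.mem_ker]
      simp only [map_mul, map_inv]
      rw [h]; group)
    (by
      intro J hJ hJT hJb x hx t ht
      obtain ⟨x, hx, rfl⟩ := hx
      obtain ⟨t, ht, rfl⟩ := ht
      have hJn : (J.comap π).Normal := hJ.comap π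
      have hLJ : L < J.comap π := by
        refine lt_of_le_of_ne ?_ ?_
        · intro l hl
          rw [Subgroup.mem_comap]
          have : π l = 1 := by rw [← MonoidHom.mem_ker, hker]; exact hl
          rw [this]; exact J.one_mem
        · intro h
          apply hJb
          have := congrArg (Subgroup.map π) h
          rw [Subgroup.map_comap_eq_self_of_surjective hπs] at this
          rw [← this]
          rw [Subgroup.map_eq_bot_iff, hker]
      have hJT' : J.comap π ≤ T := by
        rw [← hTL]; exact Subgroup.comap_mono hJT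
      by_contra hcon
      apply hLmax (J.comap π) ⟨hJn, hJT', x, hx, t, ht, ?_⟩ hLJ
      intro h
      apply hcon
      rw [Subgroup.mem_comap] at h
      simpa using h)
  obtain ⟨hch, ⟨Xq, hXq1, hXq2⟩, hTcard⟩ := hsp
  -- pull back to `G`
  have hchief : ∀ J : Subgroup G, J.Normal → L ≤ J → J ≤ T → J = L ∨ J = T := by
    intro J hJ hLJ hJT
    have e : (J.map π).comap π = J := by
      rw [Subgroup.comap_map_eq, hker, sup_eq_left]; exact hLJ
    rcases hch (J.map π) (hJ.map π hπs) (Subgroup.map_mono hJT) with h | h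
    · left
      rw [h] at e
      rw [← e]
      exact hker
    · right
      rw [h, hTL] at e
      exact e.symm
  set X := Xq.comap π with hX
  have hXT : X ⊓ T = L := by
    have h1 : (Xq ⊓ T.map π).comap π = L := by
      rw [hXq1]; exact hker
    rw [Subgroup.comap_inf, hTL] at h1
    exact h1
  have hLX : L ≤ X := by rw [← hXT]; exact inf_le_left
  have hdec : ∀ g : G, ∃ t ∈ T, ∃ x ∈ X, g = t * x := by
    intro g
    obtain ⟨t', ⟨t, ht, rfl⟩, x', hx', hgx⟩ := hXq2 (π g)
    obtain ⟨x, rfl⟩ := hπs x'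
    refine ⟨t, ht, t⁻¹ * g, ?_, by group⟩
    rw [hX, Subgroup.mem_comap, map_mul, map_inv, hgx]
    simpa using hx'
  have hLltT : L < T := by
    refine lt_of_le_of_ne hLT ?_
    rintro rfl
    exact hxt0 (L.mul_mem (hTn.conj_mem t0 ht0 x0) (L.inv_mem ht0))
  have hTne : Nat.card T ≠ 2 * Nat.card L := by
    intro hc
    apply hTcard
    have h1 : L.relIndex T = Nat.card (T.map π) :=
      (congrArg (fun M => Subgroup.relIndex M T) hker).symm.trans (Subgroup.relIndex_ker T π)
    rw [← h1]
    have h2 := Subgroup.card_mul_index (L.subgroupOf T)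
    rw [Nat.card_congr (Subgroup.subgroupOfEquivOfLe hLT).toEquiv, hc, mul_comm 2] at h2
    exact Nat.eq_of_mul_eq_mul_left Nat.card_pos h2
  -- `|T| ≤ 2 ^ k`
  obtain ⟨x, hxT, hxL, hx2, hxP⟩ := exists_fixed P.isPGroup' hTP (inv_of_normal _ L)
    (inv_of_normal _ T) hLltT
  have hTsmall : Nat.card T ≤ 2 ^ k :=
    chief_small P hyp hT le_rfl hLltT hchief hTne hxT hxL hx2 hxP (hord x (hTP hxT)).le
  -- an invariant subgroup of index two
  obtain ⟨T3, h31, h32, h33, h34⟩ := exists_inv_index_two P.isPGroup' hTP (inv_of_normal _ T)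
    (inv_of_normal _ L) hLltT
  set A := ((P : Subgroup G) ⊓ X) ⊔ T3 with hA
  have hAP : A ≤ P := sup_le inf_le_left (h33.le.trans hTP)
  have hAT : A ⊓ T = T3 := by
    apply le_antisymm
    · rintro a ⟨ha1, ha2⟩
      obtain ⟨y, hy, d, hd, rfl⟩ := mem_sup_of_inv (h31.mono inf_le_left) ha1
      have hyT : y ∈ T := by
        have := T.mul_mem ha2 (T.inv_mem (h33.le hd))
        simpa using this
      have : y ∈ X ⊓ T := ⟨hy.2, hyT⟩
      rw [hXT] at this
      exact T3.mul_mem (h32 this) hd
    · exact le_inf le_sup_right h33.le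
  have hAcard : 2 ^ k ≤ Nat.card A := by
    obtain ⟨s, hsT, hsT3⟩ := Set.exists_of_ssubset h33
    have hd : A.relIndex (P : Subgroup G) ∣ 2 := by
      rw [Subgroup.relIindex_dvd_two_iff']
      refine ⟨s, hTP hsT, ?_⟩
      intro p hp
      obtain ⟨t, ht, y, hy, rfl⟩ := hdec p
      have hyP : y ∈ (P : Subgroup G) := by
        have := P.mul_mem (P.inv_mem (hTP ht)) hp
        simpa using this
      have hyA : y ∈ A := (le_sup_left : (P : Subgroup G) ⊓ X ≤ A) ⟨hyP, hy⟩
      by_cases htT3 : t ∈ T3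
      · right
        exact A.mul_mem ((le_sup_right : T3 ≤ A) htT3) hyA
      · left
        have h1 : s * t ∈ T3 := by
          rw [mul_mem_of_index_two h33.le h34 hsT ht]
          exact ⟨fun h => absurd h hsT3, fun h => absurd h htT3⟩
        rw [← mul_assoc]
        exact A.mul_mem ((le_sup_right : T3 ≤ A) h1) hyA
    have h2 := Subgroup.card_mul_index (A.subgroupOf (P : Subgroup G))
    rw [Nat.card_congr (Subgroup.subgroupOfEquivOfLe hAP).toEquiv] at h2
    have h3 : (A.subgroupOf (P : Subgroup G)).index ≤ 2 := Nat.le_of_dvd (by norm_num) hd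
    have h4 : Nat.card P ≤ 2 * Nat.card A := by
      have h5 : Nat.card A * (A.subgroupOf (P : Subgroup G)).index ≤ Nat.card A * 2 :=
        Nat.mul_le_mul_left _ h3
      have h6 : Nat.card P = Nat.card A * (A.subgroupOf (P : Subgroup G)).index := h2.symm
      rw [h6]; linarith
    obtain ⟨a, ha⟩ := card_two_pow (isPGroup_of_le hAP P.isPGroup')
    have h7 : 2 ^ k < 2 ^ (a + 1) := by
      calc 2 ^ k < Nat.card P := hcard
        _ ≤ 2 * Nat.card A := h4
        _ = 2 ^ (a + 1) := by rw [ha, pow_succ']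
    have h8 : k < a + 1 := (Nat.pow_lt_pow_iff_right (by norm_num)).1 h7
    rw [ha]
    exact Nat.pow_le_pow_right (by norm_num) (by omega)
  have hT3A : T3 ≤ A := le_sup_right
  have hT3card : Nat.card T3 ≤ 2 ^ k := (Subgroup.card_le_of_le h33.le).trans hTsmall
  obtain ⟨H, hH1, hH2, hH3⟩ := exists_between (isPGroup_of_le hAP P.isPGroup') hT3A hT3card hAcard
  have hg := good_chief P hyp hT le_rfl (L := L) (K := T) hH3
  have e1 : (H ⊓ T) ⊔ L = T3 := by
    have : H ⊓ T = T3 := by
      apply le_antisymm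
      · rw [← hAT]; exact inf_le_inf_right T hH2
      · exact le_inf hH1 h33.le
    rw [this, sup_eq_left]
    exact h32
  rw [e1] at hg
  rcases hchief T3 (hg.inv h31) h32 h33.le with h | h
  · rw [h] at h34
    exact hTne h34.symm
  · exact h33.ne h

end MP791b9a
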