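import Pool.Agent.Work.MP_791b9a_al.Kegel
import Pool.Agent.Work.MP_791b9a_al.CaseTwo

namespace MP791b9a

open Subgroup Pointwise

variable {G : Type*} [Group G]

theorem Propermutable.map {G' : Type*} [Group G'] {H : Subgroup G} (h : Propermutable H)
    {f : G →* G'} (hf : Function.Surjective f) : Propermutable (H.map f) := by
  obtain ⟨B, hB, hperm⟩ := h
  refine ⟨B.map f, ?_, ?_⟩
  · rw [Set.eq_univ_iff_forall]
    intro y
    obtain ⟨g, rfl⟩ := hf y
    have hg : g ∈ ((Subgroup.normalizer (H : Set G) : Subgroup G) : Set G) * (B : Set G) := by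
      rw [hB]; trivial
    obtain ⟨n, hn, b, hb, rfl⟩ := hg
    refine ⟨f n, ?_, f b, ⟨b, hb, rfl⟩, (map_mul f n b).symm⟩
    exact Subgroup.le_normalizer_map f ⟨n, hn, rfl⟩
  · intro X hX
    have hXeq : X = (X.comap f ⊓ B).map f := by
      apply le_antisymm
      · intro x hx
        obtain ⟨b, hb, rfl⟩ := hX hx
        exact ⟨b, ⟨hx, hb⟩, rfl⟩
      · rintro _ ⟨b, hb, rfl⟩
        exact hb.1
    rw [hXeq]
    exact (hperm _ inf_le_right).map f

theorem Propermutable.cj {H : Subgroup G} (h : Propermutable H) (g : G) :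
    Propermutable (cj g H) :=
  h.map (MulAut.conj g).surjective

theorem cj_card (g : G) (H : Subgroup G) : Nat.card (cj g H) = Nat.card H :=
  (Nat.card_congr (H.equivMapOfInjective _ (MulAut.conj g).injective).toEquiv).symm

/-- If `S` (odd order `p`-group) centralizes the 2-group `T` and `TS` is normal, `S` is normal. -/
theorem normal_of_centralizes [Finite G] {T S : Subgroup G} {p : ℕ} (hp : p.Prime) (hp2 : p ≠ 2)
    (hT : IsPGroup 2 T) [hTn : T.Normal] (hS : IsPGroup p S) (hN : (T ⊔ S).Normal)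
    (hc : ∀ x ∈ S, ∀ t ∈ T, x * t = t * x) : S.Normal := by
  have : Fact p.Prime := ⟨hp⟩
  obtain ⟨a, ha⟩ := (IsPGroup.iff_card).1 hS
  have hpow : ∀ s ∈ S, s ^ (p ^ a) = 1 := by
    intro s hs
    have h1 : (⟨s, hs⟩ : S) ^ Nat.card S = 1 := pow_card_eq_one'
    rw [ha] at h1
    exact congrArg Subtype.val h1
  refine ⟨fun s hs g => ?_⟩
  have h1 : g * s * g⁻¹ ∈ ((T ⊔ S : Subgroup G) : Set G) :=
    hN.conj_mem s ((le_sup_right : S ≤ T ⊔ S) hs) g
  rw [Subgroup.normal_mul] at h1
  obtain ⟨t, ht, s', hs', he⟩ := h1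
  have he' : t * s' = g * s * g⁻¹ := he
  have hcomm : Commute t s' := (hc s' hs' t ht).symm
  have h2 : (t * s') ^ (p ^ a) = t ^ (p ^ a) := by
    rw [hcomm.mul_pow, hpow s' hs', mul_one]
  have h3 : t ^ (p ^ a) = 1 := by
    rw [← h2, he', conj_pow, hpow s hs]; simp
  obtain ⟨b, hb⟩ := hT ⟨t, ht⟩
  have h4 : t = 1 := pow_eq_one_of_two (hp.odd_of_ne_two hp2).pow h3
    (by simpa [Subtype.ext_iff] using hb)
  rw [h4, one_mul] at he'
  rw [← he']; exact hs'

/-- If some `H` of order `2 ^ k` is not in `T = O_2(G)`, there is a `p`-subgroup `S`, `p` odd, with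
`T S` normal and `S` acting nontrivially on `T`. -/
theorem exists_acting [Finite G] {T H : Subgroup G} (hT : IsPGroup 2 T) [hTn : T.Normal]
    (hTmax : ∀ J : Subgroup G, J.Normal → IsPGroup 2 J → J ≤ T)
    (hNO : ∀ J : Subgroup G, J.Normal → Odd (Nat.card J) → J = ⊥)
    (hH : IsPGroup 2 H) (hHp : Propermutable H) (hHT : ¬ H ≤ T) :
    ∃ (p : ℕ) (S : Subgroup G), p.Prime ∧ p ≠ 2 ∧ IsPGroup p S ∧ (T ⊔ S).Normal ∧
      ∃ x ∈ S, ∃ t ∈ T, x * t ≠ t * x := by
  set π := QuotientGroup.mk' T with hπ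
  have hπs : Function.Surjective π := QuotientGroup.mk'_surjective T
  have hker : π.ker = T := QuotientGroup.ker_mk' T
  obtain ⟨p, hp, N, hN, hNne, hNp⟩ := exists_normal_pgroup (H.map π) (hH.map π) (by
    intro h
    rw [Subgroup.map_eq_bot_iff, hker] at h
    exact hHT h) (hHp.map hπs)
  have : Fact p.Prime := ⟨hp⟩
  have hp2 : p ≠ 2 := by
    rintro rfl
    have h1 : IsPGroup 2 (N.comap π) :=
      hNp.comap_of_ker_isPGroup π (by rw [hker]; exact hT)
    have h2 := hTmax _ (hN.comap π) h1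
    apply hNne
    rw [← Subgroup.map_comap_eq_self_of_surjective hπs N, Subgroup.map_eq_bot_iff, hker]
    exact h2
  obtain ⟨S, hS, hSN⟩ := exists_lift_pgroup hπs hNp
  have hTS : T ⊔ S = N.comap π := by
    rw [← hSN, Subgroup.comap_map_eq, hker, sup_comm]
  have hTSn : (T ⊔ S).Normal := by rw [hTS]; exact hN.comap π
  refine ⟨p, S, hp, hp2, hS, hTSn, ?_⟩
  by_contra hcon
  push Not at hcon
  have hSn := normal_of_centralizes hp hp2 hT hS hTSn hcon
  have hSb : S = ⊥ := by
    apply hNO S hSn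
    obtain ⟨a, ha⟩ := (IsPGroup.iff_card).1 hS
    rw [ha]
    exact (hp.odd_of_ne_two hp2).pow
  apply hNne
  rw [← hSN, hSb, Subgroup.map_bot]

/-- The main theorem in the case of no nontrivial normal subgroup of odd order. -/
theorem main_reduced [Finite G] {k : ℕ} (hk : 2 ≤ k) (hyp : Hyp G k) (P : Sylow 2 G)
    (hcard : 2 ^ k < Nat.card P)
    (hNO : ∀ J : Subgroup G, J.Normal → Odd (Nat.card J) → J = ⊥) : IsPGroup 2 G := by
  have : Fact (Nat.Prime 2) := ⟨Nat.prime_two⟩
  set T : Subgroup G := (P : Subgroup G).normalCore with hTdef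
  have hTP : T ≤ P := Subgroup.normalCore_le _
  have hT : IsPGroup 2 T := isPGroup_of_le hTP P.isPGroup'
  have hTn : T.Normal := inferInstance
  have hTmax : ∀ J : Subgroup G, J.Normal → IsPGroup 2 J → J ≤ T := by
    intro J hJ hJ2
    exact Subgroup.normal_le_normalCore.2 (le_sylow_of_normal P hJ2)
  -- elements of small order lie in subgroups of order `2 ^ k`
  have hsmall : ∀ x : G, (∃ a, x ^ 2 ^ a = 1) → orderOf x ≤ 2 ^ k →
      ∃ H : Subgroup G, x ∈ H ∧ Nat.card H = 2 ^ k := by
    rintro x ⟨a, ha⟩ hx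
    have h2 : IsPGroup 2 (zpowers x) := by
      rintro ⟨y, hy⟩
      obtain ⟨m, rfl⟩ := Subgroup.mem_zpowers_iff.1 hy
      refine ⟨a, Subtype.ext ?_⟩
      change (x ^ m) ^ 2 ^ a = 1
      rw [← zpow_natCast, ← zpow_mul, mul_comm, zpow_mul, zpow_natCast, ha, one_zpow]
    obtain ⟨S, hS⟩ := h2.exists_le_sylow
    have hScard : Nat.card (S : Subgroup G) = Nat.card (P : Subgroup G) := by
      rw [Sylow.card_eq_multiplicity, Sylow.card_eq_multiplicity]
    obtain ⟨H, h1, _, h3⟩ := exists_between S.isPGroup' hS (j := k)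
      (by rw [Nat.card_zpowers]; exact hx) (by rw [hScard]; exact hcard.le)
    exact ⟨H, h1 (mem_zpowers x), h3⟩
  by_cases hall : ∀ H : Subgroup G, Nat.card H = 2 ^ k → H ≤ T
  · by_cases hcent : ∀ g : G, OddEl g → ∀ x ∈ T, g * x = x * g
    · -- Frobenius
      obtain ⟨N, hN, hNodd, a, ha⟩ := frobenius_two (G := G) (by
        intro S hS g hg hgS s hs
        refine omega_lemma (N := Subgroup.normalizer (S : Set G)) hS Subgroup.le_normalizer
          (fun n hn x hx => (Subgroup.mem_normalizer_iff.1 hn x).1 hx) ?_ g ?_ hg s hs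
        · intro x hx h4 g' _ hg'
          obtain ⟨b, hb⟩ := hS ⟨x, hx⟩
          obtain ⟨H, hxH, hHc⟩ := hsmall x ⟨b, by simpa [Subtype.ext_iff] using hb⟩ (by
            calc orderOf x ≤ 4 := orderOf_le_of_pow_eq_one (by norm_num) h4
              _ = 2 ^ 2 := by norm_num
              _ ≤ 2 ^ k := Nat.pow_le_pow_right (by norm_num) hk)
          exact hcent g' hg' x (hall H hHc hxH)
        · apply normalizer_inf_le
          rintro _ ⟨y, hy, rfl⟩
          exact hgS y hy)
      rw [hNO N hN hNodd, Subgroup.index_bot] at ha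
      exact IsPGroup.of_card ha
    · exfalso
      push Not at hcent
      have hord := no_large_order P hk hyp hT hcent
      have hPT : (P : Subgroup G) = T := by
        apply le_antisymm _ hTP
        intro y hy
        obtain ⟨b, hb⟩ := P.isPGroup' ⟨y, hy⟩
        obtain ⟨H, hyH, hHc⟩ := hsmall y ⟨b, by simpa [Subtype.ext_iff] using hb⟩ (hord y hy).le
        exact hall H hHc hyH
      have hPn : (P : Subgroup G).Normal := by rw [hPT]; exact hTn
      obtain ⟨g, hg, x, hx, hgx⟩ := hcent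
      exact hgx (normal_case P hyp hord hcard g hg x (hTP hx))
  · exfalso
    push Not at hall
    obtain ⟨H, hHc, hHT⟩ := hall
    obtain ⟨p, S, hp, hp2, hS, hTS, x, hx, t, ht, hxt⟩ :=
      exists_acting hT hTmax hNO (isPGroup_of_card hHc) (hyp H hHc) hHT
    have hord := no_large_order P hk hyp hT ⟨x, oddEl_of_mem hp hp2 hS hx, t, ht, hxt⟩
    exact case_two P hyp hp hp2 hT hS ⟨x, hx, t, ht, hxt⟩ hord hcard

/-- The main theorem. -/
theorem main_theorem [Finite G] (P : Sylow 2 G) (n k : ℕ) (hP : Nat.card P = 2 ^ n)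
    (hk1 : 1 < k) (hkn : k < n)
    (h : ∀ H : Subgroup G, H ≤ P → Nat.card H = 2 ^ k → Propermutable H) : TwoNilpotent G := by
  have : Fact (Nat.Prime 2) := ⟨Nat.prime_two⟩
  -- all subgroups of order `2 ^ k` are propermutable
  have hyp : Hyp G k := by
    intro H hH
    obtain ⟨S, hS⟩ := (isPGroup_of_card hH).exists_le_sylow
    obtain ⟨g, hg⟩ := MulAction.exists_smul_eq G S P
    have h1 : cj g H ≤ P := by
      intro y hy
      rw [mem_cj] at hy
      have h2 := hS hy
      rw [← hg, Sylow.coe_subgroup_smul, Subgroup.mem_pointwise_smul_iff_inv_smul_mem]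
      simpa [MulAut.smul_def, ← map_inv, MulAut.conj_apply] using h2
    have h2 := (h _ h1 (by rw [cj_card, hH])).cj g⁻¹
    rwa [cj_cj, inv_mul_cancel, cj_one] at h2
  -- maximal normal subgroup of odd order
  obtain ⟨R, ⟨hRn, hRodd⟩, hRmax⟩ := WellFounded.has_min
    (wellFounded_gt : WellFounded ((· > ·) : Subgroup G → Subgroup G → Prop))
    {R : Subgroup G | R.Normal ∧ Odd (Nat.card R)} ⟨⊥, inferInstance, by simp⟩
  have hRn' : R.Normal := hRn
  set π := QuotientGroup.mk' R with hπ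
  have hπs : Function.Surjective π := QuotientGroup.mk'_surjective R
  have hker : π.ker = R := QuotientGroup.ker_mk' R
  -- 2-subgroups inject
  have hinj : ∀ S : Subgroup G, IsPGroup 2 S → Nat.card (S.map π) = Nat.card S := by
    intro S hS
    have h1 : R.relIndex S = Nat.card (S.map π) :=
      (congrArg (fun M => Subgroup.relIndex M S) hker).symm.trans (Subgroup.relIndex_ker S π)
    rw [← h1, ← Subgroup.inf_relIndex_right]
    have h2 : R ⊓ S = ⊥ := by
      rw [eq_bot_iff]
      rintro x ⟨hx1, hx2⟩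
      rw [Subgroup.mem_bot]
      obtain ⟨b, hb⟩ := hS ⟨x, hx2⟩
      refine pow_eq_one_of_two hRodd ?_ (by simpa [Subtype.ext_iff] using hb)
      have h3 : (⟨x, hx1⟩ : R) ^ Nat.card R = 1 := pow_card_eq_one'
      exact congrArg Subtype.val h3
    rw [h2, Subgroup.relIndex_bot_left]
  have hypq : Hyp (G ⧸ R) k := by
    intro H hH
    obtain ⟨S, hS, rfl⟩ := exists_lift_pgroup hπs (isPGroup_of_card hH)
    rw [hinj S hS] at hH
    exact (hyp S hH).map hπs
  have hNO : ∀ J : Subgroup (G ⧸ R), J.Normal → Odd (Nat.card J) → J = ⊥ := by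
    intro J hJ hJodd
    have hRJ : R ≤ J.comap π := by
      intro y hy
      rw [Subgroup.mem_comap]
      have : π y = 1 := by rw [← MonoidHom.mem_ker, hker]; exact hy
      rw [this]; exact J.one_mem
    have hcardJ : Nat.card (J.comap π) = Nat.card R * Nat.card J := by
      have h1 : R.relIndex (J.comap π) = Nat.card ((J.comap π).map π) :=
        (congrArg (fun M => Subgroup.relIndex M (J.comap π)) hker).symm.trans
          (Subgroup.relIndex_ker (J.comap π) π)
      rw [Subgroup.map_comap_eq_self_of_surjective hπs] at h1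
      have h2 := Subgroup.card_mul_index (R.subgroupOf (J.comap π))
      rw [Nat.card_congr (Subgroup.subgroupOfEquivOfLe hRJ).toEquiv] at h2
      have h3 : (R.subgroupOf (J.comap π)).index = Nat.card J := h1
      rw [h3] at h2
      exact h2.symm
    have h4 : R = J.comap π := by
      by_contra hne
      exact hRmax (J.comap π) ⟨hJ.comap π, by rw [hcardJ]; exact hRodd.mul hJodd⟩
        (lt_of_le_of_ne hRJ hne)
    rw [← Subgroup.map_comap_eq_self_of_surjective hπs J, ← h4, Subgroup.map_eq_bot_iff, hker]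
  have hcardP : 2 ^ k < Nat.card ((P.mapSurjective hπs : Sylow 2 (G ⧸ R)) : Subgroup (G ⧸ R)) := by
    rw [Sylow.coe_mapSurjective, hinj P P.isPGroup', hP]
    exact Nat.pow_lt_pow_right (by norm_num) hkn
  have hfin := main_reduced hk1 hypq (P.mapSurjective hπs) hcardP hNO
  have htop : (P : Subgroup G).map π = ⊤ :=
    ((P.mapSurjective hπs).is_maximal' (hfin.to_subgroup ⊤) le_top).symm
  refine ⟨R, hRn, hRodd, P, ?_⟩
  rw [Set.eq_univ_iff_forall]
  intro g
  have h1 : π g ∈ (P : Subgroup G).map π := by rw [htop]; trivial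
  obtain ⟨p, hp, hpg⟩ := h1
  refine ⟨g * p⁻¹, ?_, p, hp, by simp⟩
  rw [SetLike.mem_coe, ← hker, MonoidHom.mem_ker, map_mul, map_inv, hpg, mul_inv_cancel]

end MP791b9a
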