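import Pool.Agent.Work.MP_791b9a_al.Defs

namespace MP791b9a

open Subgroup

variable {G : Type*} [Group G]

/-- An element of odd prime power order. -/
def OddEl (g : G) : Prop := ∃ q : ℕ, q.Prime ∧ q ≠ 2 ∧ ∃ a : ℕ, g ^ q ^ a = 1

theorem OddEl.map {G' : Type*} [Group G'] (f : G →* G') {g : G} (h : OddEl g) : OddEl (f g) := by
  obtain ⟨q, hq, hq2, a, ha⟩ := h
  exact ⟨q, hq, hq2, a, by rw [← map_pow, ha, map_one]⟩

theorem OddEl.of_map {G' : Type*} [Group G'] (f : G →* G') (hf : Function.Injective f) {g : G}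
    (h : OddEl (f g)) : OddEl g := by
  obtain ⟨q, hq, hq2, a, ha⟩ := h
  exact ⟨q, hq, hq2, a, hf (by rw [map_pow, ha, map_one])⟩

theorem OddEl.conj {g : G} (h : OddEl g) (x : G) : OddEl (x * g * x⁻¹) := by
  have := h.map (MulAut.conj x).toMonoidHom
  simpa using! this

theorem OddEl.inv {g : G} (h : OddEl g) : OddEl g⁻¹ := by
  obtain ⟨q, hq, hq2, a, ha⟩ := h
  exact ⟨q, hq, hq2, a, by rw [inv_pow, ha, inv_one]⟩

theorem OddEl.exists_odd {g : G} (h : OddEl g) : ∃ m : ℕ, Odd m ∧ g ^ m = 1 := by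
  obtain ⟨q, hq, hq2, a, ha⟩ := h
  exact ⟨q ^ a, (hq.odd_of_ne_two hq2).pow, ha⟩

theorem index_pow_two [Finite G] (X : Subgroup G) (h : ∀ g : G, OddEl g → g ∈ X) :
    ∃ a, X.index = 2 ^ a := by
  have hne : X.index ≠ 0 := Subgroup.index_ne_zero_of_finite
  refine ⟨X.index.primeFactorsList.length, ?_⟩
  have : ∀ q : ℕ, q.Prime → q ∣ X.index → q = 2 := by
    intro q hq hd
    by_contra hq2
    have : Fact q.Prime := ⟨hq⟩
    obtain ⟨Q⟩ : Nonempty (Sylow q G) := inferInstance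
    have hQ : (Q : Subgroup G) ≤ X := by
      intro x hx
      apply h
      obtain ⟨k, hk⟩ := Q.isPGroup' ⟨x, hx⟩
      exact ⟨q, hq, hq2, k, by simpa [Subtype.ext_iff] using hk⟩
    have h1 : X.index ∣ (Q : Subgroup G).index := Subgroup.index_dvd_of_le hQ
    exact Q.not_dvd_index (hd.trans h1)
  exact Nat.eq_prime_pow_of_unique_prime_dvd hne (fun {d} hd hdd => this d hd hdd)

theorem relIndex_pow_two [Finite G] (J B : Subgroup G) (h : ∀ g ∈ B, OddEl g → g ∈ J) :
    ∃ a, J.relIndex B = 2 ^ a := by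
  apply index_pow_two (J.subgroupOf B)
  intro g hg
  rw [Subgroup.mem_subgroupOf]
  exact h _ g.2 (hg.map B.subtype)

theorem trans_of_index_pow_two [Finite G] (P : Sylow 2 G) (J : Subgroup G) {a : ℕ}
    (hJ : J.index = 2 ^ a) (g : G) : ∃ p ∈ P, ∃ j ∈ J, g = p * j := by
  classical
  -- the orbit of `J` under `P`
  have h1 : J.relIndex P = J.index := by
    have hdvd : J.index ∣ J.relIndex P := by
      have e1 : (J ⊓ P).relIndex P * (P : Subgroup G).index = (J ⊓ P).index :=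
        Subgroup.relIndex_mul_index inf_le_right
      have e2 : (J ⊓ P).relIndex J * J.index = (J ⊓ P).index :=
        Subgroup.relIndex_mul_index inf_le_left
      rw [Subgroup.inf_relIndex_right] at e1
      have h3 : J.index ∣ J.relIndex P * (P : Subgroup G).index := by
        rw [e1, ← e2]; exact Dvd.intro_left _ rfl
      have hcop : Nat.Coprime J.index (P : Subgroup G).index := by
        rw [hJ]
        exact Nat.Coprime.pow_left _
          ((Nat.Prime.coprime_iff_not_dvd Nat.prime_two).2 P.not_dvd_index)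
      exact hcop.dvd_of_dvd_mul_right h3
    have hle : J.relIndex P ≤ J.index := by
      have := Subgroup.relIndex_le_of_le_right (H := J) (K := P) (L := ⊤) le_top
        (by rw [Subgroup.relIndex_top_right]; exact Subgroup.index_ne_zero_of_finite)
      simpa [Subgroup.relIndex_top_right] using this
    exact le_antisymm hle (Nat.le_of_dvd
      (Nat.pos_of_ne_zero (by
        rw [Subgroup.relIndex]; exact Subgroup.index_ne_zero_of_finite)) hdvd)
  have h2 : MulAction.orbit P ((1 : G) : G ⧸ J) = Set.univ := by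
    have hs : MulAction.stabilizer P ((1 : G) : G ⧸ J) = J.subgroupOf P := by
      ext x
      rw [MulAction.mem_stabilizer_iff, Subgroup.mem_subgroupOf]
      have : x • ((1 : G) : G ⧸ J) = (((x : G) * 1 : G) : G ⧸ J) := rfl
      rw [this, eq_comm, QuotientGroup.eq]
      simp
    have hc : (MulAction.orbit P ((1 : G) : G ⧸ J)).ncard = Nat.card (G ⧸ J) := by
      rw [← MulAction.index_stabilizer, hs]
      exact h1
    exact (Set.eq_univ_iff_ncard _).2 hc
  have h3 : ((g : G) : G ⧸ J) ∈ MulAction.orbit P ((1 : G) : G ⧸ J) := by rw [h2]; trivial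
  obtain ⟨p, hp⟩ := h3
  have hp' : (((p : G) * 1 : G) : G ⧸ J) = (g : G ⧸ J) := hp
  rw [QuotientGroup.eq] at hp'
  refine ⟨p, p.2, (p : G)⁻¹ * g, by simpa using hp', by group⟩

theorem eq_top_of_odd_of_sylow [Finite G] (P : Sylow 2 G) (X : Subgroup G)
    (h : ∀ g : G, OddEl g → g ∈ X) (hP : (P : Subgroup G) ≤ X) : X = ⊤ := by
  obtain ⟨a, ha⟩ := index_pow_two X h
  have h1 : X.index ∣ (P : Subgroup G).index := Subgroup.index_dvd_of_le hP
  rw [← Subgroup.index_eq_one]
  rcases Nat.eq_zero_or_pos a with h0 | h0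
  · rw [ha, h0]; rfl
  · exfalso
    apply P.not_dvd_index
    refine dvd_trans ?_ h1
    rw [ha]
    exact dvd_pow_self 2 h0.ne'

theorem pow_eq_one_of_two {g : G} {m a : ℕ} (hm : Odd m) (h1 : g ^ m = 1) (h2 : g ^ 2 ^ a = 1) :
    g = 1 := by
  have hc : Nat.Coprime m (2 ^ a) := Nat.Coprime.pow_right _ (Nat.coprime_two_right.2 hm)
  have := orderOf_dvd_of_pow_eq_one h1
  have h' := orderOf_dvd_of_pow_eq_one h2
  exact orderOf_eq_one_iff.1 (Nat.eq_one_of_dvd_coprimes hc this h')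

theorem OddEl.eq_one_of_mem {H : Subgroup G} (hH : IsPGroup 2 H) {g : G} (hg : g ∈ H)
    (h : OddEl g) : g = 1 := by
  obtain ⟨m, hm, hgm⟩ := h.exists_odd
  obtain ⟨a, ha⟩ := hH ⟨g, hg⟩
  exact pow_eq_one_of_two hm hgm (by simpa [Subtype.ext_iff] using ha)

/-- If `g x g⁻¹ = c x`, `g` commutes with `c`, `g` is odd and `c` is in a 2-group then `c = 1`. -/
theorem comm_eq_one {H : Subgroup G} (hH : IsPGroup 2 H) {g x c : G} (hc : c ∈ H)
    (hg : OddEl g) (hx : g * x * g⁻¹ = c * x) (hcg : g * c * g⁻¹ = c) : c = 1 := by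
  obtain ⟨m, hm, hgm⟩ := hg.exists_odd
  have key : ∀ j : ℕ, g ^ j * x * (g ^ j)⁻¹ = c ^ j * x := by
    intro j
    induction j with
    | zero => simp
    | succ j ih =>
      have hcg' : g * c ^ j * g⁻¹ = c ^ j := by
        have := congrArg (fun y => y ^ j) hcg
        simpa [conj_pow] using this
      calc g ^ (j+1) * x * (g ^ (j+1))⁻¹ = g * (g ^ j * x * (g ^ j)⁻¹) * g⁻¹ := by
            rw [pow_succ' g j]; group
        _ = g * (c ^ j * x) * g⁻¹ := by rw [ih]
        _ = (g * c ^ j * g⁻¹) * (g * x * g⁻¹) := by group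
        _ = c ^ j * (c * x) := by rw [hcg', hx]
        _ = c ^ (j+1) * x := by rw [pow_succ]; group
  have h1 : c ^ m = 1 := by
    have := key m
    rw [hgm] at this
    simpa using this.symm
  obtain ⟨a, ha⟩ := hH ⟨c, hc⟩
  exact pow_eq_one_of_two hm h1 (by simpa [Subtype.ext_iff] using ha)

theorem isPGroup_of_le {p : ℕ} {H K : Subgroup G} (h : H ≤ K) (hK : IsPGroup p K) :
    IsPGroup p H := by
  intro x
  obtain ⟨k, hk⟩ := hK ⟨x, h x.2⟩
  exact ⟨k, by simpa [Subtype.ext_iff] using hk⟩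

theorem card_two_pow [Finite G] {H : Subgroup G} (hH : IsPGroup 2 H) :
    ∃ a, Nat.card H = 2 ^ a := by
  have : Fact (Nat.Prime 2) := ⟨Nat.prime_two⟩
  exact (IsPGroup.iff_card).1 hH

/-- Subgroups of all intermediate orders exist in a 2-group. -/
theorem exists_between [Finite G] {A C : Subgroup G} (hC : IsPGroup 2 C) (hAC : A ≤ C) {j : ℕ}
    (h1 : Nat.card A ≤ 2 ^ j) (h2 : 2 ^ j ≤ Nat.card C) :
    ∃ H : Subgroup G, A ≤ H ∧ H ≤ C ∧ Nat.card H = 2 ^ j := by
  have : Fact (Nat.Prime 2) := ⟨Nat.prime_two⟩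
  obtain ⟨a, ha⟩ := card_two_pow (isPGroup_of_le hAC hC)
  obtain ⟨c, hc⟩ := card_two_pow hC
  rw [ha] at h1
  rw [hc] at h2
  have haj : a ≤ j := (Nat.pow_le_pow_iff_right (by norm_num)).1 h1
  have hjc : j ≤ c := (Nat.pow_le_pow_iff_right (by norm_num)).1 h2
  have hA' : Nat.card (A.subgroupOf C) = 2 ^ a := by
    rw [Nat.card_congr (Subgroup.subgroupOfEquivOfLe hAC).toEquiv, ha]
  obtain ⟨K, hK, hAK⟩ := Sylow.exists_subgroup_card_pow_prime_le 2 (n := a) (m := j)
    (by rw [hc]; exact pow_dvd_pow _ hjc) (A.subgroupOf C) hA' haj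
  refine ⟨K.map C.subtype, ?_, Subgroup.map_subtype_le K, ?_⟩
  · intro x hx
    exact ⟨⟨x, hAC hx⟩, hAK (by rw [Subgroup.mem_subgroupOf]; exact hx), rfl⟩
  · rw [Nat.card_congr (K.equivMapOfInjective C.subtype C.subtype_injective).symm.toEquiv, hK]

/-- `X` is invariant under conjugation by all elements of `N`. -/
def Inv (N X : Subgroup G) : Prop := ∀ n ∈ N, ∀ x ∈ X, n * x * n⁻¹ ∈ X

theorem Inv.iff {N X : Subgroup G} (h : Inv N X) {n : G} (hn : n ∈ N) (x : G) :
    n * x * n⁻¹ ∈ X ↔ x ∈ X := by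
  constructor
  · intro hx
    have := h n⁻¹ (N.inv_mem hn) _ hx
    simpa [mul_assoc] using this
  · exact h n hn x

theorem Inv.mono {N N' X : Subgroup G} (h : Inv N X) (hN : N' ≤ N) : Inv N' X :=
  fun n hn => h n (hN hn)

theorem Inv.normal {X : Subgroup G} (h : Inv (⊤ : Subgroup G) X) : X.Normal :=
  ⟨fun x hx n => h n trivial x hx⟩

theorem inv_of_normal (N X : Subgroup G) [X.Normal] : Inv N X :=
  fun n _ x hx => (inferInstance : X.Normal).conj_mem x hx n

theorem Inv.inf {N X Y : Subgroup G} (h : Inv N X) (h' : Inv N Y) : Inv N (X ⊓ Y) :=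
  fun n hn x hx => ⟨h n hn x hx.1, h' n hn x hx.2⟩

theorem Inv.closure {N : Subgroup G} {S : Set G} (h : ∀ n ∈ N, ∀ x ∈ S, n * x * n⁻¹ ∈ closure S) :
    Inv N (Subgroup.closure S) := by
  intro n hn x hx
  induction hx using Subgroup.closure_induction with
  | mem x hx => exact h n hn x hx
  | one => simp
  | mul x y _ _ hx hy =>
    have : n * (x * y) * n⁻¹ = (n * x * n⁻¹) * (n * y * n⁻¹) := by group
    rw [this]; exact mul_mem hx hy
  | inv x _ hx =>
    have : n * x⁻¹ * n⁻¹ = (n * x * n⁻¹)⁻¹ := by group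
    rw [this]; exact inv_mem hx

theorem inv_iff_map {N X : Subgroup G} :
    Inv N X ↔ ∀ n ∈ N, X.map (MulAut.conj n).toMonoidHom ≤ X := by
  constructor
  · rintro h n hn _ ⟨x, hx, rfl⟩
    exact h n hn x hx
  · intro h n hn x hx
    exact h n hn ⟨x, hx, rfl⟩

theorem Inv.sup {N X Y : Subgroup G} (h : Inv N X) (h' : Inv N Y) : Inv N (X ⊔ Y) := by
  rw [inv_iff_map] at *
  intro n hn
  rw [Subgroup.map_sup]
  exact sup_le_sup (h n hn) (h' n hn)

theorem mem_adjoin {W : Subgroup G} {x : G} (hW : ∀ w ∈ W, x * w * x⁻¹ ∈ W) (hx : x ^ 2 ∈ W)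
    (b : G) : b ∈ W ⊔ zpowers x ↔ b ∈ W ∨ b * x ∈ W := by
  have hW' : ∀ w ∈ W, x⁻¹ * w * x ∈ W := by
    intro w hw
    have h1 := W.mul_mem (W.mul_mem (W.inv_mem hx) (hW w hw)) hx
    have : (x ^ 2)⁻¹ * (x * w * x⁻¹) * x ^ 2 = x⁻¹ * w * x := by group
    rwa [this] at h1
  constructor
  · intro hb
    rw [Subgroup.sup_eq_closure] at hb
    induction hb using Subgroup.closure_induction with
    | mem y hy =>
      rcases hy with hy | hy
      · exact Or.inl hy
      · obtain ⟨k, rfl⟩ := Subgroup.mem_zpowers_iff.1 hy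
        rcases Int.even_or_odd k with ⟨m, hm⟩ | ⟨m, hm⟩
        · left
          have : x ^ k = (x ^ 2) ^ m := by
            rw [hm, ← zpow_natCast, ← zpow_mul]; congr 1; push_cast; ring
          rw [this]; exact W.zpow_mem hx m
        · right
          have : x ^ k * x = (x ^ 2) ^ (m + 1) := by
            rw [hm, ← zpow_natCast, ← zpow_mul, ← zpow_add_one]; congr 1; push_cast; ring
          rw [this]; exact W.zpow_mem hx _
    | one => exact Or.inl W.one_mem
    | mul y z _ _ hy hz =>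
      rcases hy with hy | hy <;> rcases hz with hz | hz
      · exact Or.inl (W.mul_mem hy hz)
      · right; rw [mul_assoc]; exact W.mul_mem hy hz
      · right
        have : y * z * x = (y * x) * (x⁻¹ * z * x) := by group
        rw [this]; exact W.mul_mem hy (hW' z hz)
      · left
        have : y * z = (y * x) * (x⁻¹ * (z * x) * x) * (x ^ 2)⁻¹ := by group
        rw [this]; exact W.mul_mem (W.mul_mem hy (hW' _ hz)) (W.inv_mem hx)
    | inv y _ hy =>
      rcases hy with hy | hy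
      · exact Or.inl (W.inv_mem hy)
      · right
        have : y⁻¹ * x = (x * (y * x)⁻¹ * x⁻¹) * x ^ 2 := by group
        rw [this]; exact W.mul_mem (hW _ (W.inv_mem hy)) hx
  · rintro (hb | hb)
    · exact (le_sup_left : W ≤ W ⊔ zpowers x) hb
    · have h1 := (le_sup_left : W ≤ W ⊔ zpowers x) hb
      have h2 : x ∈ W ⊔ zpowers x := (le_sup_right : zpowers x ≤ W ⊔ zpowers x) (mem_zpowers x)
      have : b = (b * x) * x⁻¹ := by group
      rw [this]; exact mul_mem h1 (inv_mem h2)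

theorem card_adjoin [Finite G] {W : Subgroup G} {x : G} (hW : ∀ w ∈ W, x * w * x⁻¹ ∈ W)
    (hx : x ^ 2 ∈ W) (hxW : x ∉ W) : Nat.card (W ⊔ zpowers x : Subgroup G) = 2 * Nat.card W := by
  have h1 : W.relIndex (W ⊔ zpowers x) = 2 := by
    rw [Subgroup.relIndex_eq_two_iff]
    refine ⟨x, (le_sup_right : zpowers x ≤ W ⊔ zpowers x) (mem_zpowers x), ?_⟩
    intro b hb
    rcases (mem_adjoin hW hx b).1 hb with h | h
    · right
      refine ⟨h, fun h' => hxW ?_⟩
      have := W.mul_mem (W.inv_mem h) h'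
      simpa using this
    · left
      refine ⟨h, fun h' => hxW ?_⟩
      have := W.mul_mem (W.inv_mem h') h
      simpa using this
  have h2 := Subgroup.card_mul_index (W.subgroupOf (W ⊔ zpowers x))
  rw [Nat.card_congr (Subgroup.subgroupOfEquivOfLe (le_sup_left : W ≤ W ⊔ zpowers x)).toEquiv] at h2
  have h3 : (W.subgroupOf (W ⊔ zpowers x)).index = 2 := h1
  rw [h3] at h2
  omega

/-- A nontrivial normal subgroup of a finite 2-group contains a central involution. -/
theorem exists_central_involution {Γ : Type*} [Group Γ] [Finite Γ] (hΓ : IsPGroup 2 Γ)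
    (K : Subgroup Γ) [K.Normal] (hK : K ≠ ⊥) :
    ∃ b ∈ K, b ≠ 1 ∧ b ^ 2 = 1 ∧ ∀ g : Γ, g * b * g⁻¹ = b := by
  classical
  have : Fact (Nat.Prime 2) := ⟨Nat.prime_two⟩
  have hc : IsPGroup 2 (ConjAct Γ) := hΓ.of_equiv ConjAct.toConjAct
  have hd : 2 ∣ Nat.card K := by
    obtain ⟨a, ha⟩ := card_two_pow (hΓ.to_subgroup K)
    rcases Nat.eq_zero_or_pos a with h0 | h0
    · exfalso; apply hK; apply (Subgroup.card_eq_one).1; rw [ha, h0]; rfl
    · rw [ha]; exact dvd_pow_self 2 h0.ne'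
  obtain ⟨b, hb, hb1⟩ := hc.exists_fixed_point_of_prime_dvd_card_of_fixed_point K hd
    (a := (1 : K)) (by intro g; exact smul_one g)
  have hbc : ∀ g : Γ, g * (b : Γ) * g⁻¹ = b := by
    intro g
    have := hb (ConjAct.toConjAct g)
    have h2 := congrArg (fun y : K => (y : Γ)) this
    simpa [ConjAct.Subgroup.val_conj_smul, ConjAct.smul_def] using h2
  have hbne : (b : Γ) ≠ 1 := fun h => hb1 (Subtype.ext h.symm)
  obtain ⟨s, hs⟩ := hΓ (b : Γ)
  -- minimal such exponent
  obtain ⟨s, hs, hmin⟩ : ∃ s, (b : Γ) ^ 2 ^ s = 1 ∧ ∀ t < s, (b : Γ) ^ 2 ^ t ≠ 1 := by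
    classical
    have hex : ∃ s : ℕ, (b : Γ) ^ 2 ^ s = 1 := ⟨s, hs⟩
    exact ⟨Nat.find hex, Nat.find_spec hex, fun t ht => Nat.find_min hex ht⟩
  have hs0 : s ≠ 0 := by rintro rfl; exact hbne (by simpa using hs)
  obtain ⟨t, rfl⟩ := Nat.exists_eq_succ_of_ne_zero hs0
  refine ⟨(b : Γ) ^ 2 ^ t, K.pow_mem b.2 _, hmin t (Nat.lt_succ_self t), ?_, ?_⟩
  · rw [← pow_mul, ← pow_succ]; exact hs
  · intro g
    rw [← conj_pow, hbc g]

/-- Fixed points: if `W < K ≤ P` are invariant under the 2-group `P` there is `x ∈ K \ W` with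
`x² ∈ W` whose coset modulo `W` is fixed by `P`. -/
theorem exists_fixed [Finite G] {P W K : Subgroup G} (hP : IsPGroup 2 P) (hKP : K ≤ P)
    (hW : Inv P W) (hK : Inv P K) (hWK : W < K) :
    ∃ x ∈ K, x ∉ W ∧ x ^ 2 ∈ W ∧ ∀ p ∈ P, p * x * p⁻¹ * x⁻¹ ∈ W := by
  have hWP : W ≤ P := hWK.le.trans hKP
  have i1 : (W.subgroupOf P).Normal :=
    ⟨fun w hw n => by rw [Subgroup.mem_subgroupOf] at *; exact hW n n.2 _ hw⟩
  have i2 : (K.subgroupOf P).Normal :=
    ⟨fun w hw n => by rw [Subgroup.mem_subgroupOf] at *; exact hK n n.2 _ hw⟩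
  have i3 : ((K.subgroupOf P).map (QuotientGroup.mk' (W.subgroupOf P))).Normal :=
    i2.map _ (QuotientGroup.mk'_surjective _)
  obtain ⟨b, hb, hb1, hb2, hbc⟩ := exists_central_involution (hP.to_quotient (W.subgroupOf P))
    ((K.subgroupOf P).map (QuotientGroup.mk' (W.subgroupOf P))) (by
      intro h
      obtain ⟨k, hk, hkW⟩ := Set.exists_of_ssubset hWK
      have h1 : QuotientGroup.mk' (W.subgroupOf P) ⟨k, hKP hk⟩ ∈
          (K.subgroupOf P).map (QuotientGroup.mk' (W.subgroupOf P)) :=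
        ⟨⟨k, hKP hk⟩, by simpa [Subgroup.mem_subgroupOf] using hk, rfl⟩
      rw [h, Subgroup.mem_bot] at h1
      have h2 := (QuotientGroup.eq_one_iff _).1 h1
      exact hkW (by simpa [Subgroup.mem_subgroupOf] using h2))
  obtain ⟨x, hx, rfl⟩ := hb
  refine ⟨x, by simpa [Subgroup.mem_subgroupOf] using hx, ?_, ?_, ?_⟩
  · intro h
    apply hb1
    rw [QuotientGroup.mk'_apply, QuotientGroup.eq_one_iff, Subgroup.mem_subgroupOf]
    exact h
  · rw [← map_pow, QuotientGroup.mk'_apply, QuotientGroup.eq_one_iff,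
      Subgroup.mem_subgroupOf] at hb2
    simpa using hb2
  · intro p hp
    have h1 := hbc (QuotientGroup.mk' (W.subgroupOf P) ⟨p, hp⟩)
    rw [← map_inv, ← map_mul, ← map_mul, ← mul_inv_eq_one, ← map_inv, ← map_mul,
      QuotientGroup.mk'_apply, QuotientGroup.eq_one_iff, Subgroup.mem_subgroupOf] at h1
    simpa using h1

/-- Invariant subgroups of all intermediate orders. -/
theorem exists_inv_between [Finite G] {P K : Subgroup G} (hP : IsPGroup 2 P) (hKP : K ≤ P)
    (hK : Inv P K) {j : ℕ} (h2 : 2 ^ j ≤ Nat.card K) :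
    ∀ (i : ℕ) (W : Subgroup G), Inv P W → W ≤ K → Nat.card W * 2 ^ i = 2 ^ j →
      ∃ H : Subgroup G, Inv P H ∧ W ≤ H ∧ H ≤ K ∧ Nat.card H = 2 ^ j := by
  intro i
  induction i with
  | zero =>
    intro W hW hWK hc
    exact ⟨W, hW, le_rfl, hWK, by simpa using hc⟩
  | succ i ih =>
    intro W hW hWK hc
    have hlt : W < K := by
      refine lt_of_le_of_ne hWK ?_
      rintro rfl
      have h3 : Nat.card W * 2 ^ (i + 1) ≤ Nat.card W := by rw [hc]; exact h2
      have h4 : 0 < Nat.card W := Nat.card_pos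
      have h5 : 2 ≤ 2 ^ (i + 1) := by
        calc 2 = 2 ^ 1 := rfl
          _ ≤ 2 ^ (i+1) := Nat.pow_le_pow_right (by norm_num) (by omega)
      nlinarith
    obtain ⟨x, hxK, hxW, hx2, hxp⟩ := exists_fixed hP hKP hW hK hlt
    have hxP : x ∈ P := hKP hxK
    have hcard := card_adjoin (W := W) (x := x) (fun w hw => hW x hxP w hw) hx2 hxW
    have hinv : Inv P (W ⊔ zpowers x) := by
      rw [inv_iff_map]
      intro p hp
      rw [Subgroup.map_sup]
      refine sup_le ((inv_iff_map.1 hW p hp).trans le_sup_left) ?_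
      rw [MonoidHom.map_zpowers, Subgroup.zpowers_le]
      have h1 : (MulAut.conj p).toMonoidHom x = (p * x * p⁻¹ * x⁻¹) * x := by
        simp
      rw [h1]
      exact mul_mem ((le_sup_left : W ≤ W ⊔ zpowers x) (hxp p hp))
        ((le_sup_right : zpowers x ≤ W ⊔ zpowers x) (mem_zpowers x))
    obtain ⟨H, hH1, hH2, hH3, hH4⟩ := ih (W ⊔ zpowers x) hinv
      (sup_le hWK ((Subgroup.zpowers_le).2 hxK)) (by rw [hcard]; rw [pow_succ] at hc; linarith)
    exact ⟨H, hH1, le_sup_left.trans hH2, hH3, hH4⟩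

theorem exists_inv_between' [Finite G] {P K W : Subgroup G} (hP : IsPGroup 2 P) (hKP : K ≤ P)
    (hK : Inv P K) {j : ℕ} (h2 : 2 ^ j ≤ Nat.card K) (hW : Inv P W) (hWK : W ≤ K)
    (h1 : Nat.card W ≤ 2 ^ j) :
      ∃ H : Subgroup G, Inv P H ∧ W ≤ H ∧ H ≤ K ∧ Nat.card H = 2 ^ j := by
  obtain ⟨a, ha⟩ := card_two_pow (isPGroup_of_le (hWK.trans hKP) hP)
  rw [ha] at h1
  have haj : a ≤ j := (Nat.pow_le_pow_iff_right (by norm_num)).1 h1
  exact exists_inv_between hP hKP hK h2 (j - a) W hW hWK (by rw [ha, ← pow_add]; congr 1; omega)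

/-- An invariant subgroup of index two containing a given proper invariant subgroup. -/
theorem exists_inv_index_two [Finite G] {P K W : Subgroup G} (hP : IsPGroup 2 P) (hKP : K ≤ P)
    (hK : Inv P K) (hW : Inv P W) (hWK : W < K) :
      ∃ H : Subgroup G, Inv P H ∧ W ≤ H ∧ H < K ∧ 2 * Nat.card H = Nat.card K := by
  obtain ⟨a, ha⟩ := card_two_pow (isPGroup_of_le (hWK.le.trans hKP) hP)
  obtain ⟨c, hc⟩ := card_two_pow (isPGroup_of_le hKP hP)
  have hac : a < c := by
    have h1 : Nat.card W < Nat.card K := by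
      refine lt_of_le_of_ne (Subgroup.card_le_of_le hWK.le) ?_
      intro h
      exact hWK.ne (Subgroup.eq_of_le_of_card_ge hWK.le h.ge)
    rw [ha, hc] at h1
    exact (Nat.pow_lt_pow_iff_right (by norm_num)).1 h1
  obtain ⟨H, h1, h2, h3, h4⟩ := exists_inv_between' (j := c - 1) hP hKP hK
    (by rw [hc]; exact Nat.pow_le_pow_right (by norm_num) (by omega)) hW hWK.le
    (by rw [ha]; exact Nat.pow_le_pow_right (by norm_num) (by omega))
  refine ⟨H, h1, h2, ?_, ?_⟩
  · refine lt_of_le_of_ne h3 ?_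
    rintro rfl
    rw [hc] at h4
    have := Nat.pow_right_injective (le_refl 2) h4
    omega
  · rw [h4, hc, ← pow_succ']; congr 1; omega

end MP791b9a
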