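import Pool.Agent.Work.MP_791b9a_al.Basic

namespace MP791b9a

open Subgroup Pointwise

variable {G : Type*} [Group G]

/-- The `G`-class of `D` is a `P`-class. -/
def Good (P D : Subgroup G) : Prop :=
  ∀ g : G, ∃ p ∈ P, ∃ j ∈ Subgroup.normalizer (D : Set G), g = p * j

theorem Good.inv {P U : Subgroup G} (h : Good P U) (hU : Inv P U) : U.Normal := by
  refine ⟨fun x hx g => ?_⟩
  obtain ⟨p, hp, j, hj, rfl⟩ := h g
  have h1 : j * x * j⁻¹ ∈ U := (Subgroup.mem_normalizer_iff.1 hj x).1 hx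
  have h2 := hU p hp _ h1
  have : p * j * x * (p * j)⁻¹ = p * (j * x * j⁻¹) * p⁻¹ := by group
  rw [this]; exact h2

theorem normalizer_le_inf_sup (D K L : Subgroup G) [K.Normal] [L.Normal] :
    Subgroup.normalizer (D : Set G) ≤ Subgroup.normalizer (((D ⊓ K) ⊔ L : Subgroup G) : Set G) := by
  intro j hj
  have hj1 : (D ⊓ K).map (MulAut.conj j).toMonoidHom = D ⊓ K := by
    have h1 : D.map (MulAut.conj j).toMonoidHom = D := Subgroup.mem_normalizer_iff_map_conj_eq.1 hj
    have h2 : K.map (MulAut.conj j).toMonoidHom = K :=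
      Subgroup.mem_normalizer_iff_map_conj_eq.1
        (by rw [Subgroup.normalizer_eq_top (H := K)]; trivial)
    rw [Subgroup.map_inf _ _ _ (MulAut.conj j).injective]
    rw [h1, h2]
  have hj2 : L.map (MulAut.conj j).toMonoidHom = L :=
      Subgroup.mem_normalizer_iff_map_conj_eq.1
        (by rw [Subgroup.normalizer_eq_top (H := L)]; trivial)
  apply Subgroup.mem_normalizer_iff_map_conj_eq.2
  rw [Subgroup.map_sup]
  exact congrArg₂ _ hj1 hj2

theorem Good.inf_sup {P D : Subgroup G} (h : Good P D) (K L : Subgroup G) [K.Normal] [L.Normal] :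
    Good P ((D ⊓ K) ⊔ L) := by
  intro g
  obtain ⟨p, hp, j, hj, rfl⟩ := h g
  exact ⟨p, hp, j, normalizer_le_inf_sup D K L hj, rfl⟩

theorem index_eq_relIndex_of_mul [Finite G] {B J : Subgroup G}
    (h : ∀ g : G, ∃ b ∈ B, ∃ j ∈ J, g = b * j) : J.index = J.relIndex B := by
  have hs : MulAction.stabilizer B ((1 : G) : G ⧸ J) = J.subgroupOf B := by
    ext x
    rw [MulAction.mem_stabilizer_iff, Subgroup.mem_subgroupOf]
    have : x • ((1 : G) : G ⧸ J) = (((x : G) * 1 : G) : G ⧸ J) := rfl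
    rw [this, eq_comm, QuotientGroup.eq]
    simp
  have hc : MulAction.orbit B ((1 : G) : G ⧸ J) = Set.univ := by
    rw [Set.eq_univ_iff_forall]
    intro x
    obtain ⟨g, rfl⟩ := QuotientGroup.mk_surjective x
    obtain ⟨b, hb, j, hj, rfl⟩ := h g
    refine ⟨⟨b, hb⟩, ?_⟩
    change ((b * 1 : G) : G ⧸ J) = _
    rw [QuotientGroup.eq]
    simpa using hj
  rw [Subgroup.relIndex, ← hs, MulAction.index_stabilizer, hc, Set.ncard_univ]
  rfl

/-- The key fact about a propermutable 2-subgroup `H` and a normal 2-subgroup `T`. -/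
theorem good_inf [Finite G] (P : Sylow 2 G) {H T : Subgroup G} (hH : IsPGroup 2 H)
    (hT : IsPGroup 2 T) [hTn : T.Normal] (hp : Propermutable H) :
    Good (P : Subgroup G) (H ⊓ T) := by
  obtain ⟨B, hB, hperm⟩ := hp
  set J : Subgroup G := Subgroup.normalizer ((H ⊓ T : Subgroup G) : Set G) with hJdef
  -- odd elements of `B` normalize `H ⊓ T`
  have h1 : ∀ b ∈ B, OddEl b → b ∈ J := by
    intro b hb hbo
    have key : ∀ b ∈ B, OddEl b → ∀ t ∈ H ⊓ T, b * t * b⁻¹ ∈ H ⊓ T := by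
      intro b hb hbo t ht
      have hbt : b * t * b⁻¹ ∈ T := hTn.conj_mem t ht.2 b
      have hset := hperm (zpowers b) ((Subgroup.zpowers_le).2 hb)
      -- `b * t ∈ ⟨b⟩ H = H ⟨b⟩`
      have h2 : b * t ∈ (zpowers b : Set G) * (H : Set G) :=
        ⟨b, mem_zpowers b, t, ht.1, rfl⟩
      rw [Permute] at hset
      rw [← hset] at h2
      obtain ⟨h, hh, z, hz, hhz⟩ := h2
      have hhz' : h * z = b * t := hhz
      -- `z * b⁻¹` lies in the 2-group `H ⊔ T` and is odd
      have hz' : z * b⁻¹ ∈ zpowers b := mul_mem hz (inv_mem (mem_zpowers b))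
      have hodd : OddEl (z * b⁻¹) := by
        obtain ⟨k, hk⟩ := Subgroup.mem_zpowers_iff.1 hz'
        obtain ⟨q, hq, hq2, a, ha⟩ := hbo
        refine ⟨q, hq, hq2, a, ?_⟩
        rw [← hk, ← zpow_natCast, ← zpow_mul, mul_comm, zpow_mul, zpow_natCast, ha, one_zpow]
      have hHT : IsPGroup 2 (H ⊔ T : Subgroup G) := IsPGroup.to_sup_of_normal_right hH hT
      have hmem : z * b⁻¹ ∈ H ⊔ T := by
        have : z * b⁻¹ = h⁻¹ * (b * t * b⁻¹) := by
          rw [← hhz']; group
        rw [this]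
        exact mul_mem ((le_sup_left : H ≤ H ⊔ T) (inv_mem hh))
          ((le_sup_right : T ≤ H ⊔ T) hbt)
      have h3 := hodd.eq_one_of_mem hHT hmem
      have h4 : b * t * b⁻¹ = h := by
        have : b * t * b⁻¹ = h * (z * b⁻¹) := by rw [← hhz']; group
        rw [this, h3, mul_one]
      exact ⟨by rw [h4]; exact hh, hbt⟩
    rw [hJdef, Subgroup.mem_normalizer_iff]
    intro t
    constructor
    · exact key b hb hbo t
    · intro ht
      have := key b⁻¹ (B.inv_mem hb) hbo.inv _ ht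
      simpa [mul_assoc] using this
  obtain ⟨a, ha⟩ := relIndex_pow_two J B h1
  -- `N_G(H) ≤ J`
  have h2 : Subgroup.normalizer (H : Set G) ≤ J := by
    intro j hj
    rw [hJdef, Subgroup.mem_normalizer_iff]
    intro t
    have e1 := Subgroup.mem_normalizer_iff.1 hj t
    have e2 : t ∈ T ↔ j * t * j⁻¹ ∈ T := ((inv_of_normal ⊤ T).iff trivial t).symm
    constructor
    · rintro ⟨x1, x2⟩; exact ⟨e1.1 x1, e2.1 x2⟩
    · rintro ⟨x1, x2⟩; exact ⟨e1.2 x1, e2.2 x2⟩
  -- index of `J` equals relative index in `B`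
  have h3 : J.index = J.relIndex B := by
    apply index_eq_relIndex_of_mul
    intro g
    have hg : g⁻¹ ∈ ((Subgroup.normalizer (H : Set G) : Subgroup G) : Set G) * (B : Set G) := by
      rw [hB]; trivial
    obtain ⟨n, hn, b, hb, hnb⟩ := hg
    have hnb' : n * b = g⁻¹ := hnb
    refine ⟨b⁻¹, B.inv_mem hb, n⁻¹, J.inv_mem (h2 hn), ?_⟩
    rw [← mul_inv_rev, hnb', inv_inv]
  intro g
  obtain ⟨p, hp, j, hj, hg⟩ := trans_of_index_pow_two P J (a := a) (h3.trans ha) g
  exact ⟨p, hp, j, hj, hg⟩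

theorem mul_mem_of_index_two [Finite G] {W K : Subgroup G} (hWK : W ≤ K)
    (hc : 2 * Nat.card W = Nat.card K) {a b : G} (ha : a ∈ K) (hb : b ∈ K) :
    a * b ∈ W ↔ (a ∈ W ↔ b ∈ W) := by
  have h2 := Subgroup.card_mul_index (W.subgroupOf K)
  rw [Nat.card_congr (Subgroup.subgroupOfEquivOfLe hWK).toEquiv] at h2
  have h3 : (W.subgroupOf K).index = 2 := by
    have : 0 < Nat.card W := Nat.card_pos
    nlinarith
  have := Subgroup.mul_mem_iff_of_index_two h3 (a := ⟨a, ha⟩) (b := ⟨b, hb⟩)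
  simpa [Subgroup.mem_subgroupOf] using this

/-- If the `G`-class of `U` is a `P`-class, `|U : L| = 2` and `K/L` is a chief factor, `U = K`. -/
theorem good_two [Finite G] {P L K U : Subgroup G} (hP : IsPGroup 2 P) (hKP : K ≤ P) [hL : L.Normal]
    [hK : K.Normal] (hchief : ∀ J : Subgroup G, J.Normal → L ≤ J → J ≤ K → J = L ∨ J = K)
    (hU : Good P U) (hLU : L ≤ U) (hUK : U ≤ K) (hc : Nat.card U = 2 * Nat.card L) : U = K := by
  have hne : L < U := by
    refine lt_of_le_of_ne hLU ?_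
    rintro rfl
    have : 0 < Nat.card L := Nat.card_pos
    omega
  have hLK : L < K := hne.trans_le hUK
  obtain ⟨W, hW1, hW2, hW3, hW4⟩ := exists_inv_index_two hP hKP (inv_of_normal P K)
    (inv_of_normal P L) hLK
  obtain ⟨u, hu, huL⟩ := Set.exists_of_ssubset hne
  have hmL : ∀ {a b : G}, a ∈ U → b ∈ U → (a * b ∈ L ↔ (a ∈ L ↔ b ∈ L)) := fun ha hb =>
    mul_mem_of_index_two hLU hc.symm ha hb
  have hmW : ∀ {a b : G}, a ∈ K → b ∈ K → (a * b ∈ W ↔ (a ∈ W ↔ b ∈ W)) := fun ha hb =>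
    mul_mem_of_index_two hW3.le hW4 ha hb
  have huK : u ∈ K := hUK hu
  have hLiff : ∀ (g x : G), g * x * g⁻¹ ∈ L ↔ x ∈ L := fun g x =>
    (inv_of_normal ⊤ L).iff trivial x
  -- claim 1
  have claim1 : ∀ g : G, g * u * g⁻¹ ∈ W ↔ u ∈ W := by
    intro g
    obtain ⟨p, hp, j, hj, rfl⟩ := hU g
    have e1 : j * u * j⁻¹ ∈ U := (Subgroup.mem_normalizer_iff.1 hj u).1 hu
    have e2 : p * j * u * (p * j)⁻¹ = p * (j * u * j⁻¹) * p⁻¹ := by group
    rw [e2, hW1.iff hp]
    -- `(j u j⁻¹) * u⁻¹ ∈ L`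
    have e3 : (j * u * j⁻¹) * u⁻¹ ∈ L := by
      rw [hmL e1 (U.inv_mem hu), hLiff, L.inv_mem_iff]
    have e4 := hW2 e3
    constructor
    · intro h
      have h5 := W.mul_mem (W.inv_mem e4) h
      have : (j * u * j⁻¹ * u⁻¹)⁻¹ * (j * u * j⁻¹) = u := by group
      rwa [this] at h5
    · intro h
      have h5 := W.mul_mem e4 h
      have : (j * u * j⁻¹ * u⁻¹) * u = j * u * j⁻¹ := by group
      rwa [this] at h5
  have huW : u ∉ W := by
    intro huW
    have hJ : Subgroup.normalClosure {u} ⊔ L ≤ W := by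
      refine sup_le ?_ hW2
      rw [Subgroup.normalClosure, Subgroup.closure_le]
      intro x hx
      obtain ⟨y, hy, hyx⟩ := Group.mem_conjugatesOfSet_iff.1 hx
      rw [Set.mem_singleton_iff] at hy
      subst hy
      obtain ⟨g, rfl⟩ := isConj_iff.1 hyx
      exact (claim1 g).2 huW
    rcases hchief (Subgroup.normalClosure {u} ⊔ L) inferInstance le_sup_right (hJ.trans hW3.le)
      with h | h
    · apply huL
      have : u ∈ Subgroup.normalClosure {u} ⊔ L :=
        (le_sup_left : Subgroup.normalClosure {u} ≤ _) (Subgroup.subset_normalClosure rfl)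
      rw [h] at this
      exact this
    · rw [h] at hJ
      exact absurd hW3 (not_lt_of_ge hJ)
  have hcore : W.normalCore = L := by
    rcases hchief W.normalCore inferInstance (Subgroup.normal_le_normalCore.2 hW2)
      ((Subgroup.normalCore_le W).trans hW3.le) with h | h
    · exact h
    · exfalso
      have := Subgroup.normalCore_le W
      rw [h] at this
      exact absurd hW3 (not_lt_of_ge this)
  have claim2 : ∀ g : G, g * u * g⁻¹ * u⁻¹ ∈ L := by
    intro g
    rw [← hcore]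
    show ∀ h : G, h * (g * u * g⁻¹ * u⁻¹) * h⁻¹ ∈ W
    intro h
    have e : h * (g * u * g⁻¹ * u⁻¹) * h⁻¹ = ((h * g) * u * (h * g)⁻¹) * (h * u * h⁻¹)⁻¹ := by
      group
    rw [e, hmW (hK.conj_mem u huK _) (K.inv_mem (hK.conj_mem u huK _)), W.inv_mem_iff, claim1,
      claim1]
  have hUn : U.Normal := by
    refine ⟨fun x hx g => ?_⟩
    by_cases hxL : x ∈ L
    · exact hLU (hL.conj_mem x hxL g)
    · -- `x * u ∈ L`
      have h1 : x * u ∈ L := by
        rw [hmL hx hu]; constructor <;> intro h <;> contradiction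
      have h2 : g * x * g⁻¹ = (g * (x * u) * g⁻¹) * ((g * u * g⁻¹ * u⁻¹) * u)⁻¹ := by group
      rw [h2]
      exact U.mul_mem (hLU (hL.conj_mem _ h1 g)) (U.inv_mem (U.mul_mem (hLU (claim2 g)) hu))
  rcases hchief U hUn hLU hUK with h | h
  · exact absurd h hne.ne'
  · exact h

end MP791b9a
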