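import Mathlib

/-!
# Definitions for MP_791b9a_al (propermutable subgroups and 2-nilpotency)
-/

namespace MP791b9a

open Pointwise

/-- Two subgroups `H`, `X` of a group permute: `HX = XH` as subsets of the group. -/
def Permute {G : Type*} [Group G] (H X : Subgroup G) : Prop :=
  (H : Set G) * (X : Set G) = (X : Set G) * (H : Set G)

/-- `H` is *propermutable* in `G`: some subgroup `B` satisfies `G = N_G(H) B`, and `H` permutes
with every subgroup of `B`. -/
def Propermutable {G : Type*} [Group G] (H : Subgroup G) : Prop :=
  ∃ B : Subgroup G,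
    ((Subgroup.normalizer (H : Set G) : Subgroup G) : Set G) * (B : Set G) = Set.univ ∧
    ∀ X : Subgroup G, X ≤ B → Permute H X

/-- A (finite) group `G` is *2-nilpotent*: it has a normal subgroup `N` of odd order such that
`G = N P` for a Sylow 2-subgroup `P`. -/
def TwoNilpotent (G : Type*) [Group G] : Prop :=
  ∃ N : Subgroup G, N.Normal ∧ Odd (Nat.card N) ∧
    ∃ P : Sylow 2 G, (N : Set G) * ((P : Subgroup G) : Set G) = Set.univ

end MP791b9a
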