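import Pool.Agent.Work.MP_791b9a_al.Chief

namespace MP791b9a

open Subgroup Pointwise
open scoped commutatorElement

variable {G : Type*} [Group G]

/-- The hypothesis of Frobenius' theorem (for `p = 2`). -/
def FrobHyp (G : Type*) [Group G] : Prop :=
  ∀ S : Subgroup G, IsPGroup 2 S → ∀ g : G, OddEl g → (∀ s ∈ S, g * s * g⁻¹ ∈ S) →
      ∀ s ∈ S, g * s = s * g

/-- Decomposition `n = c r` with `c` in a normal subgroup containing all odd elements. -/
theorem exists_mul_sylow [Finite G] (R : Sylow 2 G) (C : Subgroup G) [C.Normal]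
    (h : ∀ g : G, OddEl g → g ∈ C) (n : G) : ∃ c ∈ C, ∃ r ∈ R, n = c * r := by
  have h1 : C ⊔ (R : Subgroup G) = ⊤ :=
    eq_top_of_odd_of_sylow R _ (fun g hg => (le_sup_left : C ≤ _) (h g hg)) le_sup_right
  have h2 : n ∈ ((C ⊔ (R : Subgroup G) : Subgroup G) : Set G) := by rw [h1]; trivial
  rw [Subgroup.normal_mul] at h2
  obtain ⟨c, hc, r, hr, rfl⟩ := h2
  exact ⟨c, hc, r, hr, rfl⟩

/-- Elements normalizing `D` decompose as (centralizing `D`) times (element of a given Sylow of the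
normalizer). -/
theorem normalizer_decomp [Finite G] (h : FrobHyp G) {D : Subgroup G} (hD : IsPGroup 2 D)
    (R : Sylow 2 (Subgroup.normalizer (D : Set G) : Subgroup G))
    (n : (Subgroup.normalizer (D : Set G) : Subgroup G)) :
    ∃ c : (Subgroup.normalizer (D : Set G) : Subgroup G), (∀ d ∈ D, (c : G) * d = d * c) ∧
      ∃ r ∈ R, n = c * r := by
  obtain ⟨C, hC⟩ : ∃ C, C = (Subgroup.centralizer (D : Set G)).subgroupOf
    (Subgroup.normalizer (D : Set G) : Subgroup G) := ⟨_, rfl⟩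
  have hCn : C.Normal := by
    refine ⟨fun c hc g => ?_⟩
    rw [hC, Subgroup.mem_subgroupOf, Subgroup.mem_centralizer_iff] at hc ⊢
    intro d hd
    have h1 : (g : G)⁻¹ * d * g ∈ D := by
      have := (Subgroup.mem_normalizer_iff''.1 g.2 d).1 hd
      exact this
    have h2 := hc _ h1
    push_cast
    calc d * ((g : G) * c * (g : G)⁻¹) = g * (((g : G)⁻¹ * d * g) * c) * (g : G)⁻¹ := by group
      _ = g * (c * ((g : G)⁻¹ * d * g)) * (g : G)⁻¹ := by rw [h2]
      _ = (g : G) * c * (g : G)⁻¹ * d := by group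
  obtain ⟨c, hc, r, hr, hn⟩ := exists_mul_sylow R C (by
    intro g hg
    rw [hC, Subgroup.mem_subgroupOf, Subgroup.mem_centralizer_iff]
    intro d hd
    exact (h D hD (g : G) (hg.map (Subgroup.normalizer (D : Set G)).subtype)
      (fun s hs => (Subgroup.mem_normalizer_iff.1 g.2 s).1 hs) d hd).symm) n
  refine ⟨c, ?_, r, hr, hn⟩
  intro d hd
  rw [hC, Subgroup.mem_subgroupOf, Subgroup.mem_centralizer_iff] at hc
  exact (hc d hd).symm

/-- A subgroup of index two is normalized. -/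
theorem le_normalizer_of_card [Finite G] {D K : Subgroup G} (hDK : D ≤ K)
    (hc : 2 * Nat.card D = Nat.card K) : K ≤ Subgroup.normalizer (D : Set G) := by
  rw [Subgroup.le_normalizer_iff]
  intro k hk d hd
  rw [mul_mem_of_index_two hDK hc (K.mul_mem hk (hDK hd)) (K.inv_mem hk),
    mul_mem_of_index_two hDK hc hk (hDK hd), D.inv_mem_iff]
  exact ⟨fun h => h.2 hd, fun h => ⟨fun _ => hd, fun _ => h⟩⟩

/-- Sylow 2-subgroups are conjugate by an element centralizing the intersection. -/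
theorem sylow_conj_centralizing [Finite G] (h : FrobHyp G) : ∀ (m : ℕ) (S1 S2 : Sylow 2 G),
    Nat.card G < Nat.card ((S1 : Subgroup G) ⊓ S2 : Subgroup G) + m →
    ∃ c : G, (∀ d ∈ (S1 : Subgroup G) ⊓ S2, c * d = d * c) ∧ ∀ x, x ∈ S1 ↔ c * x * c⁻¹ ∈ S2 := by
  have : Fact (Nat.Prime 2) := ⟨Nat.prime_two⟩
  intro m
  induction m with
  | zero =>
    intro S1 S2 hlt
    exfalso
    have := Subgroup.card_le_card_group ((S1 : Subgroup G) ⊓ S2)
    omega
  | succ m ih =>
    intro S1 S2 hlt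
    set D : Subgroup G := (S1 : Subgroup G) ⊓ S2 with hD
    have hD1 : D ≤ S1 := inf_le_left
    have hD2 : D ≤ S2 := inf_le_right
    have hDp : IsPGroup 2 D := isPGroup_of_le hD1 S1.isPGroup'
    by_cases hle : (S1 : Subgroup G) ≤ S2
    · have heq : (S1 : Subgroup G) = S2 := (S1.is_maximal' S2.isPGroup' hle).symm
      refine ⟨1, by simp, fun x => ?_⟩
      have : x ∈ (S1 : Subgroup G) ↔ x ∈ (S2 : Subgroup G) := by rw [heq]
      rw [one_mul, inv_one, mul_one]
      exact this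
    have hcardS : Nat.card (S1 : Subgroup G) = Nat.card (S2 : Subgroup G) := by
      rw [Sylow.card_eq_multiplicity, Sylow.card_eq_multiplicity]
    -- subgroups `K1`, `K2`
    have hex : ∀ S : Sylow 2 G, D ≤ S → ¬ (S : Subgroup G) ≤ D →
        ∃ K : Subgroup G, D ≤ K ∧ K ≤ S ∧ Nat.card K = 2 * Nat.card D := by
      intro S hDS hnot
      obtain ⟨a, ha⟩ := card_two_pow hDp
      obtain ⟨c, hc⟩ := card_two_pow S.isPGroup'
      have hac : a < c := by
        have h1 : Nat.card D < Nat.card (S : Subgroup G) := by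
          refine lt_of_le_of_ne (Subgroup.card_le_of_le hDS) ?_
          intro h
          exact hnot (Subgroup.eq_of_le_of_card_ge hDS h.ge).ge
        rw [ha, hc] at h1
        exact (Nat.pow_lt_pow_iff_right (by norm_num)).1 h1
      obtain ⟨K, h1, h2, h3⟩ := exists_between (j := a + 1) S.isPGroup' hDS
        (by rw [ha]; exact Nat.pow_le_pow_right (by norm_num) (by omega))
        (by rw [hc]; exact Nat.pow_le_pow_right (by norm_num) (by omega))
      exact ⟨K, h1, h2, by rw [h3, ha, pow_succ']⟩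
    have hn1 : ¬ (S1 : Subgroup G) ≤ D := fun h => hle (h.trans hD2)
    have hn2 : ¬ (S2 : Subgroup G) ≤ D := by
      intro h
      have h1 : (S2 : Subgroup G) ≤ S1 := h.trans hD1
      exact hle (S2.is_maximal' S1.isPGroup' h1).le
    obtain ⟨K1, hK11, hK12, hK13⟩ := hex S1 hD1 hn1
    obtain ⟨K2, hK21, hK22, hK23⟩ := hex S2 hD2 hn2
    set N : Subgroup G := Subgroup.normalizer (D : Set G) with hN
    have hK1N : K1 ≤ N := le_normalizer_of_card hK11 hK13.symm
    have hK2N : K2 ≤ N := le_normalizer_of_card hK21 hK23.symm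
    have hK1p : IsPGroup 2 (K1.subgroupOf N) :=
      (isPGroup_of_le hK12 S1.isPGroup').of_equiv (Subgroup.subgroupOfEquivOfLe hK1N).symm
    have hK2p : IsPGroup 2 (K2.subgroupOf N) :=
      (isPGroup_of_le hK22 S2.isPGroup').of_equiv (Subgroup.subgroupOfEquivOfLe hK2N).symm
    obtain ⟨R1, hR1⟩ := hK1p.exists_le_sylow
    obtain ⟨R2, hR2⟩ := hK2p.exists_le_sylow
    obtain ⟨n, hn⟩ := MulAction.exists_smul_eq N R1 R2
    obtain ⟨c, hc, r, hr, hncr⟩ := normalizer_decomp h hDp R1 n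
    -- `R2 = c R1 c⁻¹`
    have hR12 : ∀ x : N, x ∈ R1 ↔ c * x * c⁻¹ ∈ R2 := by
      intro x
      have h1 : ∀ y : N, y ∈ R2 ↔ n⁻¹ * y * n ∈ R1 := by
        intro y
        rw [← hn]
        change y ∈ ((n • R1 : Sylow 2 N) : Subgroup N) ↔ _
        rw [Sylow.coe_subgroup_smul, Subgroup.mem_pointwise_smul_iff_inv_smul_mem]
        simp only [MulAut.smul_def, ← map_inv, MulAut.conj_apply, inv_inv]
        exact Iff.rfl
      rw [h1, hncr]
      have h2 : (c * r)⁻¹ * (c * x * c⁻¹) * (c * r) = r⁻¹ * x * r := by group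
      rw [h2]
      constructor
      · intro hx
        exact R1.mul_mem (R1.mul_mem (R1.inv_mem hr) hx) hr
      · intro hx
        have := R1.mul_mem (R1.mul_mem hr hx) (R1.inv_mem hr)
        have e : r * (r⁻¹ * x * r) * r⁻¹ = x := by group
        rwa [e] at this
    -- `S3 ⊇ R1`
    obtain ⟨S3, hS3⟩ := (R1.isPGroup'.map N.subtype).exists_le_sylow
    obtain ⟨S4, hS4⟩ : ∃ S4 : Sylow 2 G, ∀ x, x ∈ S4 ↔ (c : G)⁻¹ * x * c ∈ S3 := by
      refine ⟨(c : G) • S3, fun x => ?_⟩
      change x ∈ (((c : G) • S3 : Sylow 2 G) : Subgroup G) ↔ _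
      rw [Sylow.coe_subgroup_smul, Subgroup.mem_pointwise_smul_iff_inv_smul_mem]
      simp only [MulAut.smul_def, ← map_inv, MulAut.conj_apply, inv_inv]
      exact Iff.rfl
    have hK1S3 : K1 ≤ S3 := by
      intro x hx
      apply hS3
      exact ⟨⟨x, hK1N hx⟩, hR1 (by rw [Subgroup.mem_subgroupOf]; exact hx), rfl⟩
    have hK2S4 : K2 ≤ S4 := by
      intro x hx
      change x ∈ S4
      rw [hS4]
      apply hS3
      have hx2 : (⟨x, hK2N hx⟩ : N) ∈ R2 := hR2 (by rw [Subgroup.mem_subgroupOf]; exact hx)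
      refine ⟨c⁻¹ * ⟨x, hK2N hx⟩ * c, ?_, rfl⟩
      change _ ∈ R1
      rw [hR12]
      have e : c * (c⁻¹ * ⟨x, hK2N hx⟩ * c) * c⁻¹ = ⟨x, hK2N hx⟩ := by group
      rw [e]; exact hx2
    have hDpos : 0 < Nat.card D := Nat.card_pos
    obtain ⟨c1, hc11, hc12⟩ := ih S1 S3 (by
      have : Nat.card K1 ≤ Nat.card ((S1 : Subgroup G) ⊓ S3 : Subgroup G) :=
        Subgroup.card_le_of_le (le_inf hK12 hK1S3)
      omega)
    obtain ⟨c2, hc21, hc22⟩ := ih S4 S2 (by
      have : Nat.card K2 ≤ Nat.card ((S4 : Subgroup G) ⊓ S2 : Subgroup G) :=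
        Subgroup.card_le_of_le (le_inf hK2S4 hK22)
      omega)
    have hd1 : ∀ d ∈ D, c1 * d = d * c1 := fun d hd => hc11 d ⟨hD1 hd, hK1S3 (hK11 hd)⟩
    have hd2 : ∀ d ∈ D, c2 * d = d * c2 := fun d hd => hc21 d ⟨hK2S4 (hK21 hd), hD2 hd⟩
    refine ⟨c2 * c * c1, ?_, ?_⟩
    · intro d hd
      calc c2 * c * c1 * d = c2 * c * (c1 * d) := by group
        _ = c2 * (c * d) * c1 := by rw [hd1 d hd]; group
        _ = (c2 * d) * c * c1 := by rw [hc d hd]; group
        _ = d * (c2 * c * c1) := by rw [hd2 d hd]; group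
    · intro x
      rw [hc12 x]
      have e1 : c1 * x * c1⁻¹ ∈ S3 ↔ (c : G) * (c1 * x * c1⁻¹) * (c : G)⁻¹ ∈ S4 := by
        rw [hS4]
        have e : (c : G)⁻¹ * ((c : G) * (c1 * x * c1⁻¹) * (c : G)⁻¹) * c = c1 * x * c1⁻¹ := by
          group
        rw [e]
      rw [e1, hc22]
      have e : c2 * ((c : G) * (c1 * x * c1⁻¹) * (c : G)⁻¹) * c2⁻¹ =
          c2 * c * c1 * x * (c2 * c * c1)⁻¹ := by group
      rw [e]

/-- Control of fusion. -/
theorem fusion_control [Finite G] (h : FrobHyp G) (P : Sylow 2 G) {x g : G} (hx : x ∈ P)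
    (hgx : g * x * g⁻¹ ∈ P) : ∃ u ∈ P, g * x * g⁻¹ = u * x * u⁻¹ := by
  have : Fact (Nat.Prime 2) := ⟨Nat.prime_two⟩
  obtain ⟨S2, hS2⟩ : ∃ S2 : Sylow 2 G, ∀ y, y ∈ S2 ↔ g * y * g⁻¹ ∈ P := by
    refine ⟨g⁻¹ • P, fun y => ?_⟩
    change y ∈ (((g⁻¹ : G) • P : Sylow 2 G) : Subgroup G) ↔ _
    rw [Sylow.coe_subgroup_smul, Subgroup.mem_pointwise_smul_iff_inv_smul_mem]
    simp only [MulAut.smul_def, ← map_inv, MulAut.conj_apply, inv_inv]
    exact Iff.rfl
  obtain ⟨c, hc1, hc2⟩ := sylow_conj_centralizing h (Nat.card G + 1) P S2 (by omega)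
  have hxc : c * x = x * c := hc1 x ⟨hx, (hS2 x).2 hgx⟩
  set N : Subgroup G := Subgroup.normalizer ((P : Subgroup G) : Set G) with hN
  have hgc : g * c ∈ N := by
    rw [hN, Subgroup.mem_normalizer_iff]
    intro y
    have h1 := hc2 y
    rw [hS2] at h1
    have e : g * (c * y * c⁻¹) * g⁻¹ = g * c * y * (g * c)⁻¹ := by group
    rw [e] at h1
    exact h1
  have hPp : IsPGroup 2 ((P : Subgroup G).subgroupOf N) :=
    P.isPGroup'.of_equiv (Subgroup.subgroupOfEquivOfLe Subgroup.le_normalizer).symm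
  obtain ⟨R, hR⟩ := hPp.exists_le_sylow
  obtain ⟨c', hc', r, hr, hcr⟩ := normalizer_decomp h P.isPGroup' R ⟨g * c, hgc⟩
  have hrP : (r : G) ∈ P := by
    have h1 : IsPGroup 2 ((R : Subgroup N).map N.subtype) := R.isPGroup'.map _
    have h2 : (P : Subgroup G) ≤ (R : Subgroup N).map N.subtype := by
      intro y hy
      exact ⟨⟨y, Subgroup.le_normalizer hy⟩, hR (by rw [Subgroup.mem_subgroupOf]; exact hy), rfl⟩
    have h3 := P.is_maximal' h1 h2
    have h4 : (r : G) ∈ (R : Subgroup N).map N.subtype := ⟨r, hr, rfl⟩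
    rw [h3] at h4
    exact h4
  have hcr' : g * c = c' * r := congrArg Subtype.val hcr
  refine ⟨r, hrP, ?_⟩
  have hu : (r : G) * x * (r : G)⁻¹ ∈ P := P.mul_mem (P.mul_mem hrP hx) (P.inv_mem hrP)
  have h5 := hc' _ hu
  calc g * x * g⁻¹ = (g * c) * (c⁻¹ * x * c) * (g * c)⁻¹ := by group
    _ = (g * c) * x * (g * c)⁻¹ := by
        have : c⁻¹ * x * c = x := by rw [mul_assoc, ← hxc]; group
        rw [this]
    _ = (c' : G) * ((r : G) * x * (r : G)⁻¹) * (c' : G)⁻¹ := by rw [hcr']; group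
    _ = (r : G) * x * (r : G)⁻¹ := by rw [h5]; group

/-- The focal subgroup is the commutator subgroup of `P`, so there is a proper normal subgroup of
2-power index. -/
theorem exists_proper_normal [Finite G] (h : FrobHyp G) (heven : 2 ∣ Nat.card G) :
    ∃ M : Subgroup G, M.Normal ∧ M ≠ ⊤ ∧ ∃ a, M.index = 2 ^ a := by
  have : Fact (Nat.Prime 2) := ⟨Nat.prime_two⟩
  obtain ⟨P⟩ : Nonempty (Sylow 2 G) := inferInstance
  have hPnt : Nontrivial P := by
    rw [← Finite.one_lt_card_iff_nontrivial]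
    have h1 := P.dvd_card_of_dvd_card heven
    exact lt_of_lt_of_le one_lt_two (Nat.le_of_dvd Nat.card_pos h1)
  have hPsol : Group.IsSolvable P := by
    have := P.isPGroup'.isNilpotent
    infer_instance
  have hfoc : (P : Subgroup G).focalSubgroupOf ≤ _root_.commutator P := by
    rw [Subgroup.focalSubgroupOf_eq_closure, Subgroup.closure_le]
    rintro y ⟨x, hx, u, hyu⟩
    have h1 : (y : G) ∈ P := y.2
    have h2 : u * x⁻¹ * u⁻¹ ∈ P := by
      have h3 : u * x⁻¹ * u⁻¹ = x⁻¹ * y := by rw [hyu, commutatorElement_def]; group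
      rw [h3]
      exact P.mul_mem (P.inv_mem hx) h1
    obtain ⟨v, hv, hv2⟩ := fusion_control h P (P.inv_mem hx) h2
    have h4 : y = ⁅(⟨x, hx⟩ : P), (⟨v, hv⟩ : P)⁆ := by
      apply Subtype.ext
      rw [hyu]
      simp only [commutatorElement_def, Subgroup.coe_mul, Subgroup.coe_inv]
      calc x * u * x⁻¹ * u⁻¹ = x * (u * x⁻¹ * u⁻¹) := by group
        _ = x * (v * x⁻¹ * v⁻¹) := by rw [hv2]
        _ = x * v * x⁻¹ * v⁻¹ := by group
    rw [h4]
    exact Subgroup.commutator_mem_commutator (Subgroup.mem_top _) (Subgroup.mem_top _)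
  have hlt : (P : Subgroup G).focalSubgroupOf ≠ ⊤ := by
    intro htop
    rw [htop, top_le_iff] at hfoc
    exact (Group.IsSolvable.commutator_lt_top_of_nontrivial P).ne hfoc
  refine ⟨(P : Subgroup G).transferFocal.ker, inferInstance, ?_, ?_⟩
  · intro htop
    apply hlt
    rw [eq_top_iff]
    intro y _
    obtain ⟨g, hg⟩ := Subgroup.transferFocal_surjective P (QuotientGroup.mk' _ y)
    have h1 : g ∈ (P : Subgroup G).transferFocal.ker := by rw [htop]; trivial
    rw [MonoidHom.mem_ker] at h1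
    rw [h1] at hg
    exact (QuotientGroup.eq_one_iff y).1 hg.symm
  · rw [Subgroup.index_ker]
    have h1 : (P : Subgroup G).transferFocal.range = ⊤ :=
      MonoidHom.range_eq_top.2 (Subgroup.transferFocal_surjective P)
    rw [h1]
    have h2 : IsPGroup 2 (⊤ : Subgroup (P ⧸ (P : Subgroup G).focalSubgroupOf)) :=
      (P.isPGroup'.to_quotient _).to_subgroup _
    exact card_two_pow h2

theorem frobenius_aux.{u} : ∀ (n : ℕ) (G : Type u) [Group G] [Finite G], Nat.card G = n →
    FrobHyp G → ∃ N : Subgroup G, N.Normal ∧ Odd (Nat.card N) ∧ ∃ a : ℕ, N.index = 2 ^ a := by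
  intro n
  induction n using Nat.strong_induction_on with
  | _ n ih =>
    intro G _ _ hn h
    by_cases heven : 2 ∣ Nat.card G
    · obtain ⟨M, hM, hMtop, a, ha⟩ := exists_proper_normal h heven
      have hcard : Nat.card M < n := by
        rw [← hn]
        refine lt_of_le_of_ne (Subgroup.card_le_card_group M) ?_
        intro hc
        exact hMtop (Subgroup.eq_top_of_card_eq M hc)
      have hM' : FrobHyp M := by
        intro S hS g hg hgS s hs
        have h1 := h (S.map M.subtype) (hS.map _) (g : G) (hg.map M.subtype) (by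
          rintro _ ⟨t, ht, rfl⟩
          exact ⟨g * t * g⁻¹, hgS t ht, rfl⟩) (s : G) ⟨s, hs, rfl⟩
        exact Subtype.ext h1
      obtain ⟨K, hK, hKodd, b, hb⟩ := ih _ hcard M rfl hM'
      have hchar : ∀ x : M, x ∈ K ↔ ∃ m : ℕ, Odd m ∧ x ^ m = 1 := by
        intro x
        constructor
        · intro hx
          refine ⟨Nat.card K, hKodd, ?_⟩
          have h1 : (⟨x, hx⟩ : K) ^ Nat.card K = 1 := pow_card_eq_one'
          exact congrArg Subtype.val h1
        · rintro ⟨m, hm, hxm⟩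
          have h1 : (QuotientGroup.mk' K x) ^ m = 1 := by rw [← map_pow, hxm, map_one]
          have h2 : (QuotientGroup.mk' K x) ^ 2 ^ b = 1 := by
            have h3 : Nat.card (M ⧸ K) = 2 ^ b := by rw [← hb]; rfl
            rw [← h3]
            exact pow_card_eq_one'
          have h4 := pow_eq_one_of_two hm h1 h2
          exact (QuotientGroup.eq_one_iff x).1 h4
      refine ⟨K.map M.subtype, ?_, ?_, b + a, ?_⟩
      · refine ⟨?_⟩
        rintro _ ⟨x, hx, rfl⟩ g
        obtain ⟨m, hm, hxm⟩ := (hchar x).1 hx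
        have hmem : g * (x : G) * g⁻¹ ∈ M := hM.conj_mem _ x.2 g
        refine ⟨⟨g * (x : G) * g⁻¹, hmem⟩, ?_, rfl⟩
        change (⟨g * (x : G) * g⁻¹, hmem⟩ : M) ∈ K
        rw [hchar]
        refine ⟨m, hm, Subtype.ext ?_⟩
        have h5 : (x : G) ^ m = 1 := by
          have := congrArg Subtype.val hxm
          simpa using this
        change (g * (x : G) * g⁻¹) ^ m = 1
        rw [conj_pow, h5]; simp
      · have e : Nat.card (K.map M.subtype) = Nat.card K :=
          Nat.card_congr (K.equivMapOfInjective M.subtype M.subtype_injective).symm.toEquiv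
        rw [e]; exact hKodd
      · rw [Subgroup.index_map_subtype, hb, ha, pow_add]
    · refine ⟨⊤, inferInstance, ?_, 0, ?_⟩
      · rw [Subgroup.card_top, ← Nat.not_even_iff_odd, even_iff_two_dvd]
        exact heven
      · simp

/-- Frobenius' normal 2-complement theorem. -/
theorem frobenius_two {G : Type*} [Group G] [Finite G]
    (h : ∀ S : Subgroup G, IsPGroup 2 S → ∀ g : G, OddEl g → (∀ s ∈ S, g * s * g⁻¹ ∈ S) →
      ∀ s ∈ S, g * s = s * g) :
    ∃ N : Subgroup G, N.Normal ∧ Odd (Nat.card N) ∧ ∃ a : ℕ, N.index = 2 ^ a :=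
  frobenius_aux _ G rfl h

end MP791b9a
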