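import Pool.Agent.Work.MP_791b9a_al.Simple

namespace MP791b9a

open Subgroup Pointwise

variable {G : Type*} [Group G]

theorem exists_lift_pgroup {Γ Γ' : Type*} [Group Γ] [Finite Γ] [Group Γ'] {f : Γ →* Γ'}
    (hf : Function.Surjective f) {q : ℕ} [hq : Fact q.Prime] {Q : Subgroup Γ'}
    (hQ : IsPGroup q Q) : ∃ S : Subgroup Γ, IsPGroup q S ∧ S.map f = Q := by
  obtain ⟨P0⟩ : Nonempty (Sylow q (Q.comap f)) := inferInstance
  have hs := MonoidHom.subgroupComap_surjective_of_surjective f Q hf
  have htop : ((P0.mapSurjective hs : Sylow q Q) : Subgroup Q) = ⊤ :=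
    ((P0.mapSurjective hs).is_maximal' (hQ.to_subgroup ⊤) le_top).symm
  rw [Sylow.coe_mapSurjective] at htop
  refine ⟨(P0 : Subgroup (Q.comap f)).map (Q.comap f).subtype, P0.isPGroup'.map _, ?_⟩
  have h1 := congrArg (Subgroup.map Q.subtype) htop
  rw [Subgroup.map_map, ← MonoidHom.range_eq_map, Subgroup.range_subtype] at h1
  rw [Subgroup.map_map]
  exact h1

theorem cj_self {H : Subgroup G} {h : G} (hh : h ∈ H) : cj h H = H := by
  ext x
  rw [mem_cj]
  constructor
  · intro hx
    have := H.mul_mem (H.mul_mem hh hx) (H.inv_mem hh)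
    simpa [mul_assoc] using this
  · intro hx
    exact H.mul_mem (H.mul_mem (H.inv_mem hh) hx) hh

/-- K1: `H` permutes with all `q`-subgroups of `H ⊔ B`, `q` odd. -/
theorem permute_all [Finite G] {H B : Subgroup G} (hH : IsPGroup 2 H)
    (hperm : ∀ X : Subgroup G, X ≤ B → Permute H X) {q : ℕ} (hq : q.Prime) (hq2 : q ≠ 2)
    {Q : Subgroup G} (hQ : IsPGroup q Q) (hQM : Q ≤ H ⊔ B) : Permute H Q := by
  have : Fact q.Prime := ⟨hq⟩
  have hHB := hperm B le_rfl
  set M : Subgroup G := H ⊔ B with hM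
  have hidx : (B.subgroupOf M).index = (B.subgroupOf M).relIndex (H.subgroupOf M) := by
    apply index_eq_relIndex_of_mul
    intro g
    obtain ⟨h, hh, b, hb, hg⟩ := hHB.mem_sup g.2
    refine ⟨⟨h, (le_sup_left : H ≤ M) hh⟩, by rw [Subgroup.mem_subgroupOf]; exact hh,
      ⟨b, (le_sup_right : B ≤ M) hb⟩, by rw [Subgroup.mem_subgroupOf]; exact hb, Subtype.ext hg⟩
  have hnd : ¬ q ∣ Nat.card (M ⧸ B.subgroupOf M) := by
    intro hd
    have h1 : Nat.card (M ⧸ B.subgroupOf M) = (B.subgroupOf M).index := rfl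
    rw [h1, hidx] at hd
    have h2 := hd.trans (Subgroup.relIndex_dvd_card (B.subgroupOf M) (H.subgroupOf M))
    rw [Nat.card_congr (Subgroup.subgroupOfEquivOfLe (le_sup_left : H ≤ M)).toEquiv] at h2
    obtain ⟨a, ha⟩ := card_two_pow hH
    rw [ha] at h2
    exact hq2 ((Nat.prime_dvd_prime_iff_eq hq Nat.prime_two).1 (hq.dvd_of_dvd_pow h2))
  have hQ' : IsPGroup q (Q.subgroupOf M) :=
    hQ.of_equiv (Subgroup.subgroupOfEquivOfLe hQM).symm
  obtain ⟨x, hx⟩ := hQ'.nonempty_fixed_point_of_prime_not_dvd_card (M ⧸ B.subgroupOf M) hnd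
  obtain ⟨m, rfl⟩ := QuotientGroup.mk_surjective x
  obtain ⟨h, hh, b, hb, hg⟩ := hHB.mem_sup m.2
  have hle : cj h⁻¹ Q ≤ B := by
    intro y hy
    rw [mem_cj, inv_inv] at hy
    -- `z = h y h⁻¹ ∈ Q`
    have h1 := hx ⟨⟨h * y * h⁻¹, hQM hy⟩, by rw [Subgroup.mem_subgroupOf]; exact hy⟩
    have h2 : (((⟨h * y * h⁻¹, hQM hy⟩ : M) * m : M) : M ⧸ B.subgroupOf M) = (m : M ⧸ _) := h1
    rw [eq_comm, QuotientGroup.eq, Subgroup.mem_subgroupOf] at h2
    have h3 : (m : G)⁻¹ * ((h * y * h⁻¹) * m) ∈ B := h2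
    rw [hg] at h3
    have h4 : (h * b)⁻¹ * (h * y * h⁻¹ * (h * b)) = b⁻¹ * y * b := by group
    rw [h4] at h3
    have h5 := B.mul_mem (B.mul_mem hb h3) (B.inv_mem hb)
    have h6 : b * (b⁻¹ * y * b) * b⁻¹ = y := by group
    rwa [h6] at h5
  have h7 := (hperm _ hle).cj_left
  rwa [cj_self hh] at h7

/-- Normal Sylow subgroups of normal subgroups are normal. -/
theorem normal_sylow_map [Finite G] {N : Subgroup G} [N.Normal] {q : ℕ} [hq : Fact q.Prime]
    (S : Sylow q N) (hS : (S : Subgroup N).Normal) : ((S : Subgroup N).map N.subtype).Normal := by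
  have : (S : Subgroup N).Characteristic := S.characteristic_of_normal hS
  infer_instance

theorem ne_bot_of_dvd [Finite G] {N : Subgroup G} {q : ℕ} [hq : Fact q.Prime]
    (S : Sylow q N) (hd : q ∣ Nat.card N) : (S : Subgroup N).map N.subtype ≠ ⊥ := by
  intro h
  have h1 := S.dvd_card_of_dvd_card hd
  have h2 : Nat.card (S : Subgroup N) = Nat.card ((S : Subgroup N).map N.subtype) :=
    Nat.card_congr ((S : Subgroup N).equivMapOfInjective _ N.subtype_injective).toEquiv
  rw [h2, h, Subgroup.card_bot] at h1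
  exact hq.out.one_lt.ne' (Nat.dvd_one.1 h1)

theorem normalizes_of_normal_subgroupOf {N : Subgroup G} {S : Subgroup N}
    (h : ∀ x ∈ N, x ∈ Subgroup.normalizer ((S.map N.subtype : Subgroup G) : Set G)) :
    S.Normal := by
  refine ⟨fun s hs g => ?_⟩
  have h1 := (Subgroup.mem_normalizer_iff.1 (h g g.2) (s : G)).1 ⟨s, hs, rfl⟩
  obtain ⟨t, ht, hts⟩ := h1
  have : t = g * s * g⁻¹ := Subtype.ext hts
  rw [← this]; exact ht

/-- A nontrivial propermutable 2-subgroup forces a nontrivial normal `p`-subgroup. -/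
theorem exists_normal_pgroup {G : Type*} [Group G] [Finite G] (H : Subgroup G)
    (hH : IsPGroup 2 H) (hne : H ≠ ⊥) (hp : Propermutable H) :
    ∃ p : ℕ, p.Prime ∧ ∃ N : Subgroup G, N.Normal ∧ N ≠ ⊥ ∧ IsPGroup p N := by
  classical
  by_contra hcon
  have hNP : ∀ p : ℕ, p.Prime → ∀ N : Subgroup G, N.Normal → IsPGroup p N → N = ⊥ := by
    intro p hp N hN hNp
    by_contra h
    exact hcon ⟨p, hp, N, hN, h, hNp⟩
  -- no nontrivial abelian normal subgroup
  have hNA : ∀ N : Subgroup G, N.Normal → (∀ x ∈ N, ∀ y ∈ N, x * y = y * x) → N = ⊥ := by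
    intro N hN hab
    by_contra hb
    have h1 : Nat.card N ≠ 1 := fun h => hb ((Subgroup.card_eq_one).1 h)
    obtain ⟨q, hq, hqd⟩ := Nat.exists_prime_and_dvd h1
    have : Fact q.Prime := ⟨hq⟩
    obtain ⟨S⟩ : Nonempty (Sylow q N) := inferInstance
    have hSn : (S : Subgroup N).Normal := by
      refine ⟨fun s hs g => ?_⟩
      have : g * s * g⁻¹ = s := by
        rw [mul_inv_eq_iff_eq_mul]
        exact Subtype.ext (hab g g.2 s s.2)
      rw [this]; exact hs
    exact ne_bot_of_dvd S hqd (hNP q hq _ (normal_sylow_map S hSn) (S.isPGroup'.map _))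
  obtain ⟨B, hB, hperm⟩ := hp
  have hM : Subgroup.normalClosure (H : Set G) ≤ H ⊔ B := by
    rw [Subgroup.normalClosure, Subgroup.closure_le]
    intro x hx
    obtain ⟨h, hh, hhx⟩ := Group.mem_conjugatesOfSet_iff.1 hx
    obtain ⟨g, rfl⟩ := isConj_iff.1 hhx
    have hg : g⁻¹ ∈ ((Subgroup.normalizer (H : Set G) : Subgroup G) : Set G) * (B : Set G) := by
      rw [hB]; trivial
    obtain ⟨n, hn, b, hb, hnb⟩ := hg
    have hnb' : n * b = g⁻¹ := hnb
    have hg' : g = b⁻¹ * n⁻¹ := by rw [← mul_inv_rev, hnb', inv_inv]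
    have h1 : n⁻¹ * h * n ∈ H := (Subgroup.mem_normalizer_iff''.1 hn h).1 hh
    have e : g * h * g⁻¹ = b⁻¹ * (n⁻¹ * h * n) * b := by rw [hg']; group
    rw [SetLike.mem_coe, e]
    exact mul_mem (mul_mem (inv_mem ((le_sup_right : B ≤ H ⊔ B) hb))
      ((le_sup_left : H ≤ H ⊔ B) h1)) ((le_sup_right : B ≤ H ⊔ B) hb)
  -- minimal normal subgroup
  have hncne : Subgroup.normalClosure (H : Set G) ≠ ⊥ := by
    intro h
    apply hne
    rw [eq_bot_iff, ← h]
    exact Subgroup.subset_normalClosure
  obtain ⟨N, ⟨hNn, hNne, hNle⟩, hNmin⟩ := WellFounded.has_min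
    (wellFounded_lt : WellFounded ((· < ·) : Subgroup G → Subgroup G → Prop))
    {N : Subgroup G | N.Normal ∧ N ≠ ⊥ ∧ N ≤ Subgroup.normalClosure (H : Set G)}
    ⟨_, inferInstance, hncne, le_rfl⟩
  have hNn' : N.Normal := hNn
  have hmin : ∀ J : Subgroup G, J.Normal → J ≤ N → J = ⊥ ∨ J = N := by
    intro J hJ hJN
    by_cases hJb : J = ⊥
    · exact Or.inl hJb
    · right
      exact eq_of_le_of_not_lt hJN (hNmin J ⟨hJ, hJb, hJN.trans hNle⟩)
  have hNnab : ¬ ∀ x ∈ N, ∀ y ∈ N, x * y = y * x := fun h => hNne (hNA N hNn h)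
  have hperf : ⁅N, N⁆ = N := by
    rcases hmin ⁅N, N⁆ inferInstance (Subgroup.commutator_le_left N N) with h | h
    · exfalso
      apply hNnab
      intro x hx y hy
      have h1 := Subgroup.commutator_mem_commutator hx hy
      rw [h, Subgroup.mem_bot, commutatorElement_eq_one_iff_mul_comm] at h1
      exact h1
    · exact h
  set A : Subgroup G := H ⊓ N with hA
  have hAH : A ≤ H := inf_le_left
  have hAN : A ≤ N := inf_le_right
  have hpermH : ∀ q : ℕ, q.Prime → q ≠ 2 → ∀ Q : Subgroup G, Q ≤ N → IsPGroup q Q →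
      Permute H Q := fun q hq hq2 Q hQN hQ =>
    permute_all hH hperm hq hq2 hQ ((hQN.trans hNle).trans hM)
  have hpermA : ∀ q : ℕ, q.Prime → q ≠ 2 → ∀ Q : Subgroup G, Q ≤ N → IsPGroup q Q →
      Permute A Q := by
    intro q hq hq2 Q hQN hQ
    have h1 := (permute_iff H Q).1 (hpermH q hq hq2 Q hQN hQ)
    rw [permute_iff]
    intro a ha x hx
    obtain ⟨x', hx', h', hh', he⟩ := h1 a (hAH ha) x hx
    refine ⟨x', hx', h', ⟨hh', ?_⟩, he⟩
    have : h' = x'⁻¹ * (a * x) := by rw [he]; group
    rw [this]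
    exact N.mul_mem (N.inv_mem (hQN hx')) (N.mul_mem (hAN ha) (hQN hx))
  -- an odd prime divides `|N|`
  have hoddprime : ∃ q : ℕ, q.Prime ∧ q ≠ 2 ∧ q ∣ Nat.card N := by
    by_contra hno
    push Not at hno
    apply hNne
    apply hNP 2 Nat.prime_two N hNn
    refine IsPGroup.of_card (n := (Nat.card N).primeFactorsList.length) ?_
    apply Nat.eq_prime_pow_of_unique_prime_dvd Nat.card_pos.ne'
    intro d hd hdd
    by_contra hd2
    exact hno d hd hd2 hdd
  by_cases hAb : A = ⊥
  · -- `H` normalizes all `q`-subgroups of `N`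
    obtain ⟨q, hq, hq2, hqN⟩ := hoddprime
    have : Fact q.Prime := ⟨hq⟩
    have hnormQ : ∀ Q : Subgroup G, Q ≤ N → IsPGroup q Q → ∀ h ∈ H, cj h Q = Q := by
      intro Q hQN hQ h hh
      have h1 := (permute_iff H Q).1 (hpermH q hq hq2 Q hQN hQ)
      have hle : cj h Q ≤ Q := by
        intro y hy
        rw [mem_cj] at hy
        obtain ⟨x', hx', h', hh', he⟩ := h1 h hh _ hy
        have e1 : y = x' * (h' * h⁻¹) := by
          have : h * (h⁻¹ * y * h) = y * h := by group
          rw [this] at he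
          have : y = (y * h) * h⁻¹ := by group
          rw [this, he]; group
        have hyN : y ∈ N := by
          have := hNn.conj_mem _ (hQN hy) h
          have e : h * (h⁻¹ * y * h) * h⁻¹ = y := by group
          rwa [e] at this
        have h2 : h' * h⁻¹ ∈ A := by
          refine ⟨H.mul_mem hh' (H.inv_mem hh), ?_⟩
          have : h' * h⁻¹ = x'⁻¹ * y := by rw [e1]; group
          rw [this]
          exact N.mul_mem (N.inv_mem (hQN hx')) hyN
        rw [hAb, Subgroup.mem_bot] at h2
        rw [e1, h2, mul_one]; exact hx'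
      exact Subgroup.eq_of_le_of_card_ge hle
        (Nat.card_congr (Q.equivMapOfInjective _ (MulAut.conj h).injective).toEquiv).le
    -- the kernel
    let K : Subgroup G := N ⊓ ⨅ Q : {Q : Subgroup G // Q ≤ N ∧ IsPGroup q Q},
      Subgroup.normalizer ((Q : Subgroup G) : Set G)
    have hKmem : ∀ x : G, x ∈ K ↔ x ∈ N ∧ ∀ Q : Subgroup G, Q ≤ N → IsPGroup q Q → cj x Q = Q := by
      intro x
      constructor
      · rintro ⟨h1, h2⟩
        refine ⟨h1, fun Q hQ1 hQ2 => ?_⟩
        have := (Subgroup.mem_iInf.1 h2) ⟨Q, hQ1, hQ2⟩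
        exact Subgroup.mem_normalizer_iff_map_conj_eq.1 this
      · rintro ⟨h1, h2⟩
        refine ⟨h1, Subgroup.mem_iInf.2 ?_⟩
        rintro ⟨Q, hQ1, hQ2⟩
        exact Subgroup.mem_normalizer_iff_map_conj_eq.2 (h2 Q hQ1 hQ2)
    have hcjN : ∀ (x : G) (Q : Subgroup G), Q ≤ N → cj x Q ≤ N := by
      intro x Q hQ y hy
      rw [mem_cj] at hy
      have := hNn.conj_mem _ (hQ hy) x
      have e : x * (x⁻¹ * y * x) * x⁻¹ = y := by group
      rwa [e] at this
    have hKn : K.Normal := by
      refine ⟨fun x hx g => ?_⟩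
      rw [hKmem] at hx ⊢
      refine ⟨hNn.conj_mem x hx.1 g, fun Q hQ1 hQ2 => ?_⟩
      have h1 := hx.2 (cj g⁻¹ Q) (hcjN _ _ hQ1) (cj_pgroup hQ2 _)
      have h2 := congrArg (cj g) h1
      rw [cj_cj, cj_cj, cj_cj, mul_inv_cancel, cj_one] at h2
      exact h2
    rcases hmin K hKn inf_le_left with hK | hK
    · -- `H` centralizes `N`
      have hcent : ∀ h ∈ H, ∀ x ∈ N, x * h = h * x := by
        intro h hh x hx
        have hc : h⁻¹ * x⁻¹ * h * x ∈ K := by
          rw [hKmem]
          refine ⟨?_, fun Q hQ1 hQ2 => ?_⟩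
          · have := hNn.conj_mem _ (N.inv_mem hx) h⁻¹
            rw [inv_inv] at this
            exact N.mul_mem this hx
          · have e1 : cj (h⁻¹ * x⁻¹ * h * x) Q = cj h⁻¹ (cj x⁻¹ (cj h (cj x Q))) := by
              rw [cj_cj, cj_cj, cj_cj]
            rw [e1, hnormQ _ (hcjN x Q hQ1) (cj_pgroup hQ2 x) h hh, cj_cj x⁻¹, inv_mul_cancel,
              cj_one]
            exact hnormQ Q hQ1 hQ2 h⁻¹ (H.inv_mem hh)
        rw [hK, Subgroup.mem_bot] at hc
        calc x * h = x * h * 1 := by group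
          _ = x * h * (h⁻¹ * x⁻¹ * h * x) := by rw [hc]
          _ = h * x := by group
      have h1 : Subgroup.normalClosure (H : Set G) ≤ Subgroup.centralizer (N : Set G) := by
        apply Subgroup.normalClosure_le_normal
        intro h hh
        rw [SetLike.mem_coe, Subgroup.mem_centralizer_iff]
        intro x hx
        exact hcent h hh x hx
      apply hNnab
      intro x hx y hy
      have h2 := h1 (hNle hy)
      rw [Subgroup.mem_centralizer_iff] at h2
      exact h2 x hx
    · -- a Sylow subgroup of `N` is normal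
      obtain ⟨S⟩ : Nonempty (Sylow q N) := inferInstance
      have hSn : (S : Subgroup N).Normal := by
        apply normalizes_of_normal_subgroupOf
        intro x hx
        rw [← hK, hKmem] at hx
        exact Subgroup.mem_normalizer_iff_map_conj_eq.2
          (hx.2 _ (Subgroup.map_subtype_le _) (S.isPGroup'.map _))
      exact ne_bot_of_dvd S hqN (hNP q hq _ (normal_sylow_map S hSn) (S.isPGroup'.map _))
  · -- simple quotient
    have hncA : Subgroup.normalClosure (A : Set G) = N := by
      rcases hmin (Subgroup.normalClosure (A : Set G)) inferInstance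
        (Subgroup.normalClosure_le_normal hAN) with h | h
      · exfalso
        apply hAb
        rw [eq_bot_iff, ← h]
        exact Subgroup.subset_normalClosure
      · exact h
    have hNnt : Nontrivial N := (Subgroup.nontrivial_iff_ne_bot N).2 hNne
    obtain ⟨Y, ⟨hYn, hYtop⟩, hYmax⟩ := WellFounded.has_min
      (wellFounded_gt : WellFounded ((· > ·) : Subgroup N → Subgroup N → Prop))
      {Y : Subgroup N | Y.Normal ∧ Y ≠ ⊤} ⟨⊥, inferInstance, bot_ne_top⟩
    have hYn' : Y.Normal := hYn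
    set π := QuotientGroup.mk' Y with hπ
    have hπs : Function.Surjective π := QuotientGroup.mk'_surjective Y
    have hker : π.ker = Y := QuotientGroup.ker_mk' Y
    have hXnt : Nontrivial (N ⧸ Y) := by
      rw [← Finite.one_lt_card_iff_nontrivial]
      have h1 : Nat.card (N ⧸ Y) = Y.index := rfl
      rw [h1]
      exact Subgroup.one_lt_index_of_ne_top hYtop
    have hsimple : IsSimpleGroup (N ⧸ Y) := by
      refine { eq_bot_or_eq_top_of_normal := ?_ }
      intro J hJ
      by_cases hJt : J = ⊤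
      · exact Or.inr hJt
      · left
        have hJc : J.comap π ≠ ⊤ := by
          intro h
          apply hJt
          rw [← Subgroup.map_comap_eq_self_of_surjective hπs J, h]
          exact Subgroup.map_top_of_surjective π hπs
        have hYJ : Y ≤ J.comap π := by
          intro y hy
          rw [Subgroup.mem_comap]
          have : π y = 1 := by rw [← MonoidHom.mem_ker, hker]; exact hy
          rw [this]; exact J.one_mem
        have h1 : Y = J.comap π := by
          by_contra hne'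
          exact hYmax _ ⟨hJ.comap π, hJc⟩ (lt_of_le_of_ne hYJ hne')
        rw [← Subgroup.map_comap_eq_self_of_surjective hπs J, ← h1]
        rw [Subgroup.map_eq_bot_iff, hker]
    -- a conjugate of `A` not in `Y`
    obtain ⟨g, hg⟩ : ∃ g : G, ¬ cj g A ≤ Y.map N.subtype := by
      by_contra hall
      push Not at hall
      have h1 : Subgroup.normalClosure (A : Set G) ≤ Y.map N.subtype := by
        rw [Subgroup.normalClosure, Subgroup.closure_le]
        intro x hx
        obtain ⟨a, ha, hax⟩ := Group.mem_conjugatesOfSet_iff.1 hx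
        obtain ⟨g, rfl⟩ := isConj_iff.1 hax
        apply hall g
        rw [mem_cj]
        have e : g⁻¹ * (g * a * g⁻¹) * g = a := by group
        rw [e]; exact ha
      rw [hncA] at h1
      apply hYtop
      rw [eq_top_iff]
      intro x _
      obtain ⟨y, hy, hyx⟩ := h1 x.2
      have : y = x := Subtype.ext hyx
      rw [← this]; exact hy
    have hgAN : cj g A ≤ N := by
      intro y hy
      rw [mem_cj] at hy
      have := hNn.conj_mem _ (hAN hy) g
      have e : g * (g⁻¹ * y * g) * g⁻¹ = y := by group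
      rwa [e] at this
    set A' : Subgroup N := (cj g A).subgroupOf N with hA'
    have hA'p : IsPGroup 2 (A'.map π) := by
      apply IsPGroup.map
      exact (cj_pgroup (isPGroup_of_le hAH hH) g).of_equiv
        (Subgroup.subgroupOfEquivOfLe hgAN).symm
    have hA'ne : A'.map π ≠ ⊥ := by
      intro h
      rw [Subgroup.map_eq_bot_iff, hker] at h
      apply hg
      intro y hy
      exact ⟨⟨y, hgAN hy⟩, h (by rw [hA', Subgroup.mem_subgroupOf]; exact hy), rfl⟩
    have hnoodd : ∀ q : ℕ, q.Prime → q ≠ 2 → ¬ q ∣ Nat.card (N ⧸ Y) := by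
      intro q hq hq2 hqX
      have : Fact q.Prime := ⟨hq⟩
      refine simple_no_permute hq hq2 hqX hA'p hA'ne ?_
      intro Q hQ
      obtain ⟨S, hS, rfl⟩ := exists_lift_pgroup hπs hQ
      apply Permute.map
      have h1 : Permute (cj g A) (S.map N.subtype) := by
        apply Permute.cj_left
        apply hpermA q hq hq2 _ _ (cj_pgroup (hS.map _) _)
        intro y hy
        rw [mem_cj, inv_inv] at hy
        have h2 := Subgroup.map_subtype_le S hy
        have := hNn.conj_mem _ h2 g⁻¹
        have e : g⁻¹ * (g * y * g⁻¹) * g⁻¹⁻¹ = y := by group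
        rwa [e] at this
      rw [permute_iff] at h1 ⊢
      intro a ha x hx
      obtain ⟨_, ⟨x', hx', rfl⟩, a', ha', he⟩ := h1 a ha x ⟨x, hx, rfl⟩
      refine ⟨x', hx', ⟨a', hgAN ha'⟩, ha', Subtype.ext he⟩
    have hX2 : IsPGroup 2 (N ⧸ Y) := by
      refine IsPGroup.of_card (n := (Nat.card (N ⧸ Y)).primeFactorsList.length) ?_
      apply Nat.eq_prime_pow_of_unique_prime_dvd Nat.card_pos.ne'
      intro d hd hdd
      by_contra hd2
      exact hnoodd d hd hd2 hdd
    have : Fact (Nat.Prime 2) := ⟨Nat.prime_two⟩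
    have hsol : Group.IsSolvable (N ⧸ Y) := by
      have := hX2.isNilpotent
      infer_instance
    have h1 := (Group.IsSolvable.commutator_lt_top_of_nontrivial (N ⧸ Y)).ne
    apply h1
    have h2 : _root_.commutator N = ⊤ := by
      have h3 := Subgroup.map_subtype_commutator N
      rw [hperf] at h3
      rw [eq_top_iff]
      intro x _
      have h4 : (x : G) ∈ (_root_.commutator N).map N.subtype := by rw [h3]; exact x.2
      obtain ⟨y, hy, hyx⟩ := h4
      have : y = x := Subtype.ext hyx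
      rw [← this]; exact hy
    have h5 : (_root_.commutator N).map π = _root_.commutator (N ⧸ Y) := by
      rw [_root_.commutator_def, _root_.commutator_def, Subgroup.map_commutator,
        Subgroup.map_top_of_surjective π hπs]
    rw [← h5, h2]
    exact Subgroup.map_top_of_surjective π hπs

end MP791b9a
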