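import Pool.Agent.Work.MP_791b9a_al.Basic

namespace MP791b9a

open Subgroup

variable {G : Type*} [Group G]

/-- Structure of a lowest noncentral chief factor (with respect to a group `N` acting). -/
theorem exists_chief [Finite G] {N S : Subgroup G} (hS : IsPGroup 2 S) (hSN : S ≤ N)
    (hinv : Inv N S) (hnc : ∃ g ∈ N, OddEl g ∧ ∃ x ∈ S, g * x ≠ x * g) :
    ∃ L K : Subgroup G, Inv N L ∧ Inv N K ∧ L < K ∧ K ≤ S ∧
      (∀ J : Subgroup G, Inv N J → L ≤ J → J ≤ K → J = L ∨ J = K) ∧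
      (∀ x ∈ K, x ^ 4 = 1) ∧ (∀ x ∈ K, x ^ 2 ∈ L) ∧
      (∃ g ∈ N, OddEl g ∧ ∃ x ∈ K, g * x * g⁻¹ * x⁻¹ ∉ L) := by
  classical
  -- minimal noncentral
  obtain ⟨K, ⟨hK1, hK2, hK3⟩, hKmin⟩ := WellFounded.has_min
    (wellFounded_lt : WellFounded ((· < ·) : Subgroup G → Subgroup G → Prop))
    {K : Subgroup G | Inv N K ∧ K ≤ S ∧ ∃ g ∈ N, OddEl g ∧ ∃ x ∈ K, g * x ≠ x * g}
    ⟨S, hinv, le_rfl, hnc⟩
  have hKbot : K ≠ ⊥ := by
    rintro rfl
    obtain ⟨g, _, _, x, hx, hgx⟩ := hK3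
    rw [Subgroup.mem_bot] at hx
    subst hx
    simp at hgx
  have hK2grp : IsPGroup 2 K := isPGroup_of_le hK2 hS
  have hbotinv : Inv N (⊥ : Subgroup G) := by
    intro n _ x hx
    rw [Subgroup.mem_bot] at *
    subst hx; simp
  obtain ⟨L, ⟨hL1, hL2⟩, hLmax⟩ := WellFounded.has_min
    (wellFounded_gt : WellFounded ((· > ·) : Subgroup G → Subgroup G → Prop))
    {L : Subgroup G | Inv N L ∧ L < K} ⟨⊥, hbotinv, bot_lt_iff_ne_bot.2 hKbot⟩
  have hchief : ∀ J : Subgroup G, Inv N J → L ≤ J → J ≤ K → J = L ∨ J = K := by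
    intro J hJ hLJ hJK
    by_cases h : J = K
    · exact Or.inr h
    · left
      have h1 : J < K := lt_of_le_of_ne hJK h
      have h2 := hLmax J ⟨hJ, h1⟩
      exact (eq_of_le_of_not_lt hLJ h2).symm
  -- everything invariant below `K` is centralized
  have hcent : ∀ J : Subgroup G, Inv N J → J < K → ∀ g ∈ N, OddEl g → ∀ x ∈ J, g * x = x * g := by
    intro J hJ hJK g hg hgo x hx
    by_contra hne
    exact hKmin J ⟨hJ, hJK.le.trans hK2, g, hg, hgo, x, hx, hne⟩ hJK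
  have hLcent := hcent L hL1 hL2
  -- if all commutators lie in a centralized invariant subgroup then contradiction
  have hcontra : ∀ J : Subgroup G, Inv N J → J < K →
      (∀ g ∈ N, OddEl g → ∀ x ∈ K, g * x * g⁻¹ * x⁻¹ ∈ J) → False := by
    intro J hJ hJK hall
    obtain ⟨g, hg, hgo, x, hx, hgx⟩ := hK3
    apply hgx
    have h1 := hall g hg hgo x hx
    have h2 := hcent J hJ hJK g hg hgo _ h1
    have h3 := comm_eq_one hK2grp (g := g) (x := x) (c := g * x * g⁻¹ * x⁻¹) (hJK.le h1) hgo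
      (by group) (by rw [h2]; group)
    have h4 := mul_inv_eq_one.1 h3
    have h5 : g * x * g⁻¹ * g = x * g := by rw [h4]
    simpa [mul_assoc] using h5
  -- `K` is generated by commutators
  set C : Set G := {y | ∃ g ∈ N, OddEl g ∧ ∃ x ∈ K, y = g * x * g⁻¹ * x⁻¹} with hC
  have hCK : Subgroup.closure C ≤ K := by
    rw [Subgroup.closure_le]
    rintro y ⟨g, hg, _, x, hx, rfl⟩
    exact K.mul_mem (hK1 g hg x hx) (K.inv_mem hx)
  have hCinv : Inv N (Subgroup.closure C) := by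
    apply Inv.closure
    rintro n hn y ⟨g, hg, hgo, x, hx, rfl⟩
    apply Subgroup.subset_closure
    refine ⟨n * g * n⁻¹, N.mul_mem (N.mul_mem hn hg) (N.inv_mem hn), hgo.conj n, n * x * n⁻¹,
      hK1 n hn x hx, by group⟩
  have hCeq : Subgroup.closure C = K := by
    by_contra hne
    exact hcontra _ hCinv (lt_of_le_of_ne hCK hne)
      (fun g hg hgo x hx => Subgroup.subset_closure ⟨g, hg, hgo, x, hx, rfl⟩)
  have hnonL : ∃ g ∈ N, OddEl g ∧ ∃ x ∈ K, g * x * g⁻¹ * x⁻¹ ∉ L := by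
    by_contra hall
    push Not at hall
    exact hcontra L hL1 hL2 hall
  -- squares
  have hLS : Inv S L := hL1.mono hSN
  have hKS : Inv S K := hK1.mono hSN
  obtain ⟨W, hW1, hW2, hW3, hW4⟩ := exists_inv_index_two hS hK2 hKS hLS hL2
  have hWsq : ∀ x ∈ K, x ^ 2 ∈ W := by
    intro x hx
    have h2 := Subgroup.card_mul_index (W.subgroupOf K)
    rw [Nat.card_congr (Subgroup.subgroupOfEquivOfLe hW3.le).toEquiv] at h2
    have h3 : (W.subgroupOf K).index = 2 := by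
      have : 0 < Nat.card W := Nat.card_pos
      nlinarith
    have := Subgroup.sq_mem_of_index_two h3 ⟨x, hx⟩
    simpa [Subgroup.mem_subgroupOf] using this
  have hsq : ∀ x ∈ K, x ^ 2 ∈ L := by
    have hF : Inv N (Subgroup.closure {y | ∃ x ∈ K, y = x ^ 2} ⊔ L) := by
      apply Inv.sup _ hL1
      apply Inv.closure
      rintro n hn y ⟨x, hx, rfl⟩
      apply Subgroup.subset_closure
      exact ⟨n * x * n⁻¹, hK1 n hn x hx, by rw [conj_pow]⟩
    have hFW : Subgroup.closure {y | ∃ x ∈ K, y = x ^ 2} ⊔ L ≤ W := by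
      refine sup_le ?_ hW2
      rw [Subgroup.closure_le]
      rintro y ⟨x, hx, rfl⟩
      exact hWsq x hx
    rcases hchief _ hF le_sup_right (hFW.trans hW3.le) with h | h
    · intro x hx
      have : x ^ 2 ∈ Subgroup.closure {y | ∃ x ∈ K, y = x ^ 2} ⊔ L :=
        (le_sup_left : Subgroup.closure _ ≤ _) (Subgroup.subset_closure ⟨x, hx, rfl⟩)
      rw [h] at this
      exact this
    · rw [h] at hFW
      exact absurd hW3 (not_lt_of_ge hFW)
  -- `L` central in `K`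
  have hLK : Inv K L := hL1.mono (hK2.trans hSN)
  have hcentral : ∀ l ∈ L, ∀ x ∈ K, x * l = l * x := by
    intro l hl
    have : K ≤ Subgroup.centralizer {l} := by
      rw [← hCeq, Subgroup.closure_le]
      rintro y ⟨g, hg, hgo, x, hx, rfl⟩
      rw [SetLike.mem_coe, Subgroup.mem_centralizer_singleton_iff]
      have h1 : x⁻¹ * l * x ∈ L := by
        have := hLK x⁻¹ (K.inv_mem hx) l hl
        simpa using this
      have h2 := hLcent g hg hgo _ h1
      have h3 := hLcent g hg hgo _ hl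
      -- `g x g⁻¹ x⁻¹ l = g x g⁻¹ (x⁻¹ l x) x⁻¹ = g x (x⁻¹ l x) g⁻¹ x⁻¹ = g l x g⁻¹ x⁻¹`
      have h2' : g⁻¹ * (x⁻¹ * l * x) = (x⁻¹ * l * x) * g⁻¹ := by
        rw [inv_mul_eq_iff_eq_mul, ← mul_assoc g, h2, mul_inv_cancel_right]
      calc g * x * g⁻¹ * x⁻¹ * l = g * x * (g⁻¹ * (x⁻¹ * l * x)) * x⁻¹ := by group
        _ = g * x * ((x⁻¹ * l * x) * g⁻¹) * x⁻¹ := by rw [h2']
        _ = (g * l) * x * g⁻¹ * x⁻¹ := by group
        _ = (l * g) * x * g⁻¹ * x⁻¹ := by rw [h3]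
        _ = l * (g * x * g⁻¹ * x⁻¹) := by group
    intro x hx
    exact Subgroup.mem_centralizer_singleton_iff.1 (this hx)
  -- fourth powers are multiplicative
  have hcomm : ∀ x ∈ K, ∀ y ∈ K, y⁻¹ * x⁻¹ * y * x ∈ L := by
    intro x hx y hy
    have h1 := hsq _ (K.inv_mem hy)
    have h2 := hsq _ (K.mul_mem hy (K.inv_mem hx))
    have h3 := hsq _ hx
    have : y⁻¹ * x⁻¹ * y * x = (y⁻¹) ^ 2 * (y * x⁻¹) ^ 2 * x ^ 2 := by
      simp only [pow_two]; group
    rw [this]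
    exact L.mul_mem (L.mul_mem h1 h2) h3
  have hpow4 : ∀ x ∈ K, ∀ y ∈ K, (x * y) ^ 4 = x ^ 4 * y ^ 4 := by
    intro x hx y hy
    set c := y⁻¹ * x⁻¹ * y * x with hc
    have hcL : c ∈ L := hcomm x hx y hy
    have hcx := hcentral c hcL x hx
    have hcy := hcentral c hcL y hy
    have hx2y := hcentral _ (hsq x hx) y hy
    have hy2x := hcentral _ (hsq y hy) x hx
    have e1 : x⁻¹ * y * x = y * c := by rw [hc]; group
    have e2 : (x * y) ^ 2 = x ^ 2 * y ^ 2 * c := by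
      calc (x * y) ^ 2 = x ^ 2 * (x⁻¹ * y * x) * y := by simp only [pow_two]; group
        _ = x ^ 2 * (y * c) * y := by rw [e1]
        _ = x ^ 2 * y * (c * y) := by group
        _ = x ^ 2 * y * (y * c) := by rw [hcy]
        _ = x ^ 2 * y ^ 2 * c := by simp only [pow_two]; group
    have e3 : c ^ 2 = 1 := by
      have h1 : (y * c) ^ 2 = y ^ 2 := by
        rw [← e1]
        calc (x⁻¹ * y * x) ^ 2 = x⁻¹ * (y ^ 2 * x) := by simp only [pow_two]; group
          _ = x⁻¹ * (x * y ^ 2) := by rw [hy2x]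
          _ = y ^ 2 := by group
      have h2 : (y * c) ^ 2 = y ^ 2 * c ^ 2 := by
        calc (y * c) ^ 2 = y * (c * y) * c := by simp only [pow_two]; group
          _ = y * (y * c) * c := by rw [hcy]
          _ = y ^ 2 * c ^ 2 := by simp only [pow_two]; group
      rw [h2] at h1
      exact mul_eq_left.1 h1
    have hc2 : ∀ z ∈ K, z * c = c * z := fun z hz => hcentral c hcL z hz
    have hX : ∀ z ∈ K, z * x ^ 2 = x ^ 2 * z := fun z hz => hcentral _ (hsq x hx) z hz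
    have hY : ∀ z ∈ K, z * y ^ 2 = y ^ 2 * z := fun z hz => hcentral _ (hsq y hy) z hz
    have hxyK : x ^ 2 * y ^ 2 ∈ K := K.mul_mem (K.pow_mem hx 2) (K.pow_mem hy 2)
    calc (x * y) ^ 4 = ((x * y) ^ 2) ^ 2 := by rw [← pow_mul]
      _ = (x ^ 2 * y ^ 2 * c) ^ 2 := by rw [e2]
      _ = (x ^ 2 * y ^ 2) * (c * (x ^ 2 * y ^ 2)) * c := by simp only [pow_two]; group
      _ = (x ^ 2 * y ^ 2) * ((x ^ 2 * y ^ 2) * c) * c := by rw [hc2 _ hxyK]
      _ = x ^ 2 * (y ^ 2 * x ^ 2) * y ^ 2 * c ^ 2 := by simp only [pow_two]; group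
      _ = x ^ 2 * (x ^ 2 * y ^ 2) * y ^ 2 * c ^ 2 := by rw [hX _ (K.pow_mem hy 2)]
      _ = x ^ 4 * y ^ 4 * c ^ 2 := by
        rw [show (4 : ℕ) = 2 + 2 from rfl, pow_add x, pow_add y]; group
      _ = x ^ 4 * y ^ 4 := by rw [e3, mul_one]
  have hfour : ∀ x ∈ K, x ^ 4 = 1 := by
    intro x hx
    rw [← hCeq] at hx
    induction hx using Subgroup.closure_induction with
    | mem y hy =>
      obtain ⟨g, hg, hgo, x, hx, rfl⟩ := hy
      rw [hpow4 _ (hK1 g hg x hx) _ (K.inv_mem hx)]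
      have h1 : x ^ 4 ∈ L := by
        have := L.pow_mem (hsq x hx) 2
        rwa [← pow_mul] at this
      have h2 := hLcent g hg hgo _ h1
      rw [conj_pow, h2]
      group
    | one => simp
    | mul x y hx hy h1 h2 =>
      rw [hCeq] at hx hy
      rw [hpow4 x hx y hy, h1, h2, mul_one]
    | inv x _ h1 => rw [inv_pow, h1, inv_one]
  exact ⟨L, K, hL1, hK1, hL2, hK2, hchief, hfour, hsq, hnonL⟩

/-- If odd elements normalizing `S` centralize all elements of order dividing 4 of `S`, they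
centralize `S`. -/
theorem omega_lemma [Finite G] {N S : Subgroup G} (hS : IsPGroup 2 S) (hSN : S ≤ N)
    (hinv : Inv N S) (h : ∀ x ∈ S, x ^ 4 = 1 → ∀ g ∈ N, OddEl g → g * x = x * g) :
    ∀ g ∈ N, OddEl g → ∀ x ∈ S, g * x = x * g := by
  by_contra hcon
  push Not at hcon
  obtain ⟨L, K, _, hK, hLK, hKS, _, h4, _, g, hg, hgo, x, hx, hgx⟩ :=
    exists_chief hS hSN hinv hcon
  apply hgx
  rw [h x (hKS hx) (h4 x hx) g hg hgo]
  simp

end MP791b9a
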