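import Pool.Agent.Work.MP_791b9a_al.Chief
import Pool.Agent.Work.MP_791b9a_al.Low

namespace MP791b9a

open Subgroup Pointwise

variable {G : Type*} [Group G]

/-- All subgroups of order `2 ^ k` are propermutable. -/
def Hyp (G : Type*) [Group G] (k : ℕ) : Prop :=
  ∀ H : Subgroup G, Nat.card H = 2 ^ k → Propermutable H

theorem le_sylow_of_normal (P : Sylow 2 G) {T : Subgroup G} (hT : IsPGroup 2 T) [T.Normal] :
    T ≤ P := by
  have h := IsPGroup.to_sup_of_normal_right P.isPGroup' hT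
  have h2 := P.is_maximal' h le_sup_left
  rw [← h2]
  exact le_sup_right

theorem mem_sup_of_inv {A D : Subgroup G} (h : Inv A D) {a : G} (ha : a ∈ A ⊔ D) :
    ∃ y ∈ A, ∃ d ∈ D, a = y * d := by
  have h1 : A ≤ Subgroup.normalizer (D : Set G) := Subgroup.le_normalizer_iff.2 h
  have h2 : a ∈ ((A ⊔ D : Subgroup G) : Set G) := ha
  rw [Subgroup.coe_mul_of_left_le_normalizer_right A D h1] at h2
  obtain ⟨y, hy, d, hd, rfl⟩ := h2
  exact ⟨y, hy, d, hd, rfl⟩

theorem isPGroup_of_card {H : Subgroup G} {k : ℕ} (h : Nat.card H = 2 ^ k) : IsPGroup 2 H :=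
  IsPGroup.of_card h

theorem good_chief [Finite G] (P : Sylow 2 G) {k : ℕ} (hyp : Hyp G k) {T L K H : Subgroup G}
    (hT : IsPGroup 2 T) [T.Normal] [L.Normal] [K.Normal] (hKT : K ≤ T) (hH : Nat.card H = 2 ^ k) :
    Good (P : Subgroup G) ((H ⊓ K) ⊔ L) := by
  have h1 := (good_inf P (isPGroup_of_card hH) hT (hyp H hH)).inf_sup K L
  have h2 : H ⊓ T ⊓ K = H ⊓ K := by
    rw [inf_assoc, inf_eq_right.2 hKT]
  rwa [h2] at h1

theorem inv_adjoin {P L : Subgroup G} {x : G} (hL : Inv P L)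
    (hxP : ∀ p ∈ P, p * x * p⁻¹ * x⁻¹ ∈ L) : Inv P (L ⊔ zpowers x) := by
  rw [inv_iff_map]
  intro p hp
  rw [Subgroup.map_sup]
  refine sup_le ((inv_iff_map.1 hL p hp).trans le_sup_left) ?_
  rw [MonoidHom.map_zpowers, Subgroup.zpowers_le]
  have h1 : (MulAut.conj p).toMonoidHom x = (p * x * p⁻¹ * x⁻¹) * x := by
    simp
  rw [h1]
  exact mul_mem ((le_sup_left : L ≤ L ⊔ zpowers x) (hxP p hp))
    ((le_sup_right : zpowers x ≤ L ⊔ zpowers x) (mem_zpowers x))

/-- A noncentral chief factor `K/L` whose `P`-fixed coset has a representative of order at most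
`2 ^ k` satisfies `|K| ≤ 2 ^ k`. -/
theorem chief_small [Finite G] (P : Sylow 2 G) {k : ℕ} (hyp : Hyp G k) {T L K : Subgroup G}
    (hT : IsPGroup 2 T) [T.Normal] [hL : L.Normal] [hK : K.Normal] (hKT : K ≤ T) (hLK : L < K)
    (hchief : ∀ J : Subgroup G, J.Normal → L ≤ J → J ≤ K → J = L ∨ J = K)
    (hcard : Nat.card K ≠ 2 * Nat.card L) {x : G} (hxK : x ∈ K) (hxL : x ∉ L) (hx2 : x ^ 2 ∈ L)
    (hxP : ∀ p ∈ P, p * x * p⁻¹ * x⁻¹ ∈ L) (hord : orderOf x ≤ 2 ^ k) : Nat.card K ≤ 2 ^ k := by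
  by_contra hlt
  push Not at hlt
  have hKP : K ≤ P := hKT.trans (le_sylow_of_normal P hT)
  set D := L ⊔ zpowers x with hD
  have hDK : D ≤ K := sup_le hLK.le ((Subgroup.zpowers_le).2 hxK)
  have hDcard : Nat.card D = 2 * Nat.card L :=
    card_adjoin (fun w hw => hL.conj_mem w hw x) hx2 hxL
  have hDinv : Inv (P : Subgroup G) D := inv_adjoin (inv_of_normal _ L) hxP
  have hnot : ∀ J : Subgroup G, J.Normal → D ≤ J → J ≤ K → J = K := by
    intro J hJ hDJ hJK
    rcases hchief J hJ (le_sup_left.trans hDJ) hJK with h | h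
    · exfalso
      apply hxL
      rw [← h]
      exact hDJ ((le_sup_right : zpowers x ≤ D) (mem_zpowers x))
    · exact h
  rcases le_or_gt (2 ^ k) (Nat.card D) with hc | hc
  · -- `2 ^ k ≤ |D|`
    obtain ⟨H, hH1, hH2, hH3⟩ := exists_between (A := zpowers x) (C := D)
      (isPGroup_of_le (hDK.trans hKT) hT) le_sup_right (by rw [Nat.card_zpowers]; exact hord) hc
    have hg := good_chief P hyp hT hKT (L := L) (K := K) hH3
    have e1 : (H ⊓ K) ⊔ L = D := by
      rw [inf_eq_left.2 (hH2.trans hDK)]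
      apply le_antisymm
      · exact sup_le hH2 le_sup_left
      · exact sup_le le_sup_right (hH1.trans le_sup_left)
    rw [e1] at hg
    have := hnot D (hg.inv hDinv) le_rfl hDK
    rw [this] at hDcard
    exact hcard hDcard
  · obtain ⟨H, hH1, hH2, hH3, hH4⟩ := exists_inv_between' (j := k) P.isPGroup' hKP
      (inv_of_normal _ K) hlt.le hDinv hDK hc.le
    have hg := good_chief P hyp hT hKT (L := L) (K := K) hH4
    have e1 : (H ⊓ K) ⊔ L = H := by
      rw [inf_eq_left.2 hH3, sup_eq_left]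
      exact le_sup_left.trans hH2
    rw [e1] at hg
    have := hnot H (hg.inv hH1) hH2 hH3
    rw [this] at hH4
    omega

/-- If some odd element does not centralize the normal 2-subgroup `T` then all 2-elements have
order less than `2 ^ k`. -/
theorem no_large_order [Finite G] (P : Sylow 2 G) {k : ℕ} (hk : 2 ≤ k) (hyp : Hyp G k)
    {T : Subgroup G} (hT : IsPGroup 2 T) [hTn : T.Normal]
    (hnc : ∃ g : G, OddEl g ∧ ∃ x ∈ T, g * x ≠ x * g) : ∀ y ∈ P, orderOf y < 2 ^ k := by
  obtain ⟨g0, hg0, x0, hx0, hne0⟩ := hnc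
  obtain ⟨L, K, hLi, hKi, hLK, hKT, hchief', h4, hsq, g, _, hgo, x1, hx1, hgx⟩ :=
    exists_chief (N := ⊤) hT le_top (inv_of_normal ⊤ T) ⟨g0, trivial, hg0, x0, hx0, hne0⟩
  have hL : L.Normal := hLi.normal
  have hK : K.Normal := hKi.normal
  have hchief : ∀ J : Subgroup G, J.Normal → L ≤ J → J ≤ K → J = L ∨ J = K :=
    fun J hJ h1 h2 => hchief' J (inv_of_normal _ J) h1 h2
  have hTP : T ≤ P := le_sylow_of_normal P hT
  have hKP : K ≤ P := hKT.trans hTP
  have hcard : Nat.card K ≠ 2 * Nat.card L := by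
    intro hc
    apply hgx
    rw [mul_mem_of_index_two hLK.le hc.symm (hK.conj_mem x1 hx1 g) (K.inv_mem hx1), L.inv_mem_iff]
    exact (inv_of_normal ⊤ L).iff trivial x1
  obtain ⟨x, hxK, hxL, hx2, hxP⟩ := exists_fixed P.isPGroup' hKP (inv_of_normal _ L)
    (inv_of_normal _ K) hLK
  have hordx : orderOf x ≤ 2 ^ k := by
    calc orderOf x ≤ 4 := orderOf_le_of_pow_eq_one (by norm_num) (h4 x hxK)
      _ = 2 ^ 2 := by norm_num
      _ ≤ 2 ^ k := Nat.pow_le_pow_right (by norm_num) hk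
  have hKsmall := chief_small P hyp hT hKT hLK hchief hcard hxK hxL hx2 hxP hordx
  set D := L ⊔ zpowers x with hD
  have hDK : D ≤ K := sup_le hLK.le ((Subgroup.zpowers_le).2 hxK)
  have hDcard : Nat.card D = 2 * Nat.card L :=
    card_adjoin (fun w hw => hL.conj_mem w hw x) hx2 hxL
  have hDinv : Inv (P : Subgroup G) D := inv_adjoin (inv_of_normal _ L) hxP
  have hDneK : D ≠ K := by
    intro h; rw [h] at hDcard; exact hcard hDcard
  -- general principle
  have key : ∀ A U : Subgroup G, A ≤ P → 2 ^ k ≤ Nat.card A → A ⊓ K = U → L ≤ U →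
      Nat.card U = 2 * Nat.card L → False := by
    intro A U hAP hA hAU hLU hU
    have hUA : U ≤ A := by rw [← hAU]; exact inf_le_left
    have hUK : U ≤ K := by rw [← hAU]; exact inf_le_right
    have hUlt : Nat.card U ≤ 2 ^ k := (Subgroup.card_le_of_le hUK).trans hKsmall
    obtain ⟨H, hH1, hH2, hH3⟩ := exists_between (A := U) (C := A)
      (isPGroup_of_le hAP P.isPGroup') hUA hUlt hA
    have hg := good_chief P hyp hT hKT (L := L) (K := K) hH3
    have e1 : (H ⊓ K) ⊔ L = U := by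
      have : H ⊓ K = U := by
        apply le_antisymm
        · rw [← hAU]; exact inf_le_inf_right K hH2
        · exact le_inf hH1 hUK
      rw [this, sup_eq_left]
      exact hLU
    rw [e1] at hg
    have := good_two P.isPGroup' hKP hchief hg hLU hUK hU
    rw [this] at hU
    exact hcard hU
  intro y hy
  by_contra hlt
  push Not at hlt
  have hycard : 2 ^ k ≤ Nat.card (zpowers y) := by rw [Nat.card_zpowers]; exact hlt
  have hyP : zpowers y ≤ P := (Subgroup.zpowers_le).2 hy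
  by_cases hcase : zpowers y ⊓ K ≤ L
  · -- use `A = ⟨y⟩ ⊔ D`
    refine key (zpowers y ⊔ D) D (sup_le hyP (hDK.trans hKP))
      (hycard.trans (Subgroup.card_le_of_le le_sup_left)) ?_ le_sup_left hDcard
    apply le_antisymm
    · rintro a ⟨ha1, ha2⟩
      obtain ⟨z, hz, d, hd, rfl⟩ := mem_sup_of_inv (hDinv.mono hyP) ha1
      have hzK : z ∈ K := by
        have := K.mul_mem ha2 (K.inv_mem (hDK hd))
        simpa using this
      exact D.mul_mem ((le_sup_left : L ≤ D) (hcase ⟨hz, hzK⟩)) hd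
    · exact le_inf le_sup_right hDK
  · -- use `C = ⟨y⟩ ⊔ L`
    obtain ⟨z, hz⟩ : ∃ z, zpowers y ⊓ K = zpowers z := by
      have : IsCyclic (zpowers y ⊓ K : Subgroup G) := by
        have h1 : IsCyclic ((zpowers y ⊓ K).subgroupOf (zpowers y)) := inferInstance
        exact (Subgroup.subgroupOfEquivOfLe
          (inf_le_left : zpowers y ⊓ K ≤ zpowers y)).isCyclic.1 h1
      obtain ⟨⟨z, hz⟩, hgen⟩ := this.exists_generator
      refine ⟨z, le_antisymm ?_ ((Subgroup.zpowers_le).2 hz)⟩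
      intro w hw
      obtain ⟨n, hn⟩ := Subgroup.mem_zpowers_iff.1 (hgen ⟨w, hw⟩)
      exact ⟨n, by simpa [Subtype.ext_iff] using hn⟩
    have hzmem : z ∈ zpowers y ⊓ K := by rw [hz]; exact mem_zpowers z
    have hzL : z ∉ L := by
      intro h
      apply hcase
      rw [hz]
      exact (Subgroup.zpowers_le).2 h
    refine key (zpowers y ⊔ L) (L ⊔ zpowers z) (sup_le hyP (hLK.le.trans hKP))
      (hycard.trans (Subgroup.card_le_of_le le_sup_left)) ?_ le_sup_left
      (card_adjoin (fun w hw => hL.conj_mem w hw z) (hsq z hzmem.2) hzL)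
    apply le_antisymm
    · rintro a ⟨ha1, ha2⟩
      obtain ⟨w, hw, d, hd, rfl⟩ := mem_sup_of_inv (inv_of_normal _ L) ha1
      have hwK : w ∈ K := by
        have := K.mul_mem ha2 (K.inv_mem (hLK.le hd))
        simpa using this
      have hw' : w ∈ zpowers z := by rw [← hz]; exact ⟨hw, hwK⟩
      exact mul_mem ((le_sup_right : zpowers z ≤ L ⊔ zpowers z) hw')
        ((le_sup_left : L ≤ L ⊔ zpowers z) hd)
    · refine sup_le (le_inf le_sup_right hLK.le) ?_
      rw [← hz]
      exact inf_le_inf_right K le_sup_left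

end MP791b9a
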