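import Pool.Agent.Work.MP_791b9a_al.Frob

namespace MP791b9a

open Subgroup Pointwise

variable {G : Type*} [Group G]

/-- Elementwise form of permutability. -/
def PermE (H X : Subgroup G) : Prop := ∀ h ∈ H, ∀ x ∈ X, ∃ x' ∈ X, ∃ h' ∈ H, h * x = x' * h'

theorem permute_iff (H X : Subgroup G) : Permute H X ↔ PermE H X := by
  constructor
  · intro hp h hh x hx
    have h1 : h * x ∈ (H : Set G) * (X : Set G) := ⟨h, hh, x, hx, rfl⟩
    rw [hp] at h1
    obtain ⟨x', hx', h', hh', he⟩ := h1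
    exact ⟨x', hx', h', hh', he.symm⟩
  · intro hp
    apply Set.Subset.antisymm
    · rintro _ ⟨h, hh, x, hx, rfl⟩
      obtain ⟨x', hx', h', hh', he⟩ := hp h hh x hx
      exact ⟨x', hx', h', hh', he.symm⟩
    · rintro _ ⟨x, hx, h, hh, rfl⟩
      obtain ⟨x', hx', h', hh', he⟩ := hp h⁻¹ (H.inv_mem hh) x⁻¹ (X.inv_mem hx)
      refine ⟨h'⁻¹, H.inv_mem hh', x'⁻¹, X.inv_mem hx', ?_⟩
      change h'⁻¹ * x'⁻¹ = x * h
      rw [← mul_inv_rev, ← he]
      group

theorem Permute.symm {H X : Subgroup G} (h : Permute H X) : Permute X H := Eq.symm h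

theorem Permute.mem_sup {H X : Subgroup G} (h : Permute H X) {g : G} (hg : g ∈ H ⊔ X) :
    ∃ a ∈ H, ∃ x ∈ X, g = a * x := by
  have h' := (permute_iff H X).1 h
  have h'' := (permute_iff X H).1 h.symm
  let S : Subgroup G :=
    { carrier := {g | ∃ a ∈ H, ∃ x ∈ X, g = a * x}
      one_mem' := ⟨1, H.one_mem, 1, X.one_mem, by simp⟩
      mul_mem' := by
        rintro _ _ ⟨a, ha, x, hx, rfl⟩ ⟨b, hb, y, hy, rfl⟩
        obtain ⟨b', hb', x', hx', he⟩ := h'' x hx b hb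
        refine ⟨a * b', H.mul_mem ha hb', x' * y, X.mul_mem hx' hy, ?_⟩
        calc a * x * (b * y) = a * (x * b) * y := by group
          _ = a * b' * (x' * y) := by rw [he]; group
      inv_mem' := by
        rintro _ ⟨a, ha, x, hx, rfl⟩
        obtain ⟨b', hb', x', hx', he⟩ := h'' x⁻¹ (X.inv_mem hx) a⁻¹ (H.inv_mem ha)
        exact ⟨b', hb', x', hx', by rw [mul_inv_rev, he]⟩ }
  have hS : H ⊔ X ≤ S := by
    refine sup_le ?_ ?_
    · intro a ha
      exact ⟨a, ha, 1, X.one_mem, by simp⟩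
    · intro x hx
      exact ⟨1, H.one_mem, x, hx, by simp⟩
  exact hS hg

theorem Permute.sup_left {Y1 Y2 Q : Subgroup G} (h1 : Permute Y1 Q) (h2 : Permute Y2 Q) :
    Permute (Y1 ⊔ Y2) Q := by
  rw [permute_iff] at *
  intro y hy
  rw [Subgroup.sup_eq_closure] at hy
  induction hy using Subgroup.closure_induction'' with
  | mem y hy =>
    intro x hx
    rcases hy with hy | hy
    · obtain ⟨x', hx', y', hy', he⟩ := h1 y hy x hx
      exact ⟨x', hx', y', (le_sup_left : Y1 ≤ Y1 ⊔ Y2) hy', he⟩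
    · obtain ⟨x', hx', y', hy', he⟩ := h2 y hy x hx
      exact ⟨x', hx', y', (le_sup_right : Y2 ≤ Y1 ⊔ Y2) hy', he⟩
  | inv_mem y hy =>
    intro x hx
    rcases hy with hy | hy
    · obtain ⟨x', hx', y', hy', he⟩ := h1 y⁻¹ (Y1.inv_mem hy) x hx
      exact ⟨x', hx', y', (le_sup_left : Y1 ≤ Y1 ⊔ Y2) hy', he⟩
    · obtain ⟨x', hx', y', hy', he⟩ := h2 y⁻¹ (Y2.inv_mem hy) x hx
      exact ⟨x', hx', y', (le_sup_right : Y2 ≤ Y1 ⊔ Y2) hy', he⟩
  | one => intro x hx; exact ⟨x, hx, 1, one_mem _, by simp⟩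
  | mul a b _ _ ha hb =>
    intro x hx
    obtain ⟨x', hx', b', hb', he⟩ := hb x hx
    obtain ⟨x'', hx'', a', ha', he'⟩ := ha x' hx'
    refine ⟨x'', hx'', a' * b', mul_mem ha' hb', ?_⟩
    calc a * b * x = a * (b * x) := by group
      _ = (a * x') * b' := by rw [he]; group
      _ = x'' * (a' * b') := by rw [he']; group

theorem Permute.map {G' : Type*} [Group G'] {H X : Subgroup G} (h : Permute H X) (f : G →* G') :
    Permute (H.map f) (X.map f) := by
  rw [permute_iff] at *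
  rintro _ ⟨a, ha, rfl⟩ _ ⟨x, hx, rfl⟩
  obtain ⟨x', hx', a', ha', he⟩ := h a ha x hx
  exact ⟨f x', ⟨x', hx', rfl⟩, f a', ⟨a', ha', rfl⟩, by rw [← map_mul, he, map_mul]⟩

/-- Conjugate subgroup. -/
def cj (g : G) (H : Subgroup G) : Subgroup G := H.map (MulAut.conj g).toMonoidHom

theorem mem_cj {g x : G} {H : Subgroup G} : x ∈ cj g H ↔ g⁻¹ * x * g ∈ H := by
  constructor
  · rintro ⟨y, hy, rfl⟩
    simpa [mul_assoc] using hy
  · intro h
    exact ⟨_, h, by simp [mul_assoc]⟩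

theorem cj_cj (a b : G) (H : Subgroup G) : cj a (cj b H) = cj (a * b) H := by
  ext x
  simp only [mem_cj, mul_inv_rev, mul_assoc]

theorem cj_one (H : Subgroup G) : cj 1 H = H := by
  ext x; simp [mem_cj]

theorem cj_pgroup {p : ℕ} {H : Subgroup G} (h : IsPGroup p H) (g : G) : IsPGroup p (cj g H) :=
  h.map _

theorem Permute.cj {H X : Subgroup G} (h : Permute H X) (g : G) :
    Permute (cj g H) (cj g X) := h.map _

theorem Permute.cj_left {H X : Subgroup G} {g : G} (h : Permute H (MP791b9a.cj g⁻¹ X)) :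
    Permute (MP791b9a.cj g H) X := by
  have := h.cj g
  rwa [cj_cj, mul_inv_cancel, cj_one] at this

theorem card_sup_of_permute [Finite G] {H X : Subgroup G} (h : Permute H X) (hd : Disjoint H X) :
    Nat.card (H ⊔ X : Subgroup G) = Nat.card H * Nat.card X := by
  rw [← Nat.card_prod]
  symm
  apply Nat.card_congr
  refine Equiv.ofBijective (fun p : H × X => (⟨p.1 * p.2, mul_mem
    ((le_sup_left : H ≤ H ⊔ X) p.1.2) ((le_sup_right : X ≤ H ⊔ X) p.2.2)⟩ : (H ⊔ X : Subgroup G)))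
    ⟨?_, ?_⟩
  · intro p q hpq
    exact Subgroup.mul_injective_of_disjoint hd (congrArg Subtype.val hpq)
  · rintro ⟨g, hg⟩
    obtain ⟨a, ha, x, hx, rfl⟩ := h.mem_sup hg
    exact ⟨(⟨a, ha⟩, ⟨x, hx⟩), rfl⟩

end MP791b9a
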