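import Pool.Agent.Work.MP_791b9a_al.Perm

namespace MP791b9a

open Subgroup Pointwise

variable {G : Type*} [Group G]

theorem normalizer_inf_le {X : Type*} [Group X] [Finite X] {Y : Subgroup X} {b : X}
    (h : cj b Y ≤ Y) : b ∈ Subgroup.normalizer (Y : Set X) := by
  have hc : Nat.card (cj b Y) = Nat.card Y :=
    Nat.card_congr (Y.equivMapOfInjective _ (MulAut.conj b).injective).symm.toEquiv
  have he : cj b Y = Y := Subgroup.eq_of_le_of_card_ge h hc.ge
  rw [Subgroup.mem_normalizer_iff]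
  intro y
  constructor
  · intro hy
    rw [← he, mem_cj]
    simpa [mul_assoc] using hy
  · intro hy
    rw [← he, mem_cj] at hy
    simpa [mul_assoc] using hy

/-- A nontrivial 2-subgroup of a finite simple group cannot permute with all `q`-subgroups. -/
theorem simple_no_permute {X : Type*} [Group X] [Finite X] [IsSimpleGroup X] {q : ℕ}
    (hq : q.Prime) (hq2 : q ≠ 2) (hqX : q ∣ Nat.card X) {A : Subgroup X} (hA : IsPGroup 2 A)
    (hA1 : A ≠ ⊥) (hperm : ∀ Q : Subgroup X, IsPGroup q Q → Permute A Q) : False := by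
  classical
  have : Fact q.Prime := ⟨hq⟩
  have : Fact (Nat.Prime 2) := ⟨Nat.prime_two⟩
  have hAeven : 2 ∣ Nat.card X := by
    obtain ⟨a, ha⟩ := card_two_pow hA
    have ha0 : a ≠ 0 := by
      rintro rfl
      exact hA1 ((Subgroup.card_eq_one).1 (by rw [ha]; rfl))
    exact (ha ▸ dvd_pow_self 2 ha0 : 2 ∣ Nat.card A).trans (Subgroup.card_subgroup_dvd_card A)
  obtain ⟨Q0⟩ : Nonempty (Sylow q X) := inferInstance
  have hQ0p : IsPGroup q (Q0 : Subgroup X) := Q0.isPGroup'
  have hQ0ne : (Q0 : Subgroup X) ≠ ⊥ := by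
    intro h
    have h1 := Q0.dvd_card_of_dvd_card hqX
    have h2 : Nat.card (Q0 : Subgroup X) = 1 := (Subgroup.card_eq_one).2 h
    rw [h2] at h1
    exact hq.one_lt.ne' (Nat.dvd_one.1 h1)
  -- conjugation lemma
  have hconj : ∀ (Y Q : Subgroup X) (x : X), Permute Y (cj x Q) → Y ⊔ cj x Q = ⊤ → Y ⊔ Q = ⊤ := by
    intro Y Q x hp htop
    obtain ⟨y, hy, z, hz, he⟩ := hp.mem_sup (g := x⁻¹) (by rw [htop]; trivial)
    rw [mem_cj] at hz
    -- `x⁻¹ = y z`, `z = x q x⁻¹`
    set w := x⁻¹ * z * x with hw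
    have hx : x = y⁻¹ * w⁻¹ := by
      have h1 : z = x * w * x⁻¹ := by rw [hw]; group
      rw [h1] at he
      have h2 : (1 : X) = y * x * w := by
        have := congrArg (fun t => t * x) he
        simpa [mul_assoc] using this
      have h3 : y * x * w = 1 := h2.symm
      have h4 : y⁻¹ * (y * x * w) * w⁻¹ = x := by group
      rw [← h4, h3]; group
    rw [eq_top_iff, ← htop]
    refine sup_le le_sup_left ?_
    intro t ht
    rw [mem_cj] at ht
    have hyS : y ∈ Y ⊔ Q := (le_sup_left : Y ≤ Y ⊔ Q) hy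
    have hwS : w ∈ Y ⊔ Q := (le_sup_right : Q ≤ Y ⊔ Q) hz
    have hxS : x ∈ Y ⊔ Q := by rw [hx]; exact mul_mem (inv_mem hyS) (inv_mem hwS)
    have htS : x⁻¹ * t * x ∈ Y ⊔ Q := (le_sup_right : Q ≤ Y ⊔ Q) ht
    have : t = x * (x⁻¹ * t * x) * x⁻¹ := by group
    rw [this]
    exact mul_mem (mul_mem hxS htS) (inv_mem hxS)
  -- (i) `A ⊔ Q0 = ⊤`
  have hAQ : A ⊔ (Q0 : Subgroup X) = ⊤ := by
    by_contra hne
    obtain ⟨Y, ⟨hY1, hY2, hY3⟩, hYmax⟩ := WellFounded.has_min
      (wellFounded_gt : WellFounded ((· > ·) : Subgroup X → Subgroup X → Prop))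
      {Y : Subgroup X | A ≤ Y ∧ (∀ Q : Subgroup X, IsPGroup q Q → Permute Y Q) ∧
        Y ⊔ (Q0 : Subgroup X) ≠ ⊤} ⟨A, le_rfl, hperm, hne⟩
    have hnorm : ∀ x : X, cj x (Q0 : Subgroup X) ≤ Subgroup.normalizer (Y : Set X) := by
      intro x b hb
      apply normalizer_inf_le
      have hYb : ∀ Q : Subgroup X, IsPGroup q Q → Permute (cj b Y) Q := fun Q hQ =>
        (hY2 _ (cj_pgroup hQ b⁻¹)).cj_left
      have hY' : ∀ Q : Subgroup X, IsPGroup q Q → Permute (Y ⊔ cj b Y) Q := fun Q hQ =>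
        (hY2 Q hQ).sup_left (hYb Q hQ)
      have hpx : IsPGroup q (cj x (Q0 : Subgroup X)) := cj_pgroup hQ0p x
      have hYx : Y ⊔ cj x (Q0 : Subgroup X) ≠ ⊤ := fun h => hY3 (hconj Y _ x (hY2 _ hpx) h)
      have hle : (Y ⊔ cj b Y) ⊔ cj x (Q0 : Subgroup X) ≤ Y ⊔ cj x (Q0 : Subgroup X) := by
        refine sup_le (sup_le le_sup_left ?_) le_sup_right
        intro t ht
        rw [mem_cj] at ht
        have hbS : b ∈ Y ⊔ cj x (Q0 : Subgroup X) :=
          (le_sup_right : cj x (Q0 : Subgroup X) ≤ Y ⊔ cj x (Q0 : Subgroup X)) hb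
        have htS : b⁻¹ * t * b ∈ Y ⊔ cj x (Q0 : Subgroup X) :=
          (le_sup_left : Y ≤ Y ⊔ cj x (Q0 : Subgroup X)) ht
        have : t = b * (b⁻¹ * t * b) * b⁻¹ := by group
        rw [this]
        exact mul_mem (mul_mem hbS htS) (inv_mem hbS)
      have hY'0 : (Y ⊔ cj b Y) ⊔ (Q0 : Subgroup X) ≠ ⊤ := by
        intro h
        apply hYx
        rw [eq_top_iff]
        refine le_trans ?_ hle
        have h1 : (Q0 : Subgroup X) = cj x⁻¹ (cj x (Q0 : Subgroup X)) := by
          rw [cj_cj, inv_mul_cancel, cj_one]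
        rw [h1] at h
        exact (hconj _ _ x⁻¹ (hY' _ (cj_pgroup hpx _)) h).ge
      by_contra hnot
      apply hYmax (Y ⊔ cj b Y) ⟨hY1.trans le_sup_left, hY', hY'0⟩
      refine lt_of_le_of_ne le_sup_left ?_
      intro h
      apply hnot
      have h' : cj b Y ≤ Y ⊔ cj b Y := le_sup_right
      exact h'.trans h.ge
    have hYn : Y.Normal := by
      rw [← Subgroup.normalizer_eq_top_iff, eq_top_iff]
      have h1 : Subgroup.normalClosure ((Q0 : Subgroup X) : Set X) ≤
          Subgroup.normalizer (Y : Set X) := by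
        rw [Subgroup.normalClosure, Subgroup.closure_le]
        intro x hx
        obtain ⟨y, hy, hyx⟩ := Group.mem_conjugatesOfSet_iff.1 hx
        obtain ⟨g, rfl⟩ := isConj_iff.1 hyx
        refine hnorm g (mem_cj.2 ?_)
        have e : g⁻¹ * (g * y * g⁻¹) * g = y := by group
        rw [e]; exact hy
      have h2 : Subgroup.normalClosure ((Q0 : Subgroup X) : Set X) = ⊤ := by
        rcases (inferInstance :
          (Subgroup.normalClosure ((Q0 : Subgroup X) : Set X)).Normal).eq_bot_or_eq_top with h | h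
        · exfalso
          apply hQ0ne
          rw [eq_bot_iff, ← h]
          exact Subgroup.subset_normalClosure
        · exact h
      rw [← h2]; exact h1
    rcases hYn.eq_bot_or_eq_top with h | h
    · rw [h] at hY1
      exact hA1 (le_bot_iff.1 hY1)
    · exact hY3 (by rw [h]; exact top_sup_eq _)
  -- (ii) orders
  have hdis : ∀ Q : Subgroup X, IsPGroup q Q → Disjoint A Q := fun Q hQ =>
    IsPGroup.disjoint_of_ne 2 q (Ne.symm hq2) _ _ hA hQ
  have hcardX : Nat.card X = Nat.card A * Nat.card (Q0 : Subgroup X) := by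
    rw [← card_sup_of_permute (hperm _ hQ0p) (hdis _ hQ0p), hAQ, Subgroup.card_top]
  obtain ⟨m, hm⟩ := (IsPGroup.iff_card).1 hQ0p
  obtain ⟨s, hs⟩ := card_two_pow hA
  have hm0 : m ≠ 0 := by
    rintro rfl
    exact hQ0ne ((Subgroup.card_eq_one).1 (by rw [hm]; rfl))
  obtain ⟨Q', hQ'le, hQ'card⟩ : ∃ Q' ≤ (Q0 : Subgroup X), Nat.card Q' = q ^ (m - 1) := by
    obtain ⟨K, hK⟩ := Sylow.exists_subgroup_card_pow_prime (G := (Q0 : Subgroup X)) q
      (n := m - 1) (by rw [hm]; exact pow_dvd_pow _ (by omega))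
    refine ⟨K.map (Q0 : Subgroup X).subtype, Subgroup.map_subtype_le K, ?_⟩
    rw [← hK]
    exact Nat.card_congr
      (K.equivMapOfInjective _ (Q0 : Subgroup X).subtype_injective).symm.toEquiv
  have hQ'p : IsPGroup q Q' := isPGroup_of_le hQ'le hQ0p
  have hYcard := card_sup_of_permute (hperm _ hQ'p) (hdis _ hQ'p)
  have hidx : (A ⊔ Q').index = q := by
    have h1 := Subgroup.card_mul_index (A ⊔ Q')
    rw [hYcard, hcardX, hm, hQ'card] at h1
    have h2 : q ^ m = q ^ (m - 1) * q := by rw [← pow_succ]; congr 1; omega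
    rw [h2, ← mul_assoc] at h1
    exact Nat.eq_of_mul_eq_mul_left (Nat.mul_pos Nat.card_pos (Nat.pow_pos hq.pos)) h1
  have hcore : (A ⊔ Q').normalCore = ⊥ := by
    rcases (inferInstance : (A ⊔ Q').normalCore.Normal).eq_bot_or_eq_top with h | h
    · exact h
    · exfalso
      have h1 : A ⊔ Q' = ⊤ := by
        rw [eq_top_iff, ← h]; exact Subgroup.normalCore_le _
      rw [h1, Subgroup.index_top] at hidx
      exact hq.one_lt.ne hidx
  have hdvd : Nat.card X ∣ q.factorial := by
    have hinj : Function.Injective (MulAction.toPermHom X (X ⧸ (A ⊔ Q'))) := by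
      rw [← MonoidHom.ker_eq_bot_iff, ← Subgroup.normalCore_eq_ker, hcore]
    have h1 := Subgroup.card_dvd_of_injective (MulAction.toPermHom X (X ⧸ (A ⊔ Q'))) hinj
    have h2 : Nat.card (Equiv.Perm (X ⧸ (A ⊔ Q'))) = q.factorial := by
      rw [Nat.card_perm]
      congr 1
    rwa [h2] at h1
  have hm1 : m = 1 := by
    by_contra hne
    have h1 : q ^ 2 ∣ q.factorial := by
      refine dvd_trans ?_ hdvd
      rw [hcardX, hm]
      exact Dvd.dvd.mul_left (pow_dvd_pow q (by omega)) _
    have h2 : q.factorial = q * (q - 1).factorial := by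
      rw [Nat.mul_factorial_pred hq.pos.ne']
    rw [h2, pow_two] at h1
    have h3 := Nat.dvd_of_mul_dvd_mul_left hq.pos h1
    have h4 := (hq.dvd_factorial).1 h3
    have := hq.pos
    omega
  have hcardX' : Nat.card X = 2 ^ s * q := by rw [hcardX, hs, hm, hm1, pow_one]
  -- (iii)
  have hsyl : ∀ S : Sylow 2 X, Nat.card (S : Subgroup X) = 2 ^ s := by
    intro S
    rw [Sylow.card_eq_multiplicity, hcardX']
    congr 1
    rw [Nat.factorization_mul (by positivity) hq.ne_zero, Nat.factorization_pow,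
      Nat.Prime.factorization Nat.prime_two, Nat.Prime.factorization hq]
    simp [hq2]
  have hfr : ∀ D : Subgroup X, IsPGroup 2 D → ∀ g : X, OddEl g → (∀ d ∈ D, g * d * g⁻¹ ∈ D) →
      ∀ d ∈ D, g * d = d * g := by
    intro D hD g hg hgD
    by_cases hDb : D = ⊥
    · intro d hd
      rw [hDb, Subgroup.mem_bot] at hd
      rw [hd]; simp
    by_cases hg1 : g = 1
    · intro d _; rw [hg1]; simp
    exfalso
    -- order of `g` is `q`
    have hordg : orderOf g = q := by
      obtain ⟨r, hr, hr2, a, ha⟩ := hg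
      have h1 : orderOf g ∣ r ^ a := orderOf_dvd_of_pow_eq_one ha
      obtain ⟨b, hb, hb2⟩ := (Nat.dvd_prime_pow hr).1 h1
      have hb0 : b ≠ 0 := by
        rintro rfl
        exact hg1 (orderOf_eq_one_iff.1 (by rw [hb2]; rfl))
      have h2 : orderOf g ∣ 2 ^ s * q := by rw [← hcardX']; exact orderOf_dvd_natCard g
      have hcop : Nat.Coprime (orderOf g) (2 ^ s) := by
        rw [hb2]
        exact Nat.Coprime.pow _ _ ((Nat.coprime_primes hr Nat.prime_two).2 hr2)
      have h3 := hcop.dvd_of_dvd_mul_left h2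
      rcases (Nat.dvd_prime hq).1 h3 with h4 | h4
      · exact absurd (orderOf_eq_one_iff.1 h4) hg1
      · exact h4
    obtain ⟨S, hS⟩ := hD.exists_le_sylow
    have hcompl : Subgroup.IsComplement' (S : Subgroup X) (zpowers g) := by
      apply Subgroup.isComplement'_of_coprime
      · rw [hsyl, Nat.card_zpowers, hordg, hcardX']
      · rw [hsyl, Nat.card_zpowers, hordg]
        exact Nat.Coprime.pow_left _ ((Nat.coprime_primes Nat.prime_two hq).2 (Ne.symm hq2))
    have hncl : Subgroup.normalClosure (D : Set X) ≤ S := by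
      rw [Subgroup.normalClosure, Subgroup.closure_le]
      intro x hx
      obtain ⟨d, hd, hdx⟩ := Group.mem_conjugatesOfSet_iff.1 hx
      obtain ⟨c, rfl⟩ := isConj_iff.1 hdx
      obtain ⟨⟨⟨t, ht⟩, ⟨z, hz⟩⟩, hc⟩ := hcompl.2 c
      have hc' : t * z = c := hc
      rw [← hc']
      have hinvD : ∀ n : ℕ, ∀ d ∈ D, g ^ n * d * (g ^ n)⁻¹ ∈ D := by
        intro n
        induction n with
        | zero => intro d hd; simpa using hd
        | succ n ih =>
          intro d hd
          have := hgD _ (ih d hd)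
          have e : g * (g ^ n * d * (g ^ n)⁻¹) * g⁻¹ = g ^ (n+1) * d * (g ^ (n+1))⁻¹ := by
            rw [pow_succ' g n]; group
          rwa [e] at this
      obtain ⟨n, _, hn⟩ := (mem_zpowers_iff_mem_range_orderOf.1 hz |> Finset.mem_image.1 :
        ∃ n ∈ Finset.range (orderOf g), g ^ n = z)
      have h1 : z * d * z⁻¹ ∈ D := by rw [← hn]; exact hinvD n d hd
      have h2 := hS h1
      have e : t * z * d * (t * z)⁻¹ = t * (z * d * z⁻¹) * t⁻¹ := by group
      rw [SetLike.mem_coe, e]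
      exact (S : Subgroup X).mul_mem ((S : Subgroup X).mul_mem ht h2) ((S : Subgroup X).inv_mem ht)
    rcases (inferInstance :
      (Subgroup.normalClosure (D : Set X)).Normal).eq_bot_or_eq_top with h | h
    · apply hDb
      rw [eq_bot_iff, ← h]
      exact Subgroup.subset_normalClosure
    · rw [h, top_le_iff] at hncl
      have h1 := hsyl S
      rw [hncl, Subgroup.card_top, hcardX'] at h1
      have h2 : 0 < 2 ^ s := by positivity
      have h3 := hq.one_lt
      nlinarith
  obtain ⟨N, hN, hNodd, a, ha⟩ := frobenius_two hfr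
  rcases hN.eq_bot_or_eq_top with h | h
  · rw [h, Subgroup.index_bot] at ha
    rw [ha] at hqX
    exact hq2 ((Nat.prime_dvd_prime_iff_eq hq Nat.prime_two).1 (hq.dvd_of_dvd_pow hqX))
  · rw [h, Subgroup.card_top] at hNodd
    exact (Nat.not_even_iff_odd.2 hNodd) (even_iff_two_dvd.2 hAeven)

end MP791b9a
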