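import Pool.Agent.Work.MP_791b9a_al.Top

namespace MP791b9a

open Subgroup Pointwise

variable {G : Type*} [Group G]

theorem oddEl_of_mem {Q : Subgroup G} {q : ℕ} (hq : q.Prime) (hq2 : q ≠ 2) (hQ : IsPGroup q Q)
    {x : G} (hx : x ∈ Q) : OddEl x := by
  obtain ⟨k, hk⟩ := hQ ⟨x, hx⟩
  exact ⟨q, hq, hq2, k, by simpa [Subtype.ext_iff] using hk⟩

theorem inf_eq_bot_of_pq {T Q : Subgroup G} {q : ℕ} (hq : q.Prime) (hq2 : q ≠ 2)
    (hT : IsPGroup 2 T) (hQ : IsPGroup q Q) {x : G} (h1 : x ∈ T) (h2 : x ∈ Q) : x = 1 :=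
  (oddEl_of_mem hq hq2 hQ h2).eq_one_of_mem hT h1

/-- A `q`-group `Q` acting on a coset `J t` of a 2-group has a fixed point. -/
theorem exists_common_fixed [Finite G] {J Q : Subgroup G} {q : ℕ} (hq : q.Prime) (hq2 : q ≠ 2)
    (hJ : IsPGroup 2 J) (hQ : IsPGroup q Q) {t : G} (hQJ : Inv Q J)
    (ht : ∀ x ∈ Q, x * t * x⁻¹ * t⁻¹ ∈ J) :
    ∃ y : G, y * t⁻¹ ∈ J ∧ ∀ x ∈ Q, x * y * x⁻¹ = y := by
  classical
  have : Fact q.Prime := ⟨hq⟩
  let α := {y : G // y * t⁻¹ ∈ J}
  have hstep : ∀ x ∈ Q, ∀ y : G, y * t⁻¹ ∈ J → x * y * x⁻¹ * t⁻¹ ∈ J := by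
    intro x hx y hy
    have h1 := J.mul_mem (hQJ x hx _ hy) (ht x hx)
    have : x * (y * t⁻¹) * x⁻¹ * (x * t * x⁻¹ * t⁻¹) = x * y * x⁻¹ * t⁻¹ := by group
    rwa [this] at h1
  let _ : MulAction Q α :=
    { smul := fun x y => ⟨x * y * (x : G)⁻¹, hstep x x.2 y y.2⟩
      one_smul := fun y => Subtype.ext (by
        change ((1 : Q) : G) * (y : G) * ((1 : Q) : G)⁻¹ = y
        simp)
      mul_smul := fun a b y => Subtype.ext (by
        change ((a * b : Q) : G) * (y : G) * ((a * b : Q) : G)⁻¹ =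
          (a : G) * ((b : G) * y * (b : G)⁻¹) * (a : G)⁻¹
        push_cast
        group) }
  have hcard : ¬ q ∣ Nat.card α := by
    have e : Nat.card α = Nat.card J := by
      apply Nat.card_congr
      exact
        { toFun := fun y => ⟨y * t⁻¹, y.2⟩
          invFun := fun f => ⟨f * t, by simp⟩
          left_inv := fun y => Subtype.ext (by simp)
          right_inv := fun y => Subtype.ext (by simp) }
    rw [e]
    obtain ⟨b, hb⟩ := card_two_pow hJ
    rw [hb]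
    intro hd
    exact hq2 ((Nat.prime_dvd_prime_iff_eq hq Nat.prime_two).1 (hq.dvd_of_dvd_pow hd))
  obtain ⟨y, hy⟩ := hQ.nonempty_fixed_point_of_prime_not_dvd_card α hcard
  refine ⟨y, y.2, fun x hx => ?_⟩
  have := hy ⟨x, hx⟩
  exact congrArg Subtype.val this

/-- The splitting lemma. -/
theorem split_lemma [Finite G] {T Q : Subgroup G} {q : ℕ} (hq : q.Prime) (hq2 : q ≠ 2)
    (hT : IsPGroup 2 T) [hTn : T.Normal] (hQ : IsPGroup q Q) [hN : (T ⊔ Q).Normal]
    (hnc : ∃ x ∈ Q, ∃ t ∈ T, x * t ≠ t * x)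
    (hmin : ∀ J : Subgroup G, J.Normal → J ≤ T → J ≠ ⊥ →
      ∀ x ∈ Q, ∀ t ∈ T, x * t * x⁻¹ * t⁻¹ ∈ J) :
    (∀ J : Subgroup G, J.Normal → J ≤ T → J = ⊥ ∨ J = T) ∧
    (∃ X : Subgroup G, X ⊓ T = ⊥ ∧ ∀ g : G, ∃ t ∈ T, ∃ x ∈ X, g = t * x) ∧
    Nat.card T ≠ 2 := by
  have : Fact q.Prime := ⟨hq⟩
  have hodd : ∀ x ∈ Q, OddEl x := fun x hx => oddEl_of_mem hq hq2 hQ hx
  -- squares are trivial
  set F := Subgroup.closure {y | ∃ s ∈ T, y = s ^ 2} with hF
  have hFn : F.Normal := by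
    apply Inv.normal
    apply Inv.closure
    rintro n _ y ⟨s, hs, rfl⟩
    exact Subgroup.subset_closure ⟨n * s * n⁻¹, hTn.conj_mem s hs n, by rw [conj_pow]⟩
  have hFT : F ≤ T := by
    rw [hF, Subgroup.closure_le]
    rintro y ⟨s, hs, rfl⟩
    exact T.pow_mem hs 2
  have hFbot : F = ⊥ := by
    by_contra hne
    obtain ⟨x, hx, t, ht, hxt⟩ := hnc
    exact hxt (frattini_coprime hT (hodd x hx) (fun t ht => hTn.conj_mem t ht x)
      (fun t ht => hmin F hFn hFT hne x hx t ht) t ht)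
  have hsq : ∀ t ∈ T, t ^ 2 = 1 := by
    intro t ht
    have : t ^ 2 ∈ F := Subgroup.subset_closure ⟨t, ht, rfl⟩
    rwa [hFbot, Subgroup.mem_bot] at this
  have hab : ∀ s ∈ T, ∀ t ∈ T, s * t = t * s := by
    intro s hs t ht
    have h1 := hsq _ hs
    have h2 := hsq _ ht
    have h3 := hsq _ (T.mul_mem hs ht)
    rw [pow_two] at h1 h2 h3
    have e1 : s⁻¹ = s := inv_eq_of_mul_eq_one_left h1
    have e2 : t⁻¹ = t := inv_eq_of_mul_eq_one_left h2
    have e3 : (s * t)⁻¹ = s * t := inv_eq_of_mul_eq_one_left h3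
    rw [mul_inv_rev, e1, e2] at e3
    exact e3.symm
  -- the fixed points
  set C : Subgroup G := T ⊓ Subgroup.centralizer (Q : Set G) with hC
  have hCn : C.Normal := by
    refine ⟨fun t ht g => ⟨hTn.conj_mem t ht.1 g, ?_⟩⟩
    change g * t * g⁻¹ ∈ Subgroup.centralizer (Q : Set G)
    rw [Subgroup.mem_centralizer_iff]
    intro x hx
    have h1 : g⁻¹ * x * g ∈ T ⊔ Q := by
      have := hN.conj_mem x ((le_sup_right : Q ≤ T ⊔ Q) hx) g⁻¹
      simpa using this
    have h1' : g⁻¹ * x * g ∈ ((T ⊔ Q : Subgroup G) : Set G) := h1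
    rw [Subgroup.normal_mul] at h1'
    obtain ⟨s, hs, y, hy, hsy⟩ := h1'
    have hsy' : s * y = g⁻¹ * x * g := hsy
    have h2 : y * t = t * y := (Subgroup.mem_centralizer_iff.1 ht.2) y hy
    have h3 : s * t = t * s := hab s hs t ht.1
    have h4 : (g⁻¹ * x * g) * t = t * (g⁻¹ * x * g) := by
      rw [← hsy', mul_assoc, h2, ← mul_assoc, h3, mul_assoc]
    calc x * (g * t * g⁻¹) = g * ((g⁻¹ * x * g) * t) * g⁻¹ := by group
      _ = g * (t * (g⁻¹ * x * g)) * g⁻¹ := by rw [h4]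
      _ = g * t * g⁻¹ * x := by group
  have hCbot : C = ⊥ := by
    by_contra hne
    obtain ⟨x, hx, t, ht, hxt⟩ := hnc
    apply hxt
    have h1 := hmin C hCn inf_le_left hne x hx t ht
    have h2 := (Subgroup.mem_centralizer_iff.1 h1.2) x hx
    have h3 := comm_eq_one hT (g := x) (x := t) (c := x * t * x⁻¹ * t⁻¹) h1.1 (hodd x hx)
      (by group) (by rw [h2]; group)
    have h4 := mul_inv_eq_one.1 h3
    have h5 : x * t * x⁻¹ * x = t * x := by rw [h4]
    simpa [mul_assoc] using h5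
  have hC1 : ∀ t ∈ T, (∀ x ∈ Q, x * t = t * x) → t = 1 := by
    intro t ht h
    have : t ∈ C := ⟨ht, Subgroup.mem_centralizer_iff.2 h⟩
    rwa [hCbot, Subgroup.mem_bot] at this
  refine ⟨?_, ?_, ?_⟩
  · intro J hJ hJT
    by_cases hJb : J = ⊥
    · exact Or.inl hJb
    right
    apply le_antisymm hJT
    intro t ht
    obtain ⟨y, hy1, hy2⟩ := exists_common_fixed hq hq2 (isPGroup_of_le hJT hT) hQ (t := t)
      (inv_of_normal _ J) (fun x hx => hmin J hJ hJT hJb x hx t ht)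
    have hyT : y ∈ T := by
      have := T.mul_mem (hJT hy1) ht
      simpa using this
    have hy : y = 1 := hC1 y hyT (fun x hx => mul_inv_eq_iff_eq_mul.1 (hy2 x hx))
    rw [hy, one_mul] at hy1
    exact J.inv_mem_iff.1 hy1
  · refine ⟨Subgroup.normalizer (Q : Set G), ?_, ?_⟩
    · rw [eq_bot_iff]
      rintro t ⟨ht1, ht2⟩
      rw [Subgroup.mem_bot]
      apply hC1 t ht2
      intro x hx
      have h1 : t * x * t⁻¹ ∈ Q := (Subgroup.mem_normalizer_iff.1 ht1 x).1 hx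
      have h2 : t * x * t⁻¹ * x⁻¹ ∈ Q := Q.mul_mem h1 (Q.inv_mem hx)
      have h3 : t * x * t⁻¹ * x⁻¹ ∈ T := by
        have := T.mul_mem ht2 (hTn.conj_mem _ (T.inv_mem ht2) x)
        have e : t * (x * t⁻¹ * x⁻¹) = t * x * t⁻¹ * x⁻¹ := by group
        rwa [e] at this
      have h4 := inf_eq_bot_of_pq hq hq2 hT hQ h3 h2
      have h5 := mul_inv_eq_one.1 h4
      rw [mul_inv_eq_iff_eq_mul] at h5
      exact h5.symm
    · -- Frattini argument
      have hcard : Nat.card (T ⊔ Q : Subgroup G) = Nat.card T * Nat.card Q := by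
        have h1 : T.relIndex (T ⊔ Q) = Nat.card Q := by
          rw [Subgroup.relIndex_sup_left, ← Subgroup.inf_relIndex_right]
          have : T ⊓ Q = ⊥ := by
            rw [eq_bot_iff]
            rintro x ⟨hx1, hx2⟩
            exact Subgroup.mem_bot.2 (inf_eq_bot_of_pq hq hq2 hT hQ hx1 hx2)
          rw [this, Subgroup.relIndex_bot_left]
        have h2 := Subgroup.card_mul_index (T.subgroupOf (T ⊔ Q))
        rw [Nat.card_congr (Subgroup.subgroupOfEquivOfLe (le_sup_left : T ≤ T ⊔ Q)).toEquiv] at h2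
        have h3 : (T.subgroupOf (T ⊔ Q)).index = Nat.card Q := h1
        rw [h3] at h2
        exact h2.symm
      have hidx : (Q.subgroupOf (T ⊔ Q)).index = Nat.card T := by
        have h2 := Subgroup.card_mul_index (Q.subgroupOf (T ⊔ Q))
        rw [Nat.card_congr (Subgroup.subgroupOfEquivOfLe (le_sup_right : Q ≤ T ⊔ Q)).toEquiv,
          hcard, mul_comm (Nat.card T)] at h2
        exact Nat.eq_of_mul_eq_mul_left Nat.card_pos h2
      have hQ' : IsPGroup q (Q.subgroupOf (T ⊔ Q)) :=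
        hQ.of_equiv (Subgroup.subgroupOfEquivOfLe (le_sup_right : Q ≤ T ⊔ Q)).symm
      have hnd : ¬ q ∣ (Q.subgroupOf (T ⊔ Q)).index := by
        rw [hidx]
        obtain ⟨b, hb⟩ := card_two_pow hT
        rw [hb]
        intro hd
        exact hq2 ((Nat.prime_dvd_prime_iff_eq hq Nat.prime_two).1 (hq.dvd_of_dvd_pow hd))
      have hfr := Sylow.normalizer_sup_eq_top (hQ'.toSylow hnd)
      have e1 : (((hQ'.toSylow hnd : Sylow q (T ⊔ Q : Subgroup G)) : Subgroup (T ⊔ Q : Subgroup G)).map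
          (T ⊔ Q).subtype : Subgroup G) = Q := by
        rw [IsPGroup.toSylow_coe, Subgroup.subgroupOf_map_subtype, inf_eq_left]
        exact le_sup_right
      rw [e1] at hfr
      have e2 : T ⊔ Subgroup.normalizer (Q : Set G) = ⊤ := by
        rw [eq_top_iff, ← hfr]
        refine sup_le le_sup_right (sup_le le_sup_left (le_trans ?_ le_sup_right))
        exact Subgroup.le_normalizer
      intro g
      have hg : g ∈ ((T ⊔ Subgroup.normalizer (Q : Set G) : Subgroup G) : Set G) := by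
        rw [e2]; trivial
      rw [Subgroup.normal_mul] at hg
      obtain ⟨t, ht, x, hx, rfl⟩ := hg
      exact ⟨t, ht, x, hx, rfl⟩
  · intro hc
    obtain ⟨x, hx, t, ht, hxt⟩ := hnc
    apply hxt
    have ht1 : t ≠ 1 := by rintro rfl; simp at hxt
    have h2 : x * t * x⁻¹ ∈ T := hTn.conj_mem t ht x
    have h3 : x * t * x⁻¹ ≠ 1 := by
      intro h
      apply ht1
      have := congrArg (fun y => x⁻¹ * y * x) h
      simpa [mul_assoc] using this
    obtain ⟨a, b, hab', huniv⟩ := Nat.card_eq_two_iff.1 hc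
    have hmem : ∀ z : T, z = a ∨ z = b := by
      intro z
      have : z ∈ ({a, b} : Set T) := by rw [huniv]; trivial
      simpa using this
    have h4 : (⟨x * t * x⁻¹, h2⟩ : T) = ⟨t, ht⟩ := by
      have n1 : (⟨x * t * x⁻¹, h2⟩ : T) ≠ 1 := fun h => h3 (congrArg Subtype.val h)
      have n2 : (⟨t, ht⟩ : T) ≠ 1 := fun h => ht1 (congrArg Subtype.val h)
      rcases hmem 1 with h | h <;> rcases hmem ⟨x * t * x⁻¹, h2⟩ with h' | h' <;>
        rcases hmem ⟨t, ht⟩ with h'' | h''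
      · exact absurd (h'.trans h.symm) n1
      · exact absurd (h'.trans h.symm) n1
      · exact absurd (h''.trans h.symm) n2
      · rw [h', h'']
      · rw [h', h'']
      · exact absurd (h''.trans h.symm) n2
      · exact absurd (h'.trans h.symm) n1
      · exact absurd (h'.trans h.symm) n1
    have h5 : x * t * x⁻¹ = t := congrArg Subtype.val h4
    exact mul_inv_eq_iff_eq_mul.1 h5

end MP791b9a
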