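import Pool.Agent.Work.MP_791b9a_al.Mid

namespace MP791b9a

open Subgroup Pointwise

variable {G : Type*} [Group G]

theorem exists_fixed_in_coset [Finite G] {F : Subgroup G} (hF : IsPGroup 2 F) {g x : G}
    (hg : OddEl g) (hgF : ∀ f ∈ F, g * f * g⁻¹ ∈ F) (hx : g * x * g⁻¹ * x⁻¹ ∈ F) :
    ∃ f ∈ F, g * (f * x) * g⁻¹ = f * x := by
  classical
  obtain ⟨q, hq, hq2, a, ha⟩ := hg
  have : Fact q.Prime := ⟨hq⟩
  let α := {y : G // y * x⁻¹ ∈ F}
  have : Fintype α := Fintype.ofFinite α
  have hstep : ∀ y : G, y * x⁻¹ ∈ F → g * y * g⁻¹ * x⁻¹ ∈ F := by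
    intro y hy
    have h1 := F.mul_mem (hgF _ hy) hx
    have : g * (y * x⁻¹) * g⁻¹ * (g * x * g⁻¹ * x⁻¹) = g * y * g⁻¹ * x⁻¹ := by group
    rwa [this] at h1
  have hstepn : ∀ (n : ℕ) (y : G), y * x⁻¹ ∈ F → g ^ n * y * (g ^ n)⁻¹ * x⁻¹ ∈ F := by
    intro n
    induction n with
    | zero => intro y hy; simpa using hy
    | succ n ih =>
      intro y hy
      have := hstep _ (ih y hy)
      have e : g * (g ^ n * y * (g ^ n)⁻¹) * g⁻¹ = g ^ (n+1) * y * (g ^ (n+1))⁻¹ := by
        rw [pow_succ' g n]; group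
      rwa [e] at this
  have hinv : ∀ y : G, y * x⁻¹ ∈ F → g⁻¹ * y * g * x⁻¹ ∈ F := by
    intro y hy
    have h1 := hstepn (q ^ a - 1) y hy
    have hpos : 0 < q ^ a := Nat.pow_pos hq.pos
    have h2 : g ^ (q ^ a - 1) = g⁻¹ := by
      rw [eq_inv_iff_mul_eq_one, ← pow_succ, Nat.sub_add_cancel hpos, ha]
    rw [h2, inv_inv] at h1
    exact h1
  let σ : Equiv.Perm α :=
    { toFun := fun y => ⟨g * y * g⁻¹, hstep y y.2⟩
      invFun := fun y => ⟨g⁻¹ * y * g, hinv y y.2⟩
      left_inv := fun y => Subtype.ext (by simp [mul_assoc])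
      right_inv := fun y => Subtype.ext (by simp [mul_assoc]) }
  have hσn : ∀ (n : ℕ) (y : α), (((σ ^ n) y : α) : G) = g ^ n * y * (g ^ n)⁻¹ := by
    intro n
    induction n with
    | zero => intro y; simp
    | succ n ih =>
      intro y
      rw [pow_succ' σ n, Equiv.Perm.mul_apply]
      change g * (((σ ^ n) y : α) : G) * g⁻¹ = _
      rw [ih, pow_succ' g n]
      group
  have hσ : σ ^ q ^ a = 1 := by
    ext y
    rw [hσn, ha]
    simp
  have hcard : ¬ q ∣ Fintype.card α := by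
    have e : Nat.card α = Nat.card F := by
      apply Nat.card_congr
      exact
        { toFun := fun y => ⟨y * x⁻¹, y.2⟩
          invFun := fun f => ⟨f * x, by simp⟩
          left_inv := fun y => Subtype.ext (by simp)
          right_inv := fun y => Subtype.ext (by simp) }
    rw [← Nat.card_eq_fintype_card, e]
    obtain ⟨b, hb⟩ := card_two_pow hF
    rw [hb]
    intro hd
    exact hq2 ((Nat.prime_dvd_prime_iff_eq hq Nat.prime_two).1 (hq.dvd_of_dvd_pow hd))
  obtain ⟨y, hy⟩ := Equiv.Perm.exists_fixed_point_of_prime hcard hσ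
  have hy' : g * (y : G) * g⁻¹ = y := congrArg Subtype.val hy
  refine ⟨y * x⁻¹, y.2, ?_⟩
  rw [inv_mul_cancel_right, hy']

/-- Squares of elements of `S` lie in every subgroup of index two. -/
theorem sq_mem_of_card [Finite G] {W K : Subgroup G} (hWK : W ≤ K)
    (hc : 2 * Nat.card W = Nat.card K) {x : G} (hx : x ∈ K) : x ^ 2 ∈ W := by
  have h2 := Subgroup.card_mul_index (W.subgroupOf K)
  rw [Nat.card_congr (Subgroup.subgroupOfEquivOfLe hWK).toEquiv] at h2
  have h3 : (W.subgroupOf K).index = 2 := by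
    have : 0 < Nat.card W := Nat.card_pos
    nlinarith
  have := Subgroup.sq_mem_of_index_two h3 ⟨x, hx⟩
  simpa [Subgroup.mem_subgroupOf] using this

/-- An odd element acting trivially on `S / Φ(S)` acts trivially on `S` (`Φ(S)` is generated by the
squares for a 2-group `S`). -/
theorem frattini_coprime [Finite G] {S : Subgroup G} (hS : IsPGroup 2 S) {g : G} (hg : OddEl g)
    (hgS : ∀ x ∈ S, g * x * g⁻¹ ∈ S)
    (h : ∀ x ∈ S, g * x * g⁻¹ * x⁻¹ ∈ Subgroup.closure {y | ∃ s ∈ S, y = s ^ 2}) :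
    ∀ x ∈ S, g * x = x * g := by
  set F := Subgroup.closure {y | ∃ s ∈ S, y = s ^ 2} with hF
  have hFS : F ≤ S := by
    rw [hF, Subgroup.closure_le]
    rintro y ⟨s, hs, rfl⟩
    exact S.pow_mem hs 2
  have hgF : ∀ f ∈ F, g * f * g⁻¹ ∈ F := by
    intro f hf
    induction hf using Subgroup.closure_induction with
    | mem y hy =>
      obtain ⟨s, hs, rfl⟩ := hy
      exact Subgroup.subset_closure ⟨g * s * g⁻¹, hgS s hs, by rw [conj_pow]⟩
    | one => simp
    | mul a b _ _ ha hb =>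
      have : g * (a * b) * g⁻¹ = (g * a * g⁻¹) * (g * b * g⁻¹) := by group
      rw [this]; exact F.mul_mem ha hb
    | inv a _ ha =>
      have : g * a⁻¹ * g⁻¹ = (g * a * g⁻¹)⁻¹ := by group
      rw [this]; exact F.inv_mem ha
  -- the centralizer
  set C := S ⊓ Subgroup.centralizer {g} with hC
  have hCS : C ≤ S := inf_le_left
  have hCF : ∀ x ∈ S, ∃ c ∈ C, ∃ f ∈ F, x = f * c := by
    intro x hx
    obtain ⟨f, hf, hfx⟩ := exists_fixed_in_coset (isPGroup_of_le hFS hS) hg hgF (h x hx)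
    refine ⟨f * x, ⟨S.mul_mem (hFS hf) hx, ?_⟩, f⁻¹, F.inv_mem hf, by group⟩
    change f * x ∈ Subgroup.centralizer {g}
    rw [Subgroup.mem_centralizer_singleton_iff]
    have := mul_inv_eq_iff_eq_mul.1 hfx
    exact this.symm
  have hCeq : C = S := by
    by_contra hne
    obtain ⟨a, ha⟩ := card_two_pow (isPGroup_of_le hCS hS)
    obtain ⟨c, hc⟩ := card_two_pow hS
    have hac : a < c := by
      have h1 : Nat.card C < Nat.card S := by
        refine lt_of_le_of_ne (Subgroup.card_le_of_le hCS) ?_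
        intro h
        exact hne (Subgroup.eq_of_le_of_card_ge hCS h.ge)
      rw [ha, hc] at h1
      exact (Nat.pow_lt_pow_iff_right (by norm_num)).1 h1
    obtain ⟨W, hW1, hW2, hW3⟩ := exists_between (j := c - 1) hS hCS
      (by rw [ha]; exact Nat.pow_le_pow_right (by norm_num) (by omega))
      (by rw [hc]; exact Nat.pow_le_pow_right (by norm_num) (by omega))
    have hW4 : 2 * Nat.card W = Nat.card S := by
      rw [hW3, hc, ← pow_succ']; congr 1; omega
    have hFW : F ≤ W := by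
      rw [hF, Subgroup.closure_le]
      rintro y ⟨s, hs, rfl⟩
      exact sq_mem_of_card hW2 hW4 hs
    have hSW : S ≤ W := by
      intro x hx
      obtain ⟨c, hc, f, hf, rfl⟩ := hCF x hx
      exact W.mul_mem (hFW hf) (hW1 hc)
    have : W = S := le_antisymm hW2 hSW
    rw [this] at hW4
    have : 0 < Nat.card S := Nat.card_pos
    omega
  intro x hx
  rw [← hCeq] at hx
  exact (Subgroup.mem_centralizer_singleton_iff.1 hx.2).symm

/-- Case P normal. -/
theorem normal_case [Finite G] (P : Sylow 2 G) {k : ℕ} (hyp : Hyp G k)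
    [hPn : (P : Subgroup G).Normal] (hord : ∀ y ∈ P, orderOf y < 2 ^ k)
    (hcard : 2 ^ k < Nat.card P) : ∀ g : G, OddEl g → ∀ x ∈ P, g * x = x * g := by
  intro g hg
  set F := Subgroup.closure {y | ∃ s ∈ (P : Subgroup G), y = s ^ 2} with hF
  have hPP : IsPGroup 2 (P : Subgroup G) := P.isPGroup'
  have hFP : F ≤ P := by
    rw [hF, Subgroup.closure_le]
    rintro y ⟨s, hs, rfl⟩
    exact (P : Subgroup G).pow_mem hs 2
  have hFn : F.Normal := by
    apply Inv.normal
    apply Inv.closure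
    rintro n _ y ⟨s, hs, rfl⟩
    exact Subgroup.subset_closure ⟨n * s * n⁻¹, hPn.conj_mem s hs n, by rw [conj_pow]⟩
  have hsq : ∀ x ∈ P, x ^ 2 ∈ F := fun x hx => Subgroup.subset_closure ⟨x, hx, rfl⟩
  have hcomm : ∀ x ∈ P, ∀ y ∈ P, x * y * x⁻¹ * y⁻¹ ∈ F := by
    intro x hx y hy
    have h1 := hsq _ hx
    have h2 := hsq _ (P.mul_mem (P.inv_mem hx) hy)
    have h3 := hsq _ (P.inv_mem hy)
    have : x * y * x⁻¹ * y⁻¹ = x ^ 2 * (x⁻¹ * y) ^ 2 * (y⁻¹) ^ 2 := by
      simp only [pow_two]; group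
    rw [this]
    exact F.mul_mem (F.mul_mem h1 h2) h3
  have hinv : ∀ W : Subgroup G, F ≤ W → W ≤ P → Inv (P : Subgroup G) W := by
    intro W hFW hWP p hp w hw
    have h1 := hcomm p hp w (hWP hw)
    have h2 := W.mul_mem (hFW h1) hw
    simpa using h2
  -- main claim
  have main : ∀ x ∈ P, g * x * g⁻¹ ∈ F ⊔ zpowers x := by
    intro x hx
    by_contra hy
    have hDP : F ⊔ zpowers x ≤ P := sup_le hFP ((Subgroup.zpowers_le).2 hx)
    have hyP : g * x * g⁻¹ ∈ (P : Subgroup G) := hPn.conj_mem x hx g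
    obtain ⟨W, ⟨hW1, hW2, hW3⟩, hWmax⟩ := WellFounded.has_min
      (wellFounded_gt : WellFounded ((· > ·) : Subgroup G → Subgroup G → Prop))
      {W : Subgroup G | F ⊔ zpowers x ≤ W ∧ W ≤ P ∧ g * x * g⁻¹ ∉ W} ⟨_, le_rfl, hDP, hy⟩
    have hFW : F ≤ W := le_sup_left.trans hW1
    have hWlt : W < P := by
      refine lt_of_le_of_ne hW2 ?_
      rintro h; rw [h] at hW3; exact hW3 hyP
    have hbig : ∀ x' ∈ P, x' ∉ W → g * x * g⁻¹ ∈ W ⊔ zpowers x' := by
      intro x' hx' hx'W
      by_contra hcon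
      apply hWmax (W ⊔ zpowers x') ⟨hW1.trans le_sup_left,
        sup_le hW2 ((Subgroup.zpowers_le).2 hx'), hcon⟩
      refine lt_of_le_of_ne le_sup_left ?_
      intro h
      apply hx'W
      rw [h]
      exact (le_sup_right : zpowers x' ≤ W ⊔ zpowers x') (mem_zpowers x')
    have hWcard : 2 * Nat.card W = Nat.card P := by
      obtain ⟨x', hx', hx'W⟩ := Set.exists_of_ssubset hWlt
      have hWi := hinv W hFW hW2
      have hx2 : x' ^ 2 ∈ W := hFW (hsq x' hx')
      have hm := mem_adjoin (W := W) (x := x') (fun w hw => hWi x' hx' w hw) hx2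
      rw [← card_adjoin (fun w hw => hWi x' hx' w hw) hx2 hx'W]
      congr 1
      have : W ⊔ zpowers x' = (P : Subgroup G) := by
        apply le_antisymm (sup_le hW2 ((Subgroup.zpowers_le).2 hx'))
        intro z hz
        by_cases hzW : z ∈ W
        · exact (le_sup_left : W ≤ W ⊔ zpowers x') hzW
        · have e1 := hbig x' hx' hx'W
          have e2 := hbig z hz hzW
          rw [hm] at e1
          rw [mem_adjoin (W := W) (x := z) (fun w hw => hWi z hz w hw) (hFW (hsq z hz))] at e2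
          rcases e1 with e1 | e1
          · exact absurd e1 hW3
          rcases e2 with e2 | e2
          · exact absurd e2 hW3
          rw [hm]
          right
          -- `z x' = z (g x g⁻¹)⁻¹ ⋯`
          have e3 := W.mul_mem (W.inv_mem e2) e1
          have e4 : (g * x * g⁻¹ * z)⁻¹ * (g * x * g⁻¹ * x') = z⁻¹ * x' := by group
          rw [e4] at e3
          have e5 := W.mul_mem (hFW (hsq z hz)) e3
          have e6 : z ^ 2 * (z⁻¹ * x') = z * x' := by rw [pow_two]; group
          rwa [e6] at e5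
      rw [this]
    -- find `H`
    have hcW : 2 ^ k ≤ Nat.card W := by
      obtain ⟨c, hc⟩ := card_two_pow hPP
      have hc' : Nat.card P = 2 ^ c := hc
      rw [hc'] at hcard hWcard
      have h1 : k < c := (Nat.pow_lt_pow_iff_right (by norm_num)).1 hcard
      have h2 : 2 * 2 ^ k ≤ 2 ^ c := by
        rw [← pow_succ']; exact Nat.pow_le_pow_right (by norm_num) h1
      omega
    have hxW : zpowers x ≤ W := le_sup_right.trans hW1
    obtain ⟨H, hH1, hH2, hH3⟩ := exists_between (A := zpowers x) (C := W)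
      (isPGroup_of_le hW2 hPP) hxW (by rw [Nat.card_zpowers]; exact (hord x hx).le) hcW
    have hg1 := good_chief P hyp hPP le_rfl (L := F) (K := (P : Subgroup G)) hH3
    rw [inf_eq_left.2 (hH2.trans hW2)] at hg1
    have hn : (H ⊔ F).Normal := hg1.inv (hinv _ le_sup_right (sup_le (hH2.trans hW2) hFP))
    have h1 : x ∈ H ⊔ F := (le_sup_left : H ≤ H ⊔ F) (hH1 (mem_zpowers x))
    have h2 := hn.conj_mem x h1 g
    exact hW3 ((sup_le hH2 hFW) h2)
  have hsub : ∀ x ∈ P, g * x * g⁻¹ ∈ (P : Subgroup G) := fun x hx => hPn.conj_mem x hx g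
  apply frattini_coprime hPP hg hsub
  intro x hx
  by_cases hxF : x ∈ F
  · exact F.mul_mem (hFn.conj_mem x hxF g) (F.inv_mem hxF)
  · have h1 := main x hx
    rw [mem_adjoin (W := F) (x := x) (fun w hw => hFn.conj_mem w hw x) (hsq x hx)] at h1
    rcases h1 with h1 | h1
    · exact absurd (((inv_of_normal ⊤ F).iff trivial x).1 h1) hxF
    · have h2 := F.mul_mem h1 (F.inv_mem (hsq x hx))
      have : g * x * g⁻¹ * x * (x ^ 2)⁻¹ = g * x * g⁻¹ * x⁻¹ := by rw [pow_two]; group
      rwa [this] at h2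

end MP791b9a
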